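import Pool.Agent.U507.GM.VA

/-!
# The variance of primes for windows of length at most one
-/

set_option autoImplicit false

open Complex Filter Topology Set MeasureTheory Metric
open scoped Real

namespace Pool.Agent.U507.GM

lemma psi_short1 {x h : ℝ} (hx : 0 ≤ x) (hh : 0 ≤ h) (hh1 : h ≤ 1) :
    Chebyshev.psi (x + h) - Chebyshev.psi x ≤ Real.log (x + h + 1) := by
  have hle : ⌊x⌋₊ ≤ ⌊x + h⌋₊ := Nat.floor_le_floor (by linarith)
  have hle2 : ⌊x + h⌋₊ ≤ ⌊x⌋₊ + 1 := by
    rw [← Nat.lt_add_one_iff, Nat.floor_lt (by linarith)]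
    have := Nat.lt_floor_add_one x
    push_cast
    linarith
  have h1 : Chebyshev.psi (x + h) - Chebyshev.psi x = ∑ n ∈ Finset.Ioc ⌊x⌋₊ ⌊x + h⌋₊, ArithmeticFunction.vonMangoldt n := by
    unfold Chebyshev.psi
    rw [sub_eq_iff_eq_add, add_comm (∑ n ∈ Finset.Ioc ⌊x⌋₊ ⌊x + h⌋₊, ArithmeticFunction.vonMangoldt n)]
    exact (Finset.sum_Ioc_consecutive (fun n => ArithmeticFunction.vonMangoldt n) (Nat.zero_le _) hle).symm
  rw [h1]
  have hlog0 : 0 ≤ Real.log (x + h + 1) := Real.log_nonneg (by linarith)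
  rcases Nat.eq_or_lt_of_le hle with h2 | h2
  · rw [← h2, Finset.Ioc_self, Finset.sum_empty]
    exact hlog0
  · have h3 : ⌊x + h⌋₊ = ⌊x⌋₊ + 1 := le_antisymm hle2 h2
    rw [h3, Nat.Ioc_succ_singleton, Finset.sum_singleton]
    refine ArithmeticFunction.vonMangoldt_le_log.trans ?_
    apply Real.log_le_log (by positivity)
    have h4 : ((⌊x + h⌋₊ : ℕ) : ℝ) ≤ x + h := Nat.floor_le (by linarith)
    rw [h3] at h4
    push_cast at h4 ⊢
    linarith

lemma Dd_sq_le {x h : ℝ} (hx : 0 ≤ x) (hh : 0 ≤ h) (hh1 : h ≤ 1) :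
    Dd x h ^ 2 ≤ Real.log (x + h + 1) * (Chebyshev.psi (x + h) - Chebyshev.psi x) + h ^ 2 := by
  have h1 := psi_short1 hx hh hh1
  have h2 : 0 ≤ Chebyshev.psi (x + h) - Chebyshev.psi x := by
    have := Chebyshev.psi_mono (show x ≤ x + h by linarith)
    linarith
  unfold Dd
  nlinarith

lemma psi_ii (a b : ℝ) : IntervalIntegrable Chebyshev.psi volume a b := Chebyshev.psi_mono.intervalIntegrable

lemma psi_tele {X a b h : ℝ} (hX : 0 < X) (hh : 0 ≤ h) :
    ∫ w in a..b, (Chebyshev.psi (X * w + h) - Chebyshev.psi (X * w)) ≤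
      h / X * (Chebyshev.psi (X * b + h) - Chebyshev.psi (X * a)) := by
  have h1 : ∫ w in a..b, (Chebyshev.psi (X * w + h) - Chebyshev.psi (X * w)) =
      X⁻¹ * ∫ x in (X * a)..(X * b), (Chebyshev.psi (x + h) - Chebyshev.psi x) := by
    rw [intervalIntegral.integral_comp_mul_left (fun x => Chebyshev.psi (x + h) - Chebyshev.psi x) hX.ne', smul_eq_mul]
  have hs : IntervalIntegrable (fun x => Chebyshev.psi (x + h)) volume (X * a) (X * b) := by
    have : Monotone fun x => Chebyshev.psi (x + h) := fun x y hxy => Chebyshev.psi_mono (by linarith)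
    exact this.intervalIntegrable
  rw [h1, intervalIntegral.integral_sub hs (psi_ii _ _), intervalIntegral.integral_comp_add_right Chebyshev.psi h]
  have e1 : (∫ x in (X * a)..(X * b + h), Chebyshev.psi x) = (∫ x in (X * a)..(X * a + h), Chebyshev.psi x) +
      ∫ x in (X * a + h)..(X * b + h), Chebyshev.psi x :=
    (intervalIntegral.integral_add_adjacent_intervals (psi_ii _ _) (psi_ii _ _)).symm
  have e2 : (∫ x in (X * a)..(X * b + h), Chebyshev.psi x) = (∫ x in (X * a)..(X * b), Chebyshev.psi x) +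
      ∫ x in (X * b)..(X * b + h), Chebyshev.psi x :=
    (intervalIntegral.integral_add_adjacent_intervals (psi_ii _ _) (psi_ii _ _)).symm
  have b1 : ∫ x in (X * b)..(X * b + h), Chebyshev.psi x ≤ h * Chebyshev.psi (X * b + h) := by
    have := intervalIntegral.integral_mono_on (a := X * b) (b := X * b + h) (by linarith) (psi_ii _ _)
      (by simp : IntervalIntegrable (fun _ => Chebyshev.psi (X * b + h)) volume (X * b) (X * b + h)) fun y hy =>
        Chebyshev.psi_mono hy.2
    rw [intervalIntegral.integral_const, smul_eq_mul] at this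
    linarith
  have b2 : h * Chebyshev.psi (X * a) ≤ ∫ x in (X * a)..(X * a + h), Chebyshev.psi x := by
    have := intervalIntegral.integral_mono_on (a := X * a) (b := X * a + h) (by linarith)
      (by simp : IntervalIntegrable (fun _ => Chebyshev.psi (X * a)) volume (X * a) (X * a + h)) (psi_ii _ _) fun y hy =>
        Chebyshev.psi_mono hy.1
    rw [intervalIntegral.integral_const, smul_eq_mul] at this
    linarith
  have e3 : h / X * (Chebyshev.psi (X * b + h) - Chebyshev.psi (X * a)) =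
      X⁻¹ * (h * Chebyshev.psi (X * b + h) - h * Chebyshev.psi (X * a)) := by
    rw [div_eq_mul_inv]
    ring
  rw [e3]
  apply mul_le_mul_of_nonneg_left _ (by positivity)
  linarith

lemma psi_quot (hRH : RiemannHypothesis) : (∃ C : ℝ, 0 < C ∧ ∀ X : ℝ, 1 ≤ X →
      (Chebyshev.psi (2 * X + 1) - Chebyshev.psi (X - 1)) / X ≤ C) ∧
    ∀ ε : ℝ, 0 < ε → ∃ X1 : ℝ, 1 ≤ X1 ∧ ∀ X : ℝ, X1 ≤ X →
      (Chebyshev.psi (2 * X + 1) - Chebyshev.psi (X - 1)) / X ≤ 1 + ε := by
  obtain ⟨C, hC, h⟩ := rh_psi hRH (κ := 3 / 4) (by norm_num) (by norm_num)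
  constructor
  · refine ⟨3 + C * 3, by positivity, fun X hX => ?_⟩
    rw [div_le_iff₀ (by linarith)]
    have h1 := (abs_le.1 (h (2 * X + 1) (by linarith))).2
    have h2 : (2 * X + 1) ^ (3 / 4 : ℝ) ≤ 3 * X := by
      calc (2 * X + 1) ^ (3 / 4 : ℝ) ≤ (2 * X + 1) ^ (1 : ℝ) :=
            Real.rpow_le_rpow_of_exponent_le (by linarith) (by norm_num)
        _ = 2 * X + 1 := Real.rpow_one _
        _ ≤ 3 * X := by linarith
    have h3 := Chebyshev.psi_nonneg (X - 1)
    have h4 : C * (2 * X + 1) ^ (3 / 4 : ℝ) ≤ C * (3 * X) := by gcongr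
    nlinarith
  · intro ε hε
    have hlim : Tendsto (fun X : ℝ => 2 * X⁻¹ + 6 * C * X ^ (-(1 / 4) : ℝ)) atTop (𝓝 (2 * 0 + 6 * C * 0)) :=
      (tendsto_inv_atTop_zero.const_mul 2).add ((tendsto_rpow_neg_atTop (by norm_num : (0 : ℝ) < 1 / 4)).const_mul _)
    rw [mul_zero, mul_zero, add_zero] at hlim
    obtain ⟨X1, hX1⟩ := eventually_atTop.1 (hlim.eventually (gt_mem_nhds hε))
    refine ⟨max 2 X1, (by norm_num : (1 : ℝ) ≤ 2).trans (le_max_left _ _), fun X hX => ?_⟩
    have hX2 : 2 ≤ X := (le_max_left _ _).trans hX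
    have hX0 : 0 < X := by linarith
    have hs := hX1 X ((le_max_right _ _).trans hX)
    have h1 := (abs_le.1 (h (2 * X + 1) (by linarith))).2
    have h2 := (abs_le.1 (h (X - 1) (by linarith))).1
    have h3 : (2 * X + 1) ^ (3 / 4 : ℝ) ≤ 3 * X ^ (3 / 4 : ℝ) := by
      calc (2 * X + 1) ^ (3 / 4 : ℝ) ≤ (3 * X) ^ (3 / 4 : ℝ) :=
            Real.rpow_le_rpow (by linarith) (by linarith) (by norm_num)
        _ = 3 ^ (3 / 4 : ℝ) * X ^ (3 / 4 : ℝ) := Real.mul_rpow (by norm_num) hX0.le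
        _ ≤ 3 ^ (1 : ℝ) * X ^ (3 / 4 : ℝ) := by
            gcongr
            · norm_num
            · norm_num
        _ = 3 * X ^ (3 / 4 : ℝ) := by rw [Real.rpow_one]
    have h4 : (X - 1) ^ (3 / 4 : ℝ) ≤ X ^ (3 / 4 : ℝ) := Real.rpow_le_rpow (by linarith) (by linarith) (by norm_num)
    have h5 : X ^ (3 / 4 : ℝ) / X = X ^ (-(1 / 4) : ℝ) := by
      nth_rewrite 2 [← Real.rpow_one X]
      rw [← Real.rpow_sub hX0]
      norm_num
    have h6 : Chebyshev.psi (2 * X + 1) - Chebyshev.psi (X - 1) ≤ X + 2 + 6 * C * X ^ (3 / 4 : ℝ) := by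
      have k1 : C * (2 * X + 1) ^ (3 / 4 : ℝ) ≤ C * (3 * X ^ (3 / 4 : ℝ)) := by gcongr
      have k2 : C * (X - 1) ^ (3 / 4 : ℝ) ≤ C * X ^ (3 / 4 : ℝ) := by gcongr
      have k3 : 0 ≤ C * X ^ (3 / 4 : ℝ) := by positivity
      linarith
    calc (Chebyshev.psi (2 * X + 1) - Chebyshev.psi (X - 1)) / X ≤ (X + 2 + 6 * C * X ^ (3 / 4 : ℝ)) / X := by gcongr
      _ = 1 + (2 * X⁻¹ + 6 * C * (X ^ (3 / 4 : ℝ) / X)) := by field_simp; ring
      _ ≤ 1 + ε := by rw [h5]; linarith

/-- **short windows** -/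
theorem vv_primes (hRH : RiemannHypothesis) {ε : ℝ} (hε : 0 < ε) : ∃ T0 : ℝ, 16 ≤ T0 ∧ ∀ T α : ℝ, T0 ≤ T →
    0 ≤ α → α ≤ 1 → vv T α ≤ α + ε := by
  obtain ⟨⟨C, hC, hCh⟩, hpnt⟩ := psi_quot hRH
  obtain ⟨X1, hX1, hp⟩ := hpnt (ε / 2) (by linarith)
  obtain ⟨K, hK⟩ : ∃ K : ℝ, K = (2 * (1 + ε / 2) + 1) / (ε / 2) + ((Real.log X1 + 2) * C + 1) / ε + 1 := ⟨_, rfl⟩
  have hlX1 : 0 ≤ Real.log X1 := Real.log_nonneg hX1
  refine ⟨max 16 (Real.exp K), le_max_left _ _, fun T α hT hα0 hα1 => ?_⟩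
  have hT16 : 16 ≤ T := (le_max_left _ _).trans hT
  have hT0 : 0 < T := by linarith
  have hKL : K ≤ Real.log T := by rw [Real.le_log_iff_exp_le hT0]; exact (le_max_right _ _).trans hT
  obtain ⟨L, hL⟩ : ∃ L : ℝ, L = Real.log T := ⟨_, rfl⟩
  rw [← hL] at hKL
  have k1 : 0 < (2 * (1 + ε / 2) + 1) / (ε / 2) := by positivity
  have k2 : 0 < ((Real.log X1 + 2) * C + 1) / ε := by positivity
  have hL1 : 1 ≤ L := by linarith
  have hLa : (2 * (1 + ε / 2) + 1) ≤ ε / 2 * L := by
    have : (2 * (1 + ε / 2) + 1) / (ε / 2) ≤ L := by linarith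
    rw [div_le_iff₀ (by linarith)] at this
    linarith
  have hLb : (Real.log X1 + 2) * C + 1 ≤ ε * L := by
    have : ((Real.log X1 + 2) * C + 1) / ε ≤ L := by linarith
    rw [div_le_iff₀ hε] at this
    linarith
  obtain ⟨X, hX⟩ : ∃ X : ℝ, X = T ^ α := ⟨_, rfl⟩
  have hX1' : 1 ≤ X := by rw [hX]; exact Real.one_le_rpow (by linarith) hα0
  have hXT : X ≤ T := by
    rw [hX]
    calc T ^ α ≤ T ^ (1 : ℝ) := Real.rpow_le_rpow_of_exponent_le (by linarith) hα1
      _ = T := Real.rpow_one T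
  have hX0 : 0 < X := by linarith
  have hlogX : Real.log X = α * L := by rw [hX, Real.log_rpow hT0, hL]
  have hH : X / T ≤ 1 := by rw [div_le_one hT0]; exact hXT
  have hH0 : 0 < X / T := by positivity
  have hsmall : 1 / (2 * T) ≤ 1 / 2 := by
    rw [div_le_div_iff₀ (by positivity) (by norm_num)]
    linarith
  have hsmall0 : 0 < 1 / (2 * T) := by positivity
  -- the bound for the integral
  have hmain : ∫ w in (1 - 1 / (2 * T))..(2 - 1 / (2 * T)), Dd (X * w) (X / T) ^ 2 ≤
      Real.log (2 * X + 2) * ((X / T) / X * (Chebyshev.psi (2 * X + 1) - Chebyshev.psi (X - 1))) + (X / T) ^ 2 := by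
    have hm : Measurable fun w : ℝ => Dd (X * w) (X / T) ^ 2 := by
      unfold Dd
      refine (((psi_measurable.comp (by fun_prop : Measurable fun w : ℝ => X * w + X / T)).sub
        (psi_measurable.comp (by fun_prop : Measurable fun w : ℝ => X * w))).sub measurable_const).pow_const 2
    have hlog0 : 0 ≤ Real.log (2 * X + 2) := Real.log_nonneg (by linarith)
    have hpt : ∀ w ∈ Icc (1 - 1 / (2 * T)) (2 - 1 / (2 * T)), Dd (X * w) (X / T) ^ 2 ≤
        Real.log (2 * X + 2) * (Chebyshev.psi (X * w + X / T) - Chebyshev.psi (X * w)) + (X / T) ^ 2 := by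
      intro w hw
      have hw0 : 0 < w := by linarith [hw.1]
      have hw2 : w ≤ 2 := by linarith [hw.2]
      refine (Dd_sq_le (by positivity) hH0.le hH).trans ?_
      have h2 : 0 ≤ Chebyshev.psi (X * w + X / T) - Chebyshev.psi (X * w) := by
        have := Chebyshev.psi_mono (show X * w ≤ X * w + X / T by linarith)
        linarith
      have h3 : Real.log (X * w + X / T + 1) ≤ Real.log (2 * X + 2) := by
        apply Real.log_le_log (by positivity)
        nlinarith
      gcongr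
    have hi1 : IntervalIntegrable (fun w => Chebyshev.psi (X * w + X / T) - Chebyshev.psi (X * w)) volume
        (1 - 1 / (2 * T)) (2 - 1 / (2 * T)) := by
      have m1 : Monotone fun w => Chebyshev.psi (X * w + X / T) := fun x y hxy => Chebyshev.psi_mono (by nlinarith)
      have m2 : Monotone fun w => Chebyshev.psi (X * w) := fun x y hxy => Chebyshev.psi_mono (by nlinarith)
      exact m1.intervalIntegrable.sub m2.intervalIntegrable
    have hi2 : IntervalIntegrable (fun w => Real.log (2 * X + 2) *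
        (Chebyshev.psi (X * w + X / T) - Chebyshev.psi (X * w)) + (X / T) ^ 2) volume
        (1 - 1 / (2 * T)) (2 - 1 / (2 * T)) := (hi1.const_mul _).add (by simp)
    have hle : 1 - 1 / (2 * T) ≤ 2 - 1 / (2 * T) := by linarith
    have hi3 : IntervalIntegrable (fun w => Dd (X * w) (X / T) ^ 2) volume (1 - 1 / (2 * T)) (2 - 1 / (2 * T)) := by
      refine hi2.mono_fun hm.aestronglyMeasurable ?_
      rw [uIoc_of_le hle]
      refine (ae_restrict_iff' measurableSet_Ioc).2 (Filter.Eventually.of_forall fun w hw => ?_)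
      simp only
      rw [Real.norm_eq_abs, abs_of_nonneg (sq_nonneg _), Real.norm_eq_abs]
      exact (hpt w ⟨hw.1.le, hw.2⟩).trans (le_abs_self _)
    refine (intervalIntegral.integral_mono_on hle hi3 hi2 hpt).trans ?_
    rw [intervalIntegral.integral_add (hi1.const_mul _) (by simp), intervalIntegral.integral_const_mul,
      intervalIntegral.integral_const, smul_eq_mul]
    have h5 := psi_tele (X := X) (a := 1 - 1 / (2 * T)) (b := 2 - 1 / (2 * T)) (h := X / T) hX0 hH0.le
    have h6 : X * (2 - 1 / (2 * T)) + X / T ≤ 2 * X + 1 := by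
      have : X * (2 - 1 / (2 * T)) + X / T = 2 * X + X / T / 2 := by field_simp; ring
      rw [this]
      linarith
    have h7 : X - 1 ≤ X * (1 - 1 / (2 * T)) := by
      have : X * (1 - 1 / (2 * T)) = X - X / T / 2 := by field_simp
      rw [this]
      linarith
    have h8 := Chebyshev.psi_mono h6
    have h9 := Chebyshev.psi_mono h7
    have h10 : X / T / X * (Chebyshev.psi (X * (2 - 1 / (2 * T)) + X / T) - Chebyshev.psi (X * (1 - 1 / (2 * T)))) ≤
        X / T / X * (Chebyshev.psi (2 * X + 1) - Chebyshev.psi (X - 1)) := by gcongr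
    have h11 := mul_le_mul_of_nonneg_left (h5.trans h10) hlog0
    have h12 : (2 - 1 / (2 * T) - (1 - 1 / (2 * T))) * (X / T) ^ 2 = (X / T) ^ 2 := by ring
    rw [h12]
    linarith
  obtain ⟨Q, hQ⟩ : ∃ Q : ℝ, Q = (Chebyshev.psi (2 * X + 1) - Chebyshev.psi (X - 1)) / X := ⟨_, rfl⟩
  have hQ0 : 0 ≤ Q := by
    rw [hQ]
    have := Chebyshev.psi_mono (show X - 1 ≤ 2 * X + 1 by linarith)
    apply div_nonneg _ hX0.le
    linarith
  have hvv : vv T α ≤ (α * L + 2) * Q / L + 1 / L := by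
    rw [vv_eq (by linarith), ← hX, ← hL]
    calc T / (X * L) * ∫ w in (1 - 1 / (2 * T))..(2 - 1 / (2 * T)), Dd (X * w) (X / T) ^ 2 ≤
          T / (X * L) * (Real.log (2 * X + 2) * ((X / T) / X * (Chebyshev.psi (2 * X + 1) - Chebyshev.psi (X - 1))) +
            (X / T) ^ 2) := by gcongr
      _ = Real.log (2 * X + 2) * Q / L + (X / T) / L := by
          rw [hQ]
          field_simp
      _ ≤ (α * L + 2) * Q / L + 1 / L := by
          have h1 : Real.log (2 * X + 2) ≤ α * L + 2 := by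
            have h2 : Real.log (2 * X + 2) ≤ Real.log (4 * X) := Real.log_le_log (by linarith) (by linarith)
            rw [Real.log_mul (by norm_num) hX0.ne', hlogX] at h2
            have h8 : Real.log 4 = 2 * Real.log 2 := by
              rw [show (4 : ℝ) = 2 ^ 2 by norm_num, Real.log_pow]
              norm_num
            have h6 := Real.log_two_lt_d9
            linarith
          gcongr
  refine hvv.trans ?_
  have hL0 : 0 < L := by linarith
  rw [← add_div, div_le_iff₀ hL0]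
  by_cases hcase : X1 ≤ X
  · have hq := hp X hcase
    rw [← hQ] at hq
    have h1 : (α * L + 2) * Q ≤ (α * L + 2) * (1 + ε / 2) := by gcongr
    nlinarith [mul_nonneg hα0 hL0.le]
  · push Not at hcase
    have hq := hCh X hX1'
    rw [← hQ] at hq
    have h1 : α * L ≤ Real.log X1 := by
      rw [← hlogX]
      exact Real.log_le_log hX0 hcase.le
    have h2 : (α * L + 2) * Q ≤ (Real.log X1 + 2) * C := by
      have : 0 ≤ α * L := by positivity
      gcongr
    have h3 : 0 ≤ α * L := by positivity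
    nlinarith

end Pool.Agent.U507.GM
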