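import Pool.Agent.U507.GM.VA
import Pool.Agent.R303.SW.Inst

/-!
# The upper bound implies the Riemann hypothesis
-/

set_option autoImplicit false

open Complex Filter Topology Set MeasureTheory Metric
open scoped Real

namespace Pool.Agent.U507.GM

lemma Dd_abs_le {x h : ℝ} (hh : 0 ≤ h) {M : ℝ} (hM : x + h ≤ M) : |Dd x h| ≤ Chebyshev.psi M + h := by
  have h1 := Chebyshev.psi_mono hM
  have h2 := Chebyshev.psi_mono (show x ≤ x + h by linarith)
  have h3 := Chebyshev.psi_nonneg x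
  have h4 := Chebyshev.psi_nonneg M
  unfold Dd
  rw [abs_le]
  constructor <;> linarith

lemma Dd_sq_ii (h a b : ℝ) : IntervalIntegrable (fun y => Dd y h ^ 2) volume a b := by
  have hm : Measurable fun y => Dd y h ^ 2 := by
    unfold Dd
    exact (((psi_measurable.comp (by fun_prop : Measurable fun y : ℝ => y + h)).sub psi_measurable).sub
      measurable_const).pow_const 2
  rw [intervalIntegrable_iff]
  refine Measure.integrableOn_of_bounded (M := (Chebyshev.psi (max a b + |h|) + |h|) ^ 2) (by simp)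
    hm.aestronglyMeasurable ?_
  refine (ae_restrict_iff' measurableSet_uIoc).2 (Filter.Eventually.of_forall fun y hy => ?_)
  rw [Real.norm_eq_abs, abs_of_nonneg (sq_nonneg _), ← sq_abs]
  refine pow_le_pow_left₀ (abs_nonneg _) ?_ 2
  have hy2 : y ≤ max a b := (mem_uIoc.1 hy).elim (fun h => h.2.trans (le_max_right _ _)) fun h => h.2.trans (le_max_left _ _)
  have h1 := Chebyshev.psi_mono (show y + h ≤ max a b + |h| by linarith [le_abs_self h])
  have h2 := Chebyshev.psi_mono (show y ≤ max a b + |h| by linarith [abs_nonneg h])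
  have h3 := Chebyshev.psi_nonneg y
  have h4 := Chebyshev.psi_nonneg (y + h)
  have h5 := abs_nonneg h
  have h6 := le_abs_self h
  have h7 := neg_abs_le h
  unfold Dd
  rw [abs_le]
  constructor <;> linarith

lemma vv_bdd {T B : ℝ} (hT : 16 ≤ T) : ∃ M : ℝ, ∀ α : ℝ, 0 ≤ α → α ≤ B → vv T α ≤ M := by
  have hT0 : 0 < T := by linarith
  have hlog : 0 < Real.log T := Real.log_pos (by linarith)
  refine ⟨T / Real.log T * (Chebyshev.psi (3 * T ^ B) + T ^ B) ^ 2, fun α h0 h1 => ?_⟩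
  obtain ⟨X, hX⟩ : ∃ X : ℝ, X = T ^ α := ⟨_, rfl⟩
  have hX1 : 1 ≤ X := by rw [hX]; exact Real.one_le_rpow (by linarith) h0
  have hXB : X ≤ T ^ B := by rw [hX]; exact Real.rpow_le_rpow_of_exponent_le (by linarith) h1
  have hXT : X / T ≤ X := div_le_self (by linarith) (by linarith)
  have hXT0 : 0 ≤ X / T := by positivity
  have hsmall : 1 / (2 * T) ≤ 1 / 2 := by
    rw [div_le_div_iff₀ (by positivity) (by norm_num)]
    linarith
  have hsmall0 : 0 < 1 / (2 * T) := by positivity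
  rw [vv_eq (by linarith), ← hX]
  have h2 := intervalIntegral.norm_integral_le_of_norm_le_const (a := 1 - 1 / (2 * T)) (b := 2 - 1 / (2 * T))
    (f := fun w => Dd (X * w) (X / T) ^ 2) (C := (Chebyshev.psi (3 * T ^ B) + T ^ B) ^ 2) (fun w hw => by
      rw [uIoc_of_le (by linarith)] at hw
      rw [Real.norm_eq_abs, abs_of_nonneg (sq_nonneg _), ← sq_abs]
      refine pow_le_pow_left₀ (abs_nonneg _) ?_ 2
      have hw2 : w ≤ 2 := by linarith [hw.2]
      have := Dd_abs_le (x := X * w) hXT0 (M := 3 * T ^ B) (by nlinarith)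
      linarith)
  rw [Real.norm_eq_abs, show 2 - 1 / (2 * T) - (1 - 1 / (2 * T)) = 1 by ring, abs_one, mul_one] at h2
  have h3 := (le_abs_self _).trans h2
  have h4 : T / (X * Real.log T) ≤ T / Real.log T := by
    apply div_le_div_of_nonneg_left hT0.le hlog
    nlinarith
  have h5 : 0 ≤ ∫ w in (1 - 1 / (2 * T))..(2 - 1 / (2 * T)), Dd (X * w) (X / T) ^ 2 :=
    intervalIntegral.integral_nonneg (by linarith) fun w _ => sq_nonneg _
  calc T / (X * Real.log T) * ∫ w in (1 - 1 / (2 * T))..(2 - 1 / (2 * T)), Dd (X * w) (X / T) ^ 2 ≤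
        T / Real.log T * ∫ w in (1 - 1 / (2 * T))..(2 - 1 / (2 * T)), Dd (X * w) (X / T) ^ 2 := by gcongr
    _ ≤ _ := by gcongr

lemma vv_ii {T a b : ℝ} (hT : 16 ≤ T) (ha : 0 ≤ a) (hb : 0 ≤ b) : IntervalIntegrable (vv T) volume a b := by
  obtain ⟨M, hM⟩ := vv_bdd (B := max a b) hT
  rw [intervalIntegrable_iff]
  refine Measure.integrableOn_of_bounded (M := M) (by simp) (vv_meas (by linarith)).aestronglyMeasurable ?_
  refine (ae_restrict_iff' measurableSet_uIoc).2 (Filter.Eventually.of_forall fun y hy => ?_)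
  rw [Real.norm_eq_abs, abs_of_nonneg (vv_nonneg (by linarith) _)]
  refine hM y ?_ ?_
  · exact (mem_uIoc.1 hy).elim (fun h => ha.trans h.1.le) fun h => hb.trans h.1.le
  · exact (mem_uIoc.1 hy).elim (fun h => h.2.trans (le_max_right _ _)) fun h => h.2.trans (le_max_left _ _)

/-- large variance from a zero off the line -/
lemma vv_large {θ A : ℝ} (hθ : 1 / 2 < θ) (hz : ∃ s : ℂ, riemannZeta s = 0 ∧ θ < s.re) (hA : 1 ≤ A) :
    ∃ T1 : ℝ, 16 ≤ T1 ∧ ∀ T α : ℝ, T1 ≤ T → 1 ≤ α → 2 / (2 * θ - 1) ≤ α → α ≤ A → √T ≤ vv T α := by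
  have he0 : 0 < 1 / A := by positivity
  have hps := Pool.Agent.R303.SW.psi_short (κ := 0) (c := 1 / 2) (e0 := 1 / A) le_rfl (by norm_num)
    (θ := θ) hθ.le (by nlinarith [sq_nonneg (2 * θ - 1)]) hz he0
  obtain ⟨X0, hX0⟩ := eventually_atTop.1 hps
  refine ⟨max 16 X0, le_max_left _ _, fun T α hT hα1 hα hαA => ?_⟩
  have hT16 : 16 ≤ T := (le_max_left _ _).trans hT
  have hTX : X0 ≤ T := (le_max_right _ _).trans hT
  have hT0 : 0 < T := by linarith
  have hlog : 0 < Real.log T := Real.log_pos (by linarith)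
  obtain ⟨X, hX⟩ : ∃ X : ℝ, X = T ^ α := ⟨_, rfl⟩
  have hXT : T ≤ X := by
    rw [hX]
    calc T = T ^ (1 : ℝ) := (Real.rpow_one T).symm
      _ ≤ T ^ α := Real.rpow_le_rpow_of_exponent_le (by linarith) hα1
  have hXp : 0 < X := by linarith
  obtain ⟨H, hH⟩ : ∃ H : ℝ, H = X / T := ⟨_, rfl⟩
  have hHp : 0 < H := by rw [hH]; positivity
  have hHX : H ≤ X ^ (1 - 1 / A) := by
    rw [hH, Real.rpow_sub hXp, Real.rpow_one]
    apply div_le_div_of_nonneg_left hXp.le (Real.rpow_pos_of_pos hXp _)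
    rw [hX, ← Real.rpow_mul hT0.le]
    calc T ^ (α * (1 / A)) ≤ T ^ (1 : ℝ) := by
          apply Real.rpow_le_rpow_of_exponent_le (by linarith)
          rw [mul_one_div, div_le_one (by linarith)]
          exact hαA
      _ = T := Real.rpow_one T
  have h1 := hX0 X (hTX.trans hXT) H hHp hHX
  rw [Real.rpow_zero, div_one] at h1
  have h1' : H * X ^ θ ≤ ∫ y in X..(X + 1 / 2 * X), |Dd y H| := h1
  obtain ⟨lam, hlam⟩ : ∃ lam : ℝ, lam = 2 * H * X ^ (θ - 1) := ⟨_, rfl⟩
  have hXθ : X ^ (θ - 1) * X = X ^ θ := by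
    nth_rewrite 2 [← Real.rpow_one X]
    rw [← Real.rpow_add hXp]
    congr 1
    ring
  have hXθ0 : 0 < X ^ (θ - 1) := Real.rpow_pos_of_pos hXp _
  have hlam0 : 0 < lam := by rw [hlam]; positivity
  have hle : X ≤ X + 1 / 2 * X := by linarith
  have hii2 := Dd_sq_ii H X (X + 1 / 2 * X)
  have hii1 : IntervalIntegrable (fun y => |Dd y H|) volume X (X + 1 / 2 * X) := by
    have hm : Measurable fun y => Dd y H := by
      unfold Dd
      exact ((psi_measurable.comp (by fun_prop : Measurable fun y : ℝ => y + H)).sub psi_measurable).sub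
        measurable_const
    have hi3 : IntervalIntegrable (fun y => 1 + Dd y H ^ 2) volume X (X + 1 / 2 * X) := (by simp : IntervalIntegrable
      (fun _ => (1 : ℝ)) volume X (X + 1 / 2 * X)).add hii2
    refine hi3.mono_fun hm.norm.aestronglyMeasurable (Filter.Eventually.of_forall fun y => ?_)
    simp only
    rw [Real.norm_eq_abs, abs_abs, Real.norm_eq_abs, abs_of_nonneg (show (0 : ℝ) ≤ 1 + Dd y H ^ 2 by positivity)]
    nlinarith [sq_abs (Dd y H), abs_nonneg (Dd y H), sq_nonneg (|Dd y H| - 1)]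
  have h2 : ∫ y in X..(X + 1 / 2 * X), |Dd y H| ≤ ∫ y in X..(X + 1 / 2 * X), (lam / 2 + 1 / (2 * lam) * Dd y H ^ 2) := by
    refine intervalIntegral.integral_mono_on hle hii1 ((by simp : IntervalIntegrable
      (fun _ => lam / 2) volume X (X + 1 / 2 * X)).add (hii2.const_mul _)) fun y _ => ?_
    have h3 : 0 ≤ 1 / (2 * lam) * (|Dd y H| - lam) ^ 2 := by positivity
    have e : 1 / (2 * lam) * (|Dd y H| - lam) ^ 2 = 1 / (2 * lam) * |Dd y H| ^ 2 - |Dd y H| + lam / 2 := by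
      field_simp
      ring
    rw [e, sq_abs] at h3
    linarith
  rw [intervalIntegral.integral_add (by simp) (hii2.const_mul _), intervalIntegral.integral_const_mul,
    intervalIntegral.integral_const, smul_eq_mul] at h2
  have e2 : (X + 1 / 2 * X - X) * (lam / 2) = H * X ^ θ / 2 := by
    rw [hlam, ← hXθ]
    ring
  rw [e2] at h2
  have h4 : lam * (H * X ^ θ) ≤ ∫ y in X..(X + 1 / 2 * X), Dd y H ^ 2 := by
    have h5 : H * X ^ θ / 2 ≤ 1 / (2 * lam) * ∫ y in X..(X + 1 / 2 * X), Dd y H ^ 2 := by linarith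
    rw [div_mul_eq_mul_div, one_mul, le_div_iff₀ (by positivity)] at h5
    linarith
  -- back to `vv`
  have hsmall : 1 / (2 * T) ≤ 1 / 2 := by
    rw [div_le_div_iff₀ (by positivity) (by norm_num)]
    linarith
  have hsmall0 : 0 < 1 / (2 * T) := by positivity
  have e5 : ∫ w in (1 - 1 / (2 * T))..(2 - 1 / (2 * T)), Dd (X * w) H ^ 2 =
      X⁻¹ * ∫ y in (X * (1 - 1 / (2 * T)))..(X * (2 - 1 / (2 * T))), Dd y H ^ 2 := by
    rw [intervalIntegral.integral_comp_mul_left (fun y => Dd y H ^ 2) hXp.ne', smul_eq_mul]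
  have h6 : ∫ y in X..(X + 1 / 2 * X), Dd y H ^ 2 ≤
      ∫ y in (X * (1 - 1 / (2 * T)))..(X * (2 - 1 / (2 * T))), Dd y H ^ 2 := by
    apply intervalIntegral.integral_mono_interval (by nlinarith) hle (by nlinarith)
      (Filter.Eventually.of_forall fun y => sq_nonneg _) (Dd_sq_ii _ _ _)
  have h7 : lam * (H * X ^ θ) = 2 * H ^ 2 * X ^ (2 * θ - 1) := by
    have : X ^ (2 * θ - 1) = X ^ (θ - 1) * X ^ θ := by
      rw [← Real.rpow_add hXp]
      congr 1
      ring
    rw [this, hlam]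
    ring
  have h8 : T ^ (2 : ℝ) ≤ X ^ (2 * θ - 1) := by
    rw [hX, ← Real.rpow_mul hT0.le]
    apply Real.rpow_le_rpow_of_exponent_le (by linarith)
    rw [div_le_iff₀ (by linarith)] at hα
    exact hα
  rw [Real.rpow_two] at h8
  have h9 : 2 * T / Real.log T ≤ vv T α := by
    rw [vv_eq (by linarith), ← hX, ← hH, e5]
    calc 2 * T / Real.log T = T / (X * Real.log T) * (X⁻¹ * (2 * H ^ 2 * T ^ 2)) := by
          rw [hH]
          field_simp
      _ ≤ T / (X * Real.log T) * (X⁻¹ * ∫ y in (X * (1 - 1 / (2 * T)))..(X * (2 - 1 / (2 * T))), Dd y H ^ 2) := by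
          gcongr
          refine le_trans ?_ (h4.trans h6)
          rw [h7]
          gcongr
  refine le_trans ?_ h9
  have hs0 : 0 < √T := Real.sqrt_pos.2 hT0
  have hlT : Real.log T ≤ 2 * √T := by
    have h10 : Real.log T = 2 * Real.log √T := by
      rw [Real.log_sqrt hT0.le]
      ring
    have h11 := Real.log_le_sub_one_of_pos hs0
    linarith
  rw [le_div_iff₀ hlog]
  calc √T * Real.log T ≤ √T * (2 * √T) := by gcongr
    _ = 2 * T := by
        have := Real.mul_self_sqrt hT0.le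
        linarith

/-- **the upper bound implies the Riemann hypothesis** -/
theorem rh_of_up {l : Filter ℝ} [NeBot l] (hl : l ≤ atTop) {ℓ : ℝ} (hℓ : 0 < ℓ)
    (h : ∀ a : ℝ, 1 ≤ a → ∃ K : ℝ, ∀ᶠ T in l, ∫ α in a..(a + ℓ), vv T α ≤ K) :
    RiemannHypothesis := by
  by_contra hcon
  rw [Pool.Agent.W190.rh_free] at hcon
  push Not at hcon
  obtain ⟨s, hs1, hs0⟩ := hcon
  have hs2 : s.re < 1 := by
    by_contra h1
    exact riemannZeta_ne_zero_of_one_le_re (not_lt.1 h1) hs0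
  obtain ⟨θ, hθ⟩ : ∃ θ : ℝ, θ = (1 / 2 + s.re) / 2 := ⟨_, rfl⟩
  have hθ1 : 1 / 2 < θ := by rw [hθ]; linarith
  have hθ2 : θ < s.re := by rw [hθ]; linarith
  have hθ3 : 0 < 2 * θ - 1 := by linarith
  obtain ⟨a, ha⟩ : ∃ a : ℝ, a = 2 / (2 * θ - 1) := ⟨_, rfl⟩
  have ha2 : 2 ≤ a := by
    rw [ha, le_div_iff₀ hθ3]
    linarith
  obtain ⟨T1, hT1, hlarge⟩ := vv_large (A := a + ℓ) hθ1 ⟨s, hs0, hθ2⟩ (by linarith)
  obtain ⟨K, h1⟩ := h a (by linarith)
  have h2 : ∀ᶠ T in l, max T1 (((|K| + 1) / ℓ) ^ 2) ≤ T := hl (eventually_ge_atTop _)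
  obtain ⟨T, h3, h4⟩ := (h1.and h2).exists
  have hT1' : T1 ≤ T := (le_max_left _ _).trans h4
  have hT2 : ((|K| + 1) / ℓ) ^ 2 ≤ T := (le_max_right _ _).trans h4
  have hsq : (|K| + 1) / ℓ ≤ √T := Real.le_sqrt_of_sq_le hT2
  have h5 : ∫ α in a..(a + ℓ), √T ≤ ∫ α in a..(a + ℓ), vv T α := by
    refine intervalIntegral.integral_mono_on (by linarith) (by simp)
      (vv_ii (hT1.trans hT1') (by linarith) (by linarith)) fun α hα => ?_
    exact hlarge T α hT1' (by linarith [hα.1]) (by rw [← ha]; exact hα.1) hα.2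
  rw [intervalIntegral.integral_const, smul_eq_mul] at h5
  rw [div_le_iff₀ hℓ] at hsq
  have := le_abs_self K
  nlinarith

end Pool.Agent.U507.GM
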