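import Pool.Agent.U507.GM.VG

/-!
# Rigidity along a filter
-/

set_option autoImplicit false

open Filter Topology Set MeasureTheory

namespace Pool.Agent.U507.GM

section

variable {l : Filter ℝ} {V : ℝ → ℝ → ℝ} {ℓ : ℝ}

/-- one step -/
lemma step_low (hℓ : 0 < ℓ)
    (hm : ∀ᶠ T in l, Measurable (V T) ∧ (∀ α, 0 ≤ V T α) ∧ LI (V T))
    (hpr : ∀ ε : ℝ, 0 < ε → ∀ᶠ T in l, ∀ α : ℝ, 0 ≤ α → α ≤ 1 → V T α ≤ α + ε)
    (hwin : ∀ a : ℝ, 0 < a → 1 < a + ℓ → ∀ ε : ℝ, 0 < ε →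
      ∀ᶠ T in l, ∫ α in a..(a + ℓ), V T α ≤ (∫ α in a..(a + ℓ), min α 1) + ε)
    {a : ℝ} (ha0 : 0 < a) {ε : ℝ} (hε : 0 < ε) : ∀ᶠ T in l, Df (V T) a - ε ≤ Df (V T) (a + ℓ) := by
  have ha := ha0.le
  by_cases h1 : a + ℓ ≤ 1
  · filter_upwards [hm, hpr ε hε] with T hT hp
    obtain ⟨-, -, hLI⟩ := hT
    have h2 := mp_sub a (a + ℓ)
    have h3 := Ph_sub hLI ha (by linarith : 0 ≤ a + ℓ)
    have h4 : ∫ α in a..(a + ℓ), V T α ≤ ∫ α in a..(a + ℓ), (min α 1 + ε) := by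
      refine intervalIntegral.integral_mono_on (by linarith) (hLI _ _ ha (by linarith))
        ((min_cont.intervalIntegrable _ _).add (by simp)) fun α hα => ?_
      rw [min_eq_left (by linarith [hα.2])]
      exact hp α (ha.trans hα.1) (by linarith [hα.2])
    rw [intervalIntegral.integral_add (min_cont.intervalIntegrable _ _) (by simp),
      intervalIntegral.integral_const, smul_eq_mul] at h4
    unfold Df
    have hℓ1 : ℓ ≤ 1 := by linarith
    have : (a + ℓ - a) * ε ≤ ε := by nlinarith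
    linarith
  · filter_upwards [hm, hwin a ha0 (by linarith) ε hε] with T hT hw
    obtain ⟨-, -, hLI⟩ := hT
    have h2 := mp_sub a (a + ℓ)
    have h3 := Ph_sub hLI ha (by linarith : 0 ≤ a + ℓ)
    unfold Df
    linarith

lemma low_pt (hℓ : 0 < ℓ) (hini : ∀ b : ℝ, 1 < b → b ≤ ℓ → ∀ ε : ℝ, 0 < ε → ∀ᶠ T in l, Ph (V T) b ≤ mp b + ε)
    (hm : ∀ᶠ T in l, Measurable (V T) ∧ (∀ α, 0 ≤ V T α) ∧ LI (V T))
    (hpr : ∀ ε : ℝ, 0 < ε → ∀ᶠ T in l, ∀ α : ℝ, 0 ≤ α → α ≤ 1 → V T α ≤ α + ε)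
    (hwin : ∀ a : ℝ, 0 < a → 1 < a + ℓ → ∀ ε : ℝ, 0 < ε →
      ∀ᶠ T in l, ∫ α in a..(a + ℓ), V T α ≤ (∫ α in a..(a + ℓ), min α 1) + ε)
    {b : ℝ} (hb : 0 ≤ b) {ε : ℝ} (hε : 0 < ε) : ∀ᶠ T in l, -ε ≤ Df (V T) b := by
  have key : ∀ n : ℕ, ∀ b : ℝ, 0 ≤ b → b ≤ max 1 ℓ + n * ℓ → ∀ ε : ℝ, 0 < ε → ∀ᶠ T in l, -ε ≤ Df (V T) b := by
    intro n
    induction n with
    | zero =>
      intro b hb hb1 ε hε
      have hb2 : b ≤ max 1 ℓ := by simpa using hb1
      by_cases hb1' : 1 < b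
      · have hbℓ : b ≤ ℓ := by
          rcases le_max_iff.1 hb2 with h | h
          · linarith
          · exact h
        filter_upwards [hini b hb1' hbℓ ε hε] with T h1
        unfold Df
        linarith
      push Not at hb1'
      filter_upwards [hm, hpr ε hε] with T hT hp
      obtain ⟨-, -, hLI⟩ := hT
      have h4 : ∫ α in (0 : ℝ)..b, V T α ≤ ∫ α in (0 : ℝ)..b, (min α 1 + ε) := by
        refine intervalIntegral.integral_mono_on hb (hLI _ _ le_rfl hb)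
          ((min_cont.intervalIntegrable _ _).add (by simp)) fun α hα => ?_
        rw [min_eq_left (by linarith [hα.2])]
        exact hp α hα.1 (by linarith [hα.2])
      rw [intervalIntegral.integral_add (min_cont.intervalIntegrable _ _) (by simp),
        intervalIntegral.integral_const, smul_eq_mul] at h4
      unfold Df Ph mp
      have : (b - 0) * ε ≤ ε := by nlinarith
      linarith
    | succ n ih =>
      intro b hb hb1 ε hε
      by_cases h1 : b ≤ max 1 ℓ + n * ℓ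
      · exact ih b hb h1 ε hε
      · push Not at h1
        have hn : 0 ≤ (n : ℝ) * ℓ := by positivity
        have hmx := le_max_right (1 : ℝ) ℓ
        have hb2 : 0 < b - ℓ := by linarith
        have hb3 : b - ℓ ≤ max 1 ℓ + n * ℓ := by
          push_cast at hb1
          linarith
        filter_upwards [ih (b - ℓ) hb2.le hb3 (ε / 2) (by linarith),
          step_low hℓ hm hpr hwin hb2 (ε := ε / 2) (by linarith)] with T h2 h3
        rw [sub_add_cancel] at h3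
        linarith
  obtain ⟨n, hn⟩ := exists_nat_gt (b / ℓ)
  rw [div_lt_iff₀ hℓ] at hn
  exact key n b hb (by linarith [le_max_left (1 : ℝ) ℓ]) ε hε

lemma low_unif (hℓ : 0 < ℓ) (hini : ∀ b : ℝ, 1 < b → b ≤ ℓ → ∀ ε : ℝ, 0 < ε → ∀ᶠ T in l, Ph (V T) b ≤ mp b + ε)
    (hm : ∀ᶠ T in l, Measurable (V T) ∧ (∀ α, 0 ≤ V T α) ∧ LI (V T))
    (hpr : ∀ ε : ℝ, 0 < ε → ∀ᶠ T in l, ∀ α : ℝ, 0 ≤ α → α ≤ 1 → V T α ≤ α + ε)
    (hwin : ∀ a : ℝ, 0 < a → 1 < a + ℓ → ∀ ε : ℝ, 0 < ε →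
      ∀ᶠ T in l, ∫ α in a..(a + ℓ), V T α ≤ (∫ α in a..(a + ℓ), min α 1) + ε)
    (B : ℝ) {ε : ℝ} (hε : 0 < ε) : ∀ᶠ T in l, ∀ b ∈ Icc 0 B, -ε ≤ Df (V T) b := by
  obtain ⟨N, hN⟩ : ∃ N : ℕ, N = ⌈B / (ε / 2)⌉₊ := ⟨_, rfl⟩
  have hall : ∀ᶠ T in l, ∀ i ∈ Finset.range (N + 1), -(ε / 2) ≤ Df (V T) (i * (ε / 2)) := by
    rw [Filter.eventually_all_finset]
    intro i _
    exact low_pt hℓ hini hm hpr hwin (by positivity) (by linarith)
  filter_upwards [hm, hall] with T hT h b hb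
  obtain ⟨-, h0, hLI⟩ := hT
  have hε2 : 0 < ε / 2 := by linarith
  obtain ⟨i, hi⟩ : ∃ i : ℕ, i = ⌈b / (ε / 2)⌉₊ := ⟨_, rfl⟩
  have hiN : i ≤ N := by
    rw [hi, hN]
    exact Nat.ceil_le_ceil (by gcongr; exact hb.2)
  have h1 := h i (Finset.mem_range.2 (by omega))
  have h2 : b ≤ i * (ε / 2) := by
    have := Nat.le_ceil (b / (ε / 2))
    rw [← hi, div_le_iff₀ hε2] at this
    exact this
  have h3 : i * (ε / 2) ≤ b + ε / 2 := by
    have := Nat.ceil_lt_add_one (show 0 ≤ b / (ε / 2) from div_nonneg hb.1 hε2.le)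
    rw [← hi] at this
    have h4 : (i : ℝ) * (ε / 2) ≤ (b / (ε / 2) + 1) * (ε / 2) := by gcongr
    have h5 : (b / (ε / 2) + 1) * (ε / 2) = b + ε / 2 := by field_simp
    linarith
  have h4 := Df_slope hLI h0 hb.1 h2
  linarith

/-- **rigidity** -/
theorem rigid (hℓ : 0 < ℓ) (hini : ∀ b : ℝ, 1 < b → b ≤ ℓ → ∀ ε : ℝ, 0 < ε → ∀ᶠ T in l, Ph (V T) b ≤ mp b + ε)
    (hm : ∀ᶠ T in l, Measurable (V T) ∧ (∀ α, 0 ≤ V T α) ∧ LI (V T))
    (hup : ∀ c : ℝ, 0 < c → c ≤ 1 → ∃ C : ℝ, ∀ᶠ T in l,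
      IntegrableOn (fun α => Real.exp (-c * α) * V T α) (Ioi 0) ∧ ∫ α in Ioi 0, Real.exp (-c * α) * V T α ≤ C)
    (hlow : ∀ c : ℝ, 0 < c → c ≤ 1 → ∀ ε : ℝ, 0 < ε → ∀ᶠ T in l,
      1 / c - 1 / 2 - ε ≤ ∫ α in Ioi 0, Real.exp (-c * α) * V T α)
    (hpr : ∀ ε : ℝ, 0 < ε → ∀ᶠ T in l, ∀ α : ℝ, 0 ≤ α → α ≤ 1 → V T α ≤ α + ε)
    (hwin : ∀ a : ℝ, 0 < a → 1 < a + ℓ → ∀ ε : ℝ, 0 < ε →
      ∀ᶠ T in l, ∫ α in a..(a + ℓ), V T α ≤ (∫ α in a..(a + ℓ), min α 1) + ε)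
    {b : ℝ} (hb : 0 ≤ b) : Tendsto (fun T => Ph (V T) b) l (𝓝 (mp b)) := by
  rcases hb.eq_or_lt with hb0 | hbp
  · rw [← hb0, mp_zero]
    have : (fun T => Ph (V T) 0) = fun _ => 0 := by
      funext T
      unfold Ph
      simp
    rw [this]
    exact tendsto_const_nhds
  -- the upper bound for the difference
  have hupper : ∀ d : ℝ, 0 < d → ∀ᶠ T in l, Df (V T) b ≤ d := by
    intro d' hd'
    obtain ⟨d, hdd⟩ : ∃ d : ℝ, d = min d' ℓ := ⟨_, rfl⟩
    have hd : 0 < d := by rw [hdd]; exact lt_min hd' hℓ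
    have hdℓ : d ≤ ℓ := by rw [hdd]; exact min_le_right _ _
    have hdd' : d ≤ d' := by rw [hdd]; exact min_le_left _ _
    obtain ⟨κ, hκ⟩ : ∃ κ : ℝ, κ = Real.exp (-2) * d ^ 2 / (64 * ℓ) := ⟨_, rfl⟩
    have hκ0 : 0 < κ := by rw [hκ]; positivity
    obtain ⟨c, hc⟩ : ∃ c : ℝ, c = min 1 (min (1 / (b + ℓ)) κ) := ⟨_, rfl⟩
    have hc0 : 0 < c := by
      rw [hc]
      exact lt_min one_pos (lt_min (by positivity) hκ0)
    have hc1 : c ≤ 1 := by rw [hc]; exact min_le_left _ _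
    have hcb : c * (b + ℓ) ≤ 1 := by
      have h1 : c ≤ 1 / (b + ℓ) := by rw [hc]; exact (min_le_right _ _).trans (min_le_left _ _)
      rw [le_div_iff₀ (by linarith)] at h1
      exact h1
    have hcκ : c ≤ κ := by rw [hc]; exact (min_le_right _ _).trans (min_le_right _ _)
    obtain ⟨J, hJ⟩ : ∃ J : ℕ, J = ⌈1 / (c * ℓ)⌉₊ := ⟨_, rfl⟩
    have hJ1 : 1 / (c * ℓ) ≤ J := by rw [hJ]; exact Nat.le_ceil _
    have hJ2 : (J : ℝ) ≤ 1 / (c * ℓ) + 1 := by
      rw [hJ]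
      exact (Nat.ceil_lt_add_one (by positivity)).le
    have hJℓ : c * (J * ℓ) ≤ 1 + c * ℓ := by
      calc c * (J * ℓ) ≤ c * ((1 / (c * ℓ) + 1) * ℓ) := by gcongr
        _ = 1 + c * ℓ := by field_simp
    have hcJ : 1 / ℓ ≤ c * J := by
      calc 1 / ℓ = c * (1 / (c * ℓ)) := by field_simp
        _ ≤ c * J := by gcongr
    obtain ⟨C, hC⟩ := hup (c / 2) (by linarith) (by linarith)
    obtain ⟨C', hC'⟩ := hup c hc0 hc1
    obtain ⟨B, hB⟩ : ∃ B : ℝ, B = max (b + J * ℓ) (2 / c * (4 * |C| / κ)) := ⟨_, rfl⟩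
    have hB1 : b + J * ℓ ≤ B := by rw [hB]; exact le_max_left _ _
    have hB2 : 2 / c * (4 * |C| / κ) ≤ B := by rw [hB]; exact le_max_right _ _
    have htail : 2 * C * Real.exp (-(c / 2) * B) ≤ κ / 2 := by
      have h1 : 4 * |C| / κ ≤ c / 2 * B := by
        calc 4 * |C| / κ = c / 2 * (2 / c * (4 * |C| / κ)) := by field_simp
          _ ≤ c / 2 * B := by gcongr
      have h2 : c / 2 * B ≤ Real.exp (c / 2 * B) := by
        have := Real.add_one_le_exp (c / 2 * B)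
        linarith
      have h3 : 4 * |C| ≤ κ * Real.exp (c / 2 * B) := by
        have h4 : 4 * |C| / κ ≤ Real.exp (c / 2 * B) := h1.trans h2
        rw [div_le_iff₀ hκ0] at h4
        linarith
      have h5 : Real.exp (c / 2 * B) * Real.exp (-(c / 2) * B) = 1 := by
        rw [← Real.exp_add]
        simp
      have h6 : 0 < Real.exp (-(c / 2) * B) := Real.exp_pos _
      have h7 : 4 * |C| * Real.exp (-(c / 2) * B) ≤ κ := by
        calc 4 * |C| * Real.exp (-(c / 2) * B) ≤ κ * Real.exp (c / 2 * B) * Real.exp (-(c / 2) * B) := by gcongr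
          _ = κ := by rw [mul_assoc, h5, mul_one]
      have h8 : C * Real.exp (-(c / 2) * B) ≤ |C| * Real.exp (-(c / 2) * B) := by
        gcongr
        exact le_abs_self C
      linarith
    have hsteps : ∀ᶠ T in l, ∀ j ∈ Finset.range J,
        Df (V T) (b + j * ℓ) - d / (2 * (J + 1)) ≤ Df (V T) (b + j * ℓ + ℓ) := by
      rw [Filter.eventually_all_finset]
      intro j _
      exact step_low hℓ hm hpr hwin (by positivity) (by positivity)
    filter_upwards [hm, hC, hC', hlow c hc0 hc1 (κ / 2) (by linarith),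
      low_unif hℓ hini hm hpr hwin B (ε := κ / 2) (by linarith), hsteps] with T hT k1 k2 k3 k4 k5
    obtain ⟨hVm, h0, hLI⟩ := hT
    by_contra hcon
    push Not at hcon
    have hcon' : d < Df (V T) b := lt_of_le_of_lt hdd' hcon
    have hchain : ∀ j : ℕ, j ≤ J → d - j * (d / (2 * (J + 1))) ≤ Df (V T) (b + j * ℓ) := by
      intro j
      induction j with
      | zero =>
        intro _
        simp only [Nat.cast_zero, zero_mul, sub_zero, add_zero]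
        exact hcon'.le
      | succ j ih =>
        intro hj
        have h1 := ih (by omega)
        have h2 := k5 j (Finset.mem_range.2 (by omega))
        push_cast
        have e : b + (j + 1) * ℓ = b + j * ℓ + ℓ := by ring
        rw [e]
        linarith
    have h4 : ∀ j : ℕ, 1 ≤ j → j ≤ J → d / 2 ≤ Df (V T) (b + j * ℓ) := by
      intro j _ hj
      refine le_trans ?_ (hchain j hj)
      have h5 : (j : ℝ) * (d / (2 * (J + 1))) ≤ d / 2 := by
        have h6 : (j : ℝ) ≤ J + 1 := by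
          have : (j : ℝ) ≤ J := by exact_mod_cast hj
          linarith
        calc (j : ℝ) * (d / (2 * (J + 1))) ≤ (J + 1) * (d / (2 * (J + 1))) := by gcongr
          _ = d / 2 := by field_simp
      linarith
    have hdet := det hVm h0 hLI (d := d / 2) (ε := κ / 2) (κ := κ / 2) (C := C) (B := B) (b0 := b) (ℓ := ℓ) (J := J)
      hc0 hc1 k2.1 k3 k1.1 k1.2 (by linarith) hb hℓ (by linarith) (by linarith) hB1 k4 h4
    have hmain : 4 * κ ≤ c * Real.exp (-c * (b + J * ℓ)) * (J * ((d / 2) ^ 2 / 4)) := by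
      have h5 : Real.exp (-2) ≤ Real.exp (-c * (b + J * ℓ)) := by
        apply Real.exp_le_exp.2
        nlinarith
      calc 4 * κ = 1 / ℓ * Real.exp (-2) * (d ^ 2 / 16) := by rw [hκ]; ring
        _ ≤ c * J * Real.exp (-c * (b + J * ℓ)) * (d ^ 2 / 16) := by gcongr
        _ = _ := by ring
    linarith
  rw [Metric.tendsto_nhds]
  intro ε hε
  filter_upwards [hupper (ε / 2) (by linarith), low_pt hℓ hini hm hpr hwin hb (ε := ε / 2) (by linarith)] with T h1 h2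
  rw [Real.dist_eq, abs_lt]
  unfold Df at h1 h2
  constructor <;> linarith

end

end Pool.Agent.U507.GM
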