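import Pool.Agent.U507.GM.VG

/-!
# A deterministic inequality: a primitive below its expected value for a long time has a small Laplace transform
-/

set_option autoImplicit false

open Filter Topology Set MeasureTheory

namespace Pool.Agent.U507.GM

theorem det2 {V : ℝ → ℝ} (hVm : Measurable V) (h0 : ∀ α, 0 ≤ V α) (hV : LI V) {c C C' κ d A B : ℝ}
    (hc : 0 < c)
    (h1 : IntegrableOn (fun α => Real.exp (-c * α) * V α) (Ioi 0))
    (h1' : 1 / c - 1 / 2 - κ ≤ ∫ α in Ioi 0, Real.exp (-c * α) * V α)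
    (h2 : IntegrableOn (fun α => Real.exp (-(c / 2) * α) * V α) (Ioi 0))
    (h2' : ∫ α in Ioi 0, Real.exp (-(c / 2) * α) * V α ≤ C)
    (hd : 0 < d) (hd1 : d ≤ 1) (hA : 1 ≤ A) (hAB : A ≤ B) (hB2 : 2 ≤ B) (hC' : Ph V A ≤ C')
    (h3 : ∀ b ∈ Icc A B, Ph V b ≤ b - 1 / 2 - d) :
    d ≤ κ + c * A * (C' + 2) + 2 * C * Real.exp (-(c / 2) * B) := by
  have hPA0 : 0 ≤ Ph V A := intervalIntegral.integral_nonneg (by linarith) fun α _ => h0 α
  have hC'0 : 0 ≤ C' := hPA0.trans hC'
  have hB0 : 0 ≤ B := by linarith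
  -- the Laplace transform of the difference
  obtain ⟨g, hg⟩ : ∃ g : ℝ → ℝ, g = fun α => V α - 1 := ⟨_, rfl⟩
  have hgm : Measurable g := by rw [hg]; exact hVm.sub measurable_const
  have hexp1 : IntegrableOn (fun b => Real.exp (-c * b)) (Ioi 0) :=
    integrableOn_exp_mul_Ioi (by linarith : -c < 0) 0
  have e1 : (fun α => Real.exp (-c * α) * g α) = fun α => Real.exp (-c * α) * V α - Real.exp (-c * α) := by
    funext α
    rw [hg]
    ring
  have hgi : IntegrableOn (fun α => Real.exp (-c * α) * g α) (Ioi 0) := by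
    rw [e1]
    exact h1.sub hexp1
  obtain ⟨p1, p2⟩ := lap_prim hgm hc hgi
  have e2 : ∀ b ∈ Ioi (0 : ℝ), c * Real.exp (-c * b) * (∫ α in (0 : ℝ)..b, g α) =
      c * Real.exp (-c * b) * (Ph V b - b) := by
    intro b hb
    have hb0 : (0 : ℝ) < b := hb
    rw [hg, intervalIntegral.integral_sub (hV _ _ le_rfl hb0.le) (by simp)]
    unfold Ph
    simp
  have q1 := (integrableOn_congr_fun e2 measurableSet_Ioi).1 p1
  have hexpv : ∫ b in Ioi 0, Real.exp (-c * b) = 1 / c := by
    rw [integral_exp_mul_Ioi (by linarith : -c < 0) 0]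
    simp
  rw [setIntegral_congr_fun measurableSet_Ioi e2, e1, integral_sub h1 hexp1, hexpv] at p2
  -- add the constant
  obtain ⟨W, hW⟩ : ∃ W : ℝ → ℝ, W = fun b => c * Real.exp (-c * b) * (Ph V b - b) +
      (1 / 2 + d) * (c * Real.exp (-c * b)) := ⟨_, rfl⟩
  have hcexp : IntegrableOn (fun b => c * Real.exp (-c * b)) (Ioi 0) := hexp1.const_mul c
  have hWi : IntegrableOn W (Ioi 0) := by
    rw [hW]
    exact q1.add (hcexp.const_mul _)
  have hWv : d - κ ≤ ∫ b in Ioi 0, W b := by
    rw [hW, integral_add q1 (hcexp.const_mul _), integral_const_mul, exp_Ioi hc, p2]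
    rw [mul_zero, Real.exp_zero]
    linarith
  -- the upper bound
  have hPh : ∀ b : ℝ, 0 ≤ b → Ph V b ≤ C * Real.exp (c / 2 * b) := by
    intro b hb
    have k1 : Ph V b ≤ ∫ α in (0 : ℝ)..b, Real.exp (c / 2 * b) * (Real.exp (-(c / 2) * α) * V α) := by
      refine intervalIntegral.integral_mono_on hb (hV _ _ le_rfl hb) ?_ fun α hα => ?_
      · refine IntervalIntegrable.const_mul ?_ _
        rw [intervalIntegrable_iff_integrableOn_Ioc_of_le hb]
        exact h2.mono_set Ioc_subset_Ioi_self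
      · rw [← mul_assoc, ← Real.exp_add]
        apply le_mul_of_one_le_left (h0 α)
        apply Real.one_le_exp
        nlinarith [hα.2]
    rw [intervalIntegral.integral_const_mul] at k1
    have k2 : ∫ α in (0 : ℝ)..b, Real.exp (-(c / 2) * α) * V α ≤ C := by
      refine le_trans ?_ h2'
      rw [intervalIntegral.integral_of_le hb]
      exact setIntegral_mono_set h2 (Filter.Eventually.of_forall fun α => mul_nonneg (Real.exp_pos _).le (h0 α))
        Ioc_subset_Ioi_self.eventuallyLE
    calc Ph V b ≤ Real.exp (c / 2 * b) * ∫ α in (0 : ℝ)..b, Real.exp (-(c / 2) * α) * V α := k1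
      _ ≤ Real.exp (c / 2 * b) * C := by gcongr
      _ = _ := mul_comm _ _
  have hC0 : 0 ≤ C := le_trans (setIntegral_nonneg measurableSet_Ioi fun α _ => mul_nonneg (Real.exp_pos _).le (h0 α)) h2'
  have hlow1 : ∫ b in Ioc 0 A, W b ≤ c * A * (C' + 2) := by
    have k1 : ∫ b in Ioc 0 A, W b ≤ ∫ b in Ioc 0 A, c * (C' + 2) := by
      refine setIntegral_mono_on (hWi.mono_set Ioc_subset_Ioi_self) (integrableOn_const (by simp)) measurableSet_Ioc
        fun b hb => ?_
      rw [hW]
      simp only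
      have k2 : Ph V b ≤ C' := (Ph_mono hV h0 hb.1.le hb.2).trans hC'
      have k3 : c * Real.exp (-c * b) * (Ph V b - b) + (1 / 2 + d) * (c * Real.exp (-c * b)) =
          c * Real.exp (-c * b) * (Ph V b - b + 1 / 2 + d) := by ring
      rw [k3]
      have k4 : Real.exp (-c * b) ≤ 1 := by
        apply Real.exp_le_one_iff.2
        nlinarith [hb.1]
      calc c * Real.exp (-c * b) * (Ph V b - b + 1 / 2 + d) ≤ c * Real.exp (-c * b) * (C' + 2) := by
            apply mul_le_mul_of_nonneg_left _ (by positivity)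
            linarith [hb.1]
        _ ≤ c * 1 * (C' + 2) := by gcongr
        _ = c * (C' + 2) := by ring
    refine k1.trans (le_of_eq ?_)
    rw [setIntegral_const, Real.volume_real_Ioc, smul_eq_mul, sub_zero, max_eq_left (by linarith)]
    ring
  have hmid : ∫ b in Ioc A B, W b ≤ 0 := by
    refine setIntegral_nonpos measurableSet_Ioc fun b hb => ?_
    rw [hW]
    simp only
    have k2 := h3 b ⟨hb.1.le, hb.2⟩
    have k3 : c * Real.exp (-c * b) * (Ph V b - b) + (1 / 2 + d) * (c * Real.exp (-c * b)) =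
        c * Real.exp (-c * b) * (Ph V b - b + 1 / 2 + d) := by ring
    rw [k3]
    exact mul_nonpos_of_nonneg_of_nonpos (by positivity) (by linarith)
  have htail : ∫ b in Ioi B, W b ≤ 2 * C * Real.exp (-(c / 2) * B) := by
    have k3 : ∫ b in Ioi B, (2 * C) * (c / 2 * Real.exp (-(c / 2) * b)) = 2 * C * Real.exp (-(c / 2) * B) := by
      rw [integral_const_mul, exp_Ioi (by linarith)]
    rw [← k3]
    refine setIntegral_mono_on (hWi.mono_set (Ioi_subset_Ioi hB0)) ?_ measurableSet_Ioi fun b hb => ?_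
    · exact ((integrableOn_exp_mul_Ioi (by linarith : -(c / 2) < 0) B).const_mul _).const_mul _
    · have hb1 : B < b := hb
      rw [hW]
      simp only
      have k5 : c * Real.exp (-c * b) * (Ph V b - b) + (1 / 2 + d) * (c * Real.exp (-c * b)) =
          c * Real.exp (-c * b) * (Ph V b - b + 1 / 2 + d) := by ring
      have k6 : Real.exp (-(c / 2) * b) = Real.exp (-c * b) * Real.exp (c / 2 * b) := by
        rw [← Real.exp_add]
        congr 1
        ring
      have k7 : 2 * C * (c / 2 * (Real.exp (-c * b) * Real.exp (c / 2 * b))) =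
          c * Real.exp (-c * b) * (C * Real.exp (c / 2 * b)) := by ring
      rw [k5, k6, k7]
      apply mul_le_mul_of_nonneg_left _ (by positivity)
      have := hPh b (by linarith)
      linarith
  have hsplit : ∫ b in Ioi 0, W b = (∫ b in Ioc 0 A, W b) + ((∫ b in Ioc A B, W b) + ∫ b in Ioi B, W b) := by
    have hA0 : (0 : ℝ) ≤ A := by linarith
    rw [← setIntegral_union Ioc_disjoint_Ioi_same measurableSet_Ioi
      (hWi.mono_set (Ioc_subset_Ioi_self.trans (Ioi_subset_Ioi hA0)))
      (hWi.mono_set (Ioi_subset_Ioi hB0)), Ioc_union_Ioi_eq_Ioi hAB,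
      ← setIntegral_union Ioc_disjoint_Ioi_same measurableSet_Ioi
      (hWi.mono_set Ioc_subset_Ioi_self)
      (hWi.mono_set (Ioi_subset_Ioi hA0)), Ioc_union_Ioi_eq_Ioi hA0]
  linarith

end Pool.Agent.U507.GM
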