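import Pool.Agent.U507.GM.ZUb

/-!
# The upper bound for the variance integral: conclusion
-/

set_option autoImplicit false

open Complex Filter Topology Set MeasureTheory Metric
open scoped ComplexConjugate FourierTransform Real

namespace Pool.Agent.U507.GM

/-- **the upper bound for the variance integral** -/
theorem ub_fin (hRH : RiemannHypothesis) {c : ℝ} (hc : 0 < c) (hc1 : c ≤ 1) :
    ∃ C L0 : ℝ, 0 < C ∧ 16 ≤ L0 ∧ ∀ L δ : ℝ, L0 ≤ L → 0 < δ → |L + Real.log δ| ≤ 2 →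
      Wv (c / (2 * L)) δ ≤ C * (δ * L ^ 2) := by
  obtain ⟨C1, hC1, hpl⟩ := pl hRH
  obtain ⟨C2, V1, hC2, hV1, hM⟩ := M_bound hRH
  obtain ⟨C3, hC3, hn⟩ := near_zero hRH V1 (by linarith)
  obtain ⟨C4, hC4, ht⟩ := tail_bound hRH
  refine ⟨2 * (4 * (C3 * (4 / c ^ 2) + 72 * (C2 * (8 / c + 16)) + C4 * (4 / c ^ 2)) + C1 * (4 / c ^ 2)),
    max 16 (2 + Real.log V1), by positivity, le_max_left _ _, fun L δ hL hδ hLδ => ?_⟩
  have hL16 : 16 ≤ L := (le_max_left _ _).trans hL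
  have hLV : 2 + Real.log V1 ≤ L := (le_max_right _ _).trans hL
  have hL0 : 0 < L := by linarith
  obtain ⟨x1, x2, x3⟩ := exp_facts (by linarith) hδ hLδ
  have hδ1 := x3 hL16
  have hLδ2 := abs_le.1 hLδ
  obtain ⟨η, hη⟩ : ∃ η : ℝ, η = c / (2 * L) := ⟨_, rfl⟩
  have hη0 : 0 < η := by rw [hη]; positivity
  have hηL : η * L = c / 2 := by rw [hη]; field_simp
  have hη1 : η ≤ 1 / 16 := by
    by_contra hcon
    push Not at hcon
    nlinarith
  rw [← hη]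
  obtain ⟨p1, -, -, p4, -⟩ := hpl η δ hη0 hη1 hδ hδ1
  obtain ⟨U, hU⟩ : ∃ U : ℝ, U = (δ ^ 3)⁻¹ := ⟨_, rfl⟩
  have hd3 : δ ^ 3 ≤ δ := by
    have : δ ^ 2 ≤ 1 := by nlinarith
    nlinarith
  have hVU : V1 ≤ U := by
    have h1 : Real.log V1 ≤ Real.log δ⁻¹ := by
      rw [Real.log_inv]
      linarith
    have h2 : V1 ≤ δ⁻¹ := (Real.log_le_log_iff (by linarith) (by positivity)).1 h1
    have h3 : δ⁻¹ ≤ U := by
      rw [hU]
      exact inv_anti₀ (by positivity) hd3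
    linarith
  have hU0 : 0 < U := by linarith
  have hlogU : ∀ u ∈ Icc V1 U, Real.log (u + 1) ≤ 4 * L := by
    intro u hu
    have h1 : u + 1 ≤ 2 * U := by linarith [hu.2]
    have h2 : Real.log (u + 1) ≤ Real.log (2 * U) := Real.log_le_log (by linarith [hu.1]) h1
    have h3 : Real.log (2 * U) = Real.log 2 - 3 * Real.log δ := by
      rw [Real.log_mul (by norm_num) hU0.ne', hU, Real.log_inv, Real.log_pow]
      push_cast
      ring
    have h4 : Real.log 2 < 1 := by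
      have := Real.log_two_lt_d9
      linarith
    linarith
  have hK : ∀ u ∈ Icc V1 U, ∫ v in V1..u, (fun v : ℝ => (ZF ⟨1 / 2 + η, v⟩).re) v ^ 2 ≤
      (C2 * (8 / c + 16) * L ^ 2) * u := by
    intro u hu
    have h1 := hlogU u hu
    have h0 : 0 ≤ Real.log (u + 1) := Real.log_nonneg (by linarith [hu.1])
    have h2 : η * Real.log (u + 1) ≤ π := by
      have : η * Real.log (u + 1) ≤ η * (4 * L) := by gcongr
      have h3 := Real.pi_gt_three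
      nlinarith
    have h3 := hM u η hu.1 hη0 hη1 h2
    refine h3.trans ?_
    have hu0 : 0 < u := by linarith [hu.1]
    have h4 : Real.log (u + 1) / η ≤ 8 / c * L ^ 2 := by
      rw [div_le_iff₀ hη0]
      have : 8 / c * L ^ 2 * η = 4 * L := by
        rw [hη]
        field_simp
        norm_num
      linarith
    have h5 : Real.log (u + 1) ^ 2 ≤ 16 * L ^ 2 := by nlinarith
    calc C2 * u * (Real.log (u + 1) / η + Real.log (u + 1) ^ 2) ≤ C2 * u * (8 / c * L ^ 2 + 16 * L ^ 2) := by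
          gcongr
      _ = _ := by ring
  have hzc : Continuous fun v : ℝ => (ZF ⟨1 / 2 + η, v⟩).re := Complex.continuous_re.comp (zf_cont hRH hη0)
  obtain ⟨K, hKd⟩ : ∃ K : ℝ, K = C2 * (8 / c + 16) * L ^ 2 := ⟨_, rfl⟩
  rw [← hKd] at hK
  have hK0 : 0 ≤ K := by rw [hKd]; positivity
  have hmid := parts_bound hzc hδ (by linarith) hVU hK0 hK
  have hmid2 : 8 * K / U + 16 * π * K * δ ≤ 72 * (C2 * (8 / c + 16)) * (δ * L ^ 2) := by
    have e1 : 8 * K / U = 8 * K * δ ^ 3 := by rw [hU]; field_simp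
    have h1 : 8 * K * δ ^ 3 ≤ 8 * K * δ := by gcongr
    have h2 : 16 * π * K * δ ≤ 16 * 4 * K * δ := by
      gcongr
      exact Real.pi_le_four
    have e2 : 72 * (C2 * (8 / c + 16)) * (δ * L ^ 2) = 72 * K * δ := by rw [hKd]; ring
    rw [e1, e2]
    linarith
  obtain ⟨-, hnear⟩ := hn η δ hη0 hη1 hδ
  have htail := ht η δ hη0 hη1 hδ (by linarith)
  rw [← hU] at htail
  have hge : ∀ t, gh δ (-t) ^ 2 * (ZF ⟨1 / 2 + η, -t⟩).re ^ 2 = gh δ t ^ 2 * (ZF ⟨1 / 2 + η, t⟩).re ^ 2 := fun t => by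
    rw [gh_neg, zre_even]
  rw [int_even hge p1] at p4
  have hsplit : ∫ v in Ioi 0, gh δ v ^ 2 * (ZF ⟨1 / 2 + η, v⟩).re ^ 2 =
      (∫ v in Ioc 0 V1, gh δ v ^ 2 * (ZF ⟨1 / 2 + η, v⟩).re ^ 2) +
      ((∫ v in Ioc V1 U, gh δ v ^ 2 * (ZF ⟨1 / 2 + η, v⟩).re ^ 2) +
        ∫ v in Ioi U, gh δ v ^ 2 * (ZF ⟨1 / 2 + η, v⟩).re ^ 2) := by
    rw [← setIntegral_union Ioc_disjoint_Ioi_same measurableSet_Ioi p1.integrableOn p1.integrableOn,
      Ioc_union_Ioi_eq_Ioi hVU, ← setIntegral_union Ioc_disjoint_Ioi_same measurableSet_Ioi p1.integrableOn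
      p1.integrableOn, Ioc_union_Ioi_eq_Ioi (by linarith)]
  rw [hsplit, ← intervalIntegral.integral_of_le hVU] at p4
  have e5 : δ ^ 2 / η ^ 2 ≤ 4 / c ^ 2 * (δ * L ^ 2) := by
    have : δ ^ 2 / η ^ 2 = 4 / c ^ 2 * (δ * L ^ 2) * δ := by
      rw [hη]
      field_simp
      ring
    rw [this]
    apply mul_le_of_le_one_right (by positivity)
    linarith
  have e6 : (δ * √δ) / η ^ 2 ≤ 4 / c ^ 2 * (δ * L ^ 2) := by
    have : (δ * √δ) / η ^ 2 = 4 / c ^ 2 * (δ * L ^ 2) * √δ := by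
      rw [hη]
      field_simp
      ring
    rw [this]
    apply mul_le_of_le_one_right (by positivity)
    exact Real.sqrt_le_one.2 (by linarith)
  obtain ⟨D, hD⟩ : ∃ D : ℝ, D = δ * L ^ 2 := ⟨_, rfl⟩
  rw [← hD] at hmid2 e5 e6 ⊢
  have f1 : C3 * δ ^ 2 / η ^ 2 ≤ C3 * (4 / c ^ 2) * D := by
    calc C3 * δ ^ 2 / η ^ 2 = C3 * (δ ^ 2 / η ^ 2) := by ring
      _ ≤ C3 * (4 / c ^ 2 * D) := by gcongr
      _ = _ := by ring
  have f2 : C4 * (δ * √δ) / η ^ 2 ≤ C4 * (4 / c ^ 2) * D := by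
    calc C4 * (δ * √δ) / η ^ 2 = C4 * ((δ * √δ) / η ^ 2) := by ring
      _ ≤ C4 * (4 / c ^ 2 * D) := by gcongr
      _ = _ := by ring
  have f3 : C1 * δ ^ 2 / η ^ 2 ≤ C1 * (4 / c ^ 2) * D := by
    calc C1 * δ ^ 2 / η ^ 2 = C1 * (δ ^ 2 / η ^ 2) := by ring
      _ ≤ C1 * (4 / c ^ 2 * D) := by gcongr
      _ = _ := by ring
  obtain ⟨-, s1⟩ := Iv_split hRH hη0 (by linarith) hδ hδ1
  change π * Iv η δ ≤ _ at p4
  have hI0 : 0 ≤ Iv η δ := integral_nonneg fun y => sq_nonneg _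
  have hpi : Iv η δ ≤ π * Iv η δ := le_mul_of_one_le_left hI0 (by linarith [Real.pi_gt_three])
  calc Wv η δ ≤ 2 * Iv η δ := s1
    _ ≤ 2 * (4 * (C3 * (4 / c ^ 2) * D + 72 * (C2 * (8 / c + 16)) * D + C4 * (4 / c ^ 2) * D) +
        C1 * (4 / c ^ 2) * D) := by linarith
    _ = _ := by ring

end Pool.Agent.U507.GM
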