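import Pool.Agent.U507.GM.Zb

/-!
# The Mellin transform of `ψ(x) - x + 1`
-/

set_option autoImplicit false

open Complex Filter Topology Set MeasureTheory Metric
open scoped ComplexConjugate FourierTransform

namespace Pool.Agent.U507.GM

open Pool.Agent.H295R2 (Zs Zs_differentiable Zs_eq)

/-- `ψ(x) - (x - 1)` for `x ≥ 1`, zero for `x ≤ 1` -/
noncomputable def Rf (x : ℝ) : ℝ := Chebyshev.psi x - max 0 (x - 1)

lemma Rf_zero {x : ℝ} (hx : x ≤ 1) : Rf x = 0 := by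
  unfold Rf
  rw [Chebyshev.psi_eq_zero_of_le_one hx, max_eq_left (by linarith), sub_zero]

lemma Rf_eq {x : ℝ} (hx : 1 ≤ x) : Rf x = Chebyshev.psi x - x + 1 := by
  unfold Rf
  rw [max_eq_right (by linarith)]
  ring

lemma Rf_meas : Measurable Rf := by
  unfold Rf
  exact Chebyshev.psi_mono.measurable.sub (by fun_prop)

lemma rh_psi (hRH : RiemannHypothesis) {κ : ℝ} (hκ : 1 / 2 < κ) (hκ1 : κ ≤ 1) :
    ∃ C : ℝ, 0 < C ∧ ∀ y : ℝ, 1 ≤ y → |Chebyshev.psi y - y| ≤ C * y ^ κ := by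
  refine Pool.Agent.W190.psi_of_free (1 / 2) le_rfl (fun s hs h0 => ?_) κ hκ hκ1
  rcases lt_or_ge s.re 1 with h1 | h1
  · have := rhs_of hRH s (by linarith) h1 h0
    linarith
  · exact riemannZeta_ne_zero_of_one_le_re h1 h0

lemma Rf_bound (hRH : RiemannHypothesis) {κ : ℝ} (hκ : 1 / 2 < κ) (hκ1 : κ ≤ 1) :
    ∃ C : ℝ, 0 < C ∧ ∀ x : ℝ, 1 ≤ x → |Rf x| ≤ C * x ^ κ := by
  obtain ⟨C, hC, h⟩ := rh_psi hRH hκ hκ1
  refine ⟨C + 1, by linarith, fun x hx => ?_⟩
  rw [Rf_eq hx]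
  have h1 : 1 ≤ x ^ κ := Real.one_le_rpow hx (by linarith)
  calc |Chebyshev.psi x - x + 1| ≤ |Chebyshev.psi x - x| + |(1 : ℝ)| := abs_add_le _ _
    _ ≤ C * x ^ κ + 1 := by rw [abs_one]; linarith [h x hx]
    _ ≤ _ := by nlinarith

lemma Rf_li : LocallyIntegrableOn (fun x : ℝ => (Rf x : ℂ)) (Ioi 0) := by
  have h1 : LocallyIntegrable Rf := by
    unfold Rf
    exact (Chebyshev.psi_mono.locallyIntegrable).sub (by
      exact Continuous.locallyIntegrable (by fun_prop))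
  have h2 : LocallyIntegrable (fun x : ℝ => (Rf x : ℂ)) := by
    intro x
    obtain ⟨U, hU, h⟩ := h1 x
    exact ⟨U, hU, h.ofReal⟩
  exact h2.locallyIntegrableOn _

lemma Rf_top (hRH : RiemannHypothesis) {κ : ℝ} (hκ : 1 / 2 < κ) (hκ1 : κ ≤ 1) :
    (fun x : ℝ => (Rf x : ℂ)) =O[atTop] fun x : ℝ => x ^ (-(-κ)) := by
  obtain ⟨C, hC, h⟩ := Rf_bound hRH hκ hκ1
  refine Asymptotics.IsBigO.of_bound C ?_
  filter_upwards [eventually_ge_atTop 1] with x hx
  rw [Complex.norm_real, Real.norm_eq_abs, Real.norm_eq_abs, neg_neg,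
    abs_of_nonneg (Real.rpow_nonneg (by linarith) κ)]
  exact h x hx

lemma Rf_bot (b : ℝ) : (fun x : ℝ => (Rf x : ℂ)) =O[𝓝[>] 0] fun x : ℝ => x ^ (-b) := by
  refine Asymptotics.IsBigO.of_bound 1 ?_
  have : ∀ᶠ x : ℝ in 𝓝[>] 0, x < 1 := nhdsWithin_le_nhds (gt_mem_nhds one_pos)
  filter_upwards [this] with x hx
  rw [Rf_zero hx.le]
  simp

lemma mel_conv (hRH : RiemannHypothesis) {s : ℂ} (hs : 1 / 2 < s.re) :
    MellinConvergent (fun x : ℝ => (Rf x : ℂ)) (-s) := by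
  obtain ⟨κ, hκ⟩ : ∃ κ : ℝ, κ = min 1 ((1 / 2 + s.re) / 2) := ⟨_, rfl⟩
  have h1 : 1 / 2 < κ := by rw [hκ]; exact lt_min (by norm_num) (by linarith)
  have h2 : κ ≤ 1 := by rw [hκ]; exact min_le_left _ _
  have h3 : κ < s.re := by
    rw [hκ]
    exact (min_le_right _ _).trans_lt (by linarith)
  exact mellinConvergent_of_isBigO_rpow (a := -κ) (b := -s.re - 1) Rf_li (Rf_top hRH h1 h2)
    (by rw [Complex.neg_re]; linarith) (Rf_bot _) (by rw [Complex.neg_re]; linarith)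

lemma mel_diff (hRH : RiemannHypothesis) {s : ℂ} (hs : 1 / 2 < s.re) :
    DifferentiableAt ℂ (fun z : ℂ => mellin (fun x : ℝ => (Rf x : ℂ)) (-z)) s := by
  obtain ⟨κ, hκ⟩ : ∃ κ : ℝ, κ = min 1 ((1 / 2 + s.re) / 2) := ⟨_, rfl⟩
  have h1 : 1 / 2 < κ := by rw [hκ]; exact lt_min (by norm_num) (by linarith)
  have h2 : κ ≤ 1 := by rw [hκ]; exact min_le_left _ _
  have h3 : κ < s.re := by
    rw [hκ]
    exact (min_le_right _ _).trans_lt (by linarith)
  have h4 := mellin_differentiableAt_of_isBigO_rpow (a := -κ) (b := -s.re - 1) (s := -s) Rf_li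
    (Rf_top hRH h1 h2)
    (by rw [Complex.neg_re]; linarith) (Rf_bot _) (by rw [Complex.neg_re]; linarith)
  exact DifferentiableAt.comp (g := mellin (fun x : ℝ => (Rf x : ℂ))) (f := fun z : ℂ => -z) s h4
    (by fun_prop)

/-- the identity in the half plane of absolute convergence -/
lemma mel_right {s : ℂ} (hs : 1 < s.re) :
    s * mellin (fun x : ℝ => (Rf x : ℂ)) (-s) = ZF s := by
  have hs0 : s ≠ 0 := fun h => by rw [h] at hs; norm_num at hs
  have hs1 : s ≠ 1 := fun h => by rw [h] at hs; norm_num at hs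
  have hz : riemannZeta s ≠ 0 := riemannZeta_ne_zero_of_one_le_re hs.le
  have hO : (fun n : ℕ ↦ ∑ k ∈ Finset.Icc 1 n, ArithmeticFunction.vonMangoldt k) =O[atTop]
      fun n : ℕ ↦ (n : ℝ) ^ (1 : ℝ) := by
    refine Asymptotics.IsBigO.of_bound (Real.log 4 + 4) ?_
    filter_upwards with n
    rw [Real.rpow_one, Real.norm_of_nonneg (Finset.sum_nonneg fun _ _ =>
      ArithmeticFunction.vonMangoldt_nonneg), Real.norm_of_nonneg (Nat.cast_nonneg n)]
    have h1 := Chebyshev.psi_le_const_mul_self (x := (n : ℝ)) (Nat.cast_nonneg n)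
    unfold Chebyshev.psi at h1
    rw [Nat.floor_natCast] at h1
    exact h1
  have hL := LSeries_eq_mul_integral_of_nonneg (fun n => ArithmeticFunction.vonMangoldt n)
    (r := 1) zero_le_one hs hO (fun n => ArithmeticFunction.vonMangoldt_nonneg)
  have hL2 := ArithmeticFunction.LSeries_vonMangoldt_eq_deriv_riemannZeta_div hs
  rw [hL] at hL2
  -- the integrals
  have i1 : IntegrableOn (fun t : ℝ => (t : ℂ) ^ (-s)) (Ioi 1) :=
    integrableOn_Ioi_cpow_of_lt (by rw [Complex.neg_re]; linarith) one_pos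
  have i2 : IntegrableOn (fun t : ℝ => (t : ℂ) ^ (-s - 1)) (Ioi 1) :=
    integrableOn_Ioi_cpow_of_lt (by rw [Complex.sub_re, Complex.neg_re, Complex.one_re]; linarith)
      one_pos
  have e1 : ∫ t in Ioi (1 : ℝ), (t : ℂ) ^ (-s) = 1 / (s - 1) := by
    rw [integral_Ioi_cpow_of_lt (by rw [Complex.neg_re]; linarith) one_pos]
    simp only [Complex.ofReal_one, Complex.one_cpow]
    have : -s + 1 ≠ 0 := fun h => hs1 (by linear_combination -h)
    have h2 : s - 1 ≠ 0 := sub_ne_zero.2 hs1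
    field_simp
    ring
  have e2 : ∫ t in Ioi (1 : ℝ), (t : ℂ) ^ (-s - 1) = 1 / s := by
    rw [integral_Ioi_cpow_of_lt (by rw [Complex.sub_re, Complex.neg_re, Complex.one_re]; linarith)
      one_pos]
    simp only [Complex.ofReal_one, Complex.one_cpow]
    have : -s - 1 + 1 ≠ 0 := fun h => hs0 (by linear_combination -h)
    field_simp
    ring
  have hψm : Measurable fun t : ℝ => ((Chebyshev.psi t : ℝ) : ℂ) :=
    Complex.measurable_ofReal.comp Chebyshev.psi_mono.measurable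
  have i3 : IntegrableOn (fun t : ℝ => ((Chebyshev.psi t : ℝ) : ℂ) * (t : ℂ) ^ (-s - 1)) (Ioi 1) := by
    refine Integrable.mono' (i1.norm.const_mul (Real.log 4 + 4)) ?_ ?_
    · refine (hψm.aestronglyMeasurable).mul ?_
      exact i2.aestronglyMeasurable
    · rw [ae_restrict_iff' measurableSet_Ioi]
      refine Eventually.of_forall fun t ht => ?_
      have ht0 : (0 : ℝ) < t := lt_trans one_pos ht
      rw [norm_mul, Complex.norm_real, Real.norm_of_nonneg (Chebyshev.psi_nonneg t),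
        Complex.norm_cpow_eq_rpow_re_of_pos ht0, Complex.norm_cpow_eq_rpow_re_of_pos ht0]
      have h1 := Chebyshev.psi_le_const_mul_self (x := t) ht0.le
      have h2 : t ^ (-s).re = t * t ^ (-s - 1).re := by
        rw [Complex.sub_re, Complex.one_re, Real.rpow_sub_one ht0.ne']
        field_simp
      rw [h2]
      have h3 : 0 ≤ t ^ (-s - 1).re := Real.rpow_nonneg ht0.le _
      nlinarith
  have e3 : mellin (fun x : ℝ => (Rf x : ℂ)) (-s) =
      (∫ t in Ioi (1 : ℝ), ((Chebyshev.psi t : ℝ) : ℂ) * (t : ℂ) ^ (-s - 1)) - (1 / (s - 1) - 1 / s) := by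
    unfold mellin
    have h1 : ∫ t in Ioi (0 : ℝ), (t : ℂ) ^ (-s - 1) • (Rf t : ℂ) =
        ∫ t in Ioi (1 : ℝ), (t : ℂ) ^ (-s - 1) • (Rf t : ℂ) := by
      refine setIntegral_eq_of_subset_of_forall_diff_eq_zero measurableSet_Ioi
        (Ioi_subset_Ioi zero_le_one) fun t ht => ?_
      rw [Rf_zero (not_lt.1 ht.2)]
      simp
    rw [h1]
    have h2 : ∫ t in Ioi (1 : ℝ), (t : ℂ) ^ (-s - 1) • (Rf t : ℂ) =
        ∫ t in Ioi (1 : ℝ), (((Chebyshev.psi t : ℝ) : ℂ) * (t : ℂ) ^ (-s - 1) -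
          ((t : ℂ) ^ (-s) - (t : ℂ) ^ (-s - 1))) := by
      refine setIntegral_congr_fun measurableSet_Ioi fun t ht => ?_
      have ht0 : (0 : ℝ) < t := lt_trans one_pos ht
      have ht0' : (t : ℂ) ≠ 0 := by exact_mod_cast ht0.ne'
      simp only [smul_eq_mul]
      rw [Rf_eq (le_of_lt ht)]
      have h3 : (t : ℂ) ^ (-s) = t * (t : ℂ) ^ (-s - 1) := by
        rw [Complex.cpow_sub _ _ ht0', Complex.cpow_one]
        field_simp
      rw [h3]
      push_cast
      ring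
    have i4 : IntegrableOn (fun t : ℝ => (t : ℂ) ^ (-s) - (t : ℂ) ^ (-s - 1)) (Ioi 1) := i1.sub i2
    rw [h2, integral_sub i3 i4, integral_sub i1 i2, e1, e2]
  have e4 : ∫ t in Ioi (1 : ℝ), (∑ k ∈ Finset.Icc 1 ⌊t⌋₊, ((ArithmeticFunction.vonMangoldt k : ℝ) : ℂ)) *
      (t : ℂ) ^ (-(s + 1)) =
      ∫ t in Ioi (1 : ℝ), ((Chebyshev.psi t : ℝ) : ℂ) * (t : ℂ) ^ (-s - 1) := by
    refine setIntegral_congr_fun measurableSet_Ioi fun t ht => ?_
    show _ * (t : ℂ) ^ (-(s + 1)) = _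
    rw [show -(s + 1) = -s - 1 by ring]
    congr 1
    unfold Chebyshev.psi
    push_cast
    rfl
  rw [e4] at hL2
  rw [e3, mul_sub, hL2, zf_eq hs1 hz, logDeriv_apply]
  have h2 : s - 1 ≠ 0 := sub_ne_zero.2 hs1
  field_simp
  ring

/-- **the Mellin transform**, Riemann hypothesis -/
theorem mel_eq (hRH : RiemannHypothesis) {s : ℂ} (hs : 1 / 2 < s.re) :
    mellin (fun x : ℝ => (Rf x : ℂ)) (-s) = ZF s / s := by
  have hopen : IsOpen {z : ℂ | 1 / 2 < z.re} := isOpen_lt continuous_const Complex.continuous_re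
  have hconn : IsPreconnected {z : ℂ | 1 / 2 < z.re} :=
    (convex_halfSpace_re_gt (1 / 2)).isPreconnected
  have hA : AnalyticOnNhd ℂ (fun z : ℂ => z * mellin (fun x : ℝ => (Rf x : ℂ)) (-z) * Zs z)
      {z : ℂ | 1 / 2 < z.re} := by
    refine DifferentiableOn.analyticOnNhd ?_ hopen
    intro z hz
    exact ((differentiableAt_id.mul (mel_diff hRH hz)).mul (Zs_differentiable z)).differentiableWithinAt
  have hB : AnalyticOnNhd ℂ (fun z : ℂ => -deriv Zs z) {z : ℂ | 1 / 2 < z.re} := by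
    intro z _
    exact ((Zs_differentiable.analyticAt z).deriv).neg
  have hev : (fun z : ℂ => z * mellin (fun x : ℝ => (Rf x : ℂ)) (-z) * Zs z) =ᶠ[𝓝 2]
      fun z : ℂ => -deriv Zs z := by
    have : {z : ℂ | 1 < z.re} ∈ 𝓝 (2 : ℂ) :=
      (isOpen_lt continuous_const Complex.continuous_re).mem_nhds (by simp)
    filter_upwards [this] with z hz
    rw [mel_right hz]
    have := Pool.Agent.H295R2.Zs_ne_zero_of_one_le (s := z) (le_of_lt hz)
    unfold ZF
    rw [logDeriv_apply]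
    field_simp
  have key := hA.eqOn_of_preconnected_of_eventuallyEq hB hconn (z₀ := 2) (by
    show (1 : ℝ) / 2 < (2 : ℂ).re
    norm_num) hev hs
  simp only at key
  have hs0 : s ≠ 0 := fun h => by rw [h] at hs; norm_num at hs
  have h1 := zs_ne hRH hs
  unfold ZF
  rw [logDeriv_apply]
  field_simp
  linear_combination key

end Pool.Agent.U507.GM
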