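import Pool.Agent.U507.GM.Mb
import Pool.Agent.Helper625.Planch

/-!
# Fourier transforms of real functions, and the transform of `e^{-(1/2+η)y} (ψ(e^y) - e^y + 1)`
-/

set_option autoImplicit false

open Complex Filter Topology Set MeasureTheory Metric
open scoped ComplexConjugate FourierTransform Real

namespace Pool.Agent.U507.GM

/-- the Fourier transform `∫ f(y) e^{-ity} dy` of a real function -/
noncomputable def FT (f : ℝ → ℝ) (t : ℝ) : ℂ := ∫ y, cexp (-((t * y : ℝ) : ℂ) * I) * (f y : ℂ)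

lemma ft_eq (f : ℝ → ℝ) (t : ℝ) : FT f t = 𝓕 (fun y : ℝ => (f y : ℂ)) (t / (2 * π)) := by
  rw [Real.fourier_real_eq_integral_exp_smul]
  unfold FT
  congr 1
  funext y
  rw [smul_eq_mul]
  congr 2
  push_cast
  have : (π : ℂ) ≠ 0 := by exact_mod_cast Real.pi_ne_zero
  field_simp

lemma ofR {f : ℝ → ℝ} (h1 : Integrable f) : Integrable fun y : ℝ => (f y : ℂ) := h1.ofReal

lemma norm_ph (t y : ℝ) : ‖cexp (-((t * y : ℝ) : ℂ) * I)‖ = 1 := by
  have : -((t * y : ℝ) : ℂ) * I = ((-(t * y) : ℝ) : ℂ) * I := by push_cast; ring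
  rw [this, Complex.norm_exp_ofReal_mul_I]

lemma ft_ii {f : ℝ → ℝ} (h1 : Integrable f) (t : ℝ) :
    Integrable fun y : ℝ => cexp (-((t * y : ℝ) : ℂ) * I) * (f y : ℂ) := by
  refine (ofR h1).bdd_mul (c := 1) ?_ ?_
  · exact Continuous.aestronglyMeasurable (by fun_prop)
  · exact Filter.Eventually.of_forall fun y => (norm_ph t y).le

lemma ft_cont {f : ℝ → ℝ} (h1 : Integrable f) : Continuous (FT f) := by
  have hcont : Continuous (𝓕 (fun y : ℝ => (f y : ℂ))) := by
    have := VectorFourier.fourierIntegral_continuous (L := innerₗ ℝ) Real.continuous_fourierChar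
      continuous_inner (ofR h1)
    exact this
  have e : FT f = fun t => 𝓕 (fun y : ℝ => (f y : ℂ)) (t / (2 * π)) := by
    funext t
    exact ft_eq f t
  rw [e]
  exact hcont.comp (by fun_prop)

lemma ft_planch {f : ℝ → ℝ} (h1 : Integrable f) (h2 : Integrable fun y => f y ^ 2) :
    Integrable (fun t => ‖FT f t‖ ^ 2) ∧ ∫ t, ‖FT f t‖ ^ 2 = 2 * π * ∫ y, f y ^ 2 := by
  have h3 : MemLp (fun y : ℝ => (f y : ℂ)) 2 := by
    rw [memLp_two_iff_integrable_sq_norm (ofR h1).1]
    refine h2.congr (Filter.Eventually.of_forall fun y => ?_)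
    show f y ^ 2 = ‖(f y : ℂ)‖ ^ 2
    rw [Complex.norm_real, Real.norm_eq_abs, sq_abs]
  obtain ⟨h4, h5⟩ := Pool.Agent.Helper625.Planch.plancherel _ (ofR h1) h3
  have h6 : Integrable fun t => ‖𝓕 (fun y : ℝ => (f y : ℂ)) t‖ ^ 2 := by
    rw [← memLp_two_iff_integrable_sq_norm h4.1]
    exact h4
  have hp : (0 : ℝ) < 2 * π := by positivity
  have e : (fun t => ‖FT f t‖ ^ 2) = fun t => (fun u => ‖𝓕 (fun y : ℝ => (f y : ℂ)) u‖ ^ 2) (t / (2 * π)) := by
    funext t
    rw [ft_eq f t]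
  constructor
  · rw [e]
    exact h6.comp_div hp.ne'
  · rw [e, MeasureTheory.Measure.integral_comp_div (fun u => ‖𝓕 (fun y : ℝ => (f y : ℂ)) u‖ ^ 2), h5,
      abs_of_pos hp, smul_eq_mul]
    congr 1
    refine integral_congr_ae (Filter.Eventually.of_forall fun y => ?_)
    show ‖(f y : ℂ)‖ ^ 2 = f y ^ 2
    rw [Complex.norm_real, Real.norm_eq_abs, sq_abs]

lemma ft_add {f g : ℝ → ℝ} (hf : Integrable f) (hg : Integrable g) (t : ℝ) :
    FT (fun y => f y + g y) t = FT f t + FT g t := by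
  unfold FT
  rw [← integral_add (ft_ii hf t) (ft_ii hg t)]
  congr 1
  funext y
  push_cast
  ring

lemma ft_smul (f : ℝ → ℝ) (c t : ℝ) : FT (fun y => c * f y) t = c * FT f t := by
  unfold FT
  rw [← integral_const_mul]
  congr 1
  funext y
  push_cast
  ring

lemma ft_shift (f : ℝ → ℝ) (a t : ℝ) :
    FT (fun y => f (y + a)) t = cexp (((t * a : ℝ) : ℂ) * I) * FT f t := by
  unfold FT
  rw [← integral_const_mul]
  have h := integral_add_right_eq_self (μ := (volume : Measure ℝ))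
    (fun y : ℝ => cexp (((t * a : ℝ) : ℂ) * I) * (cexp (-((t * y : ℝ) : ℂ) * I) * (f y : ℂ))) a
  rw [← h]
  congr 1
  funext y
  rw [← mul_assoc, ← Complex.exp_add]
  congr 2
  push_cast
  ring

lemma ft_neg (f : ℝ → ℝ) (t : ℝ) : FT (fun y => f (-y)) t = conj (FT f t) := by
  unfold FT
  rw [← integral_conj]
  have h := integral_neg_eq_self (μ := (volume : Measure ℝ))
    (fun y : ℝ => cexp (-((t * (-y) : ℝ) : ℂ) * I) * (f y : ℂ))
  have e : (fun y : ℝ => cexp (-((t * y : ℝ) : ℂ) * I) * (f (-y) : ℂ)) = fun y : ℝ =>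
      (fun y : ℝ => cexp (-((t * (-y) : ℝ) : ℂ) * I) * (f y : ℂ)) (-y) := by
    funext y
    simp
  rw [e, h]
  congr 1
  funext y
  rw [map_mul, Complex.conj_ofReal, ← Complex.exp_conj]
  congr 2
  simp

/-- `e^{-(1/2+η)y} Rf(e^y)` -/
noncomputable def rr (η y : ℝ) : ℝ := Real.exp (-(1 / 2 + η) * y) * Rf (Real.exp y)

lemma rr_zero (η : ℝ) {y : ℝ} (hy : y ≤ 0) : rr η y = 0 := by
  unfold rr
  rw [Rf_zero (by rw [← Real.exp_zero]; exact Real.exp_le_exp.2 hy), mul_zero]

lemma rr_meas (η : ℝ) : Measurable (rr η) := by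
  unfold rr
  exact (by fun_prop : Measurable fun y : ℝ => Real.exp (-(1 / 2 + η) * y)).mul
    (Rf_meas.comp Real.measurable_exp)

lemma rr_bound (hRH : RiemannHypothesis) {η : ℝ} (hη : 0 < η) (hη1 : η ≤ 1 / 2) :
    ∃ C : ℝ, 0 < C ∧ ∀ y : ℝ, |rr η y| ≤ (Ioi (0 : ℝ)).indicator (fun y => C * Real.exp (-(η / 2) * y)) y := by
  obtain ⟨C, hC, h⟩ := Rf_bound hRH (κ := 1 / 2 + η / 2) (by linarith) (by linarith)
  refine ⟨C, hC, fun y => ?_⟩
  by_cases hy : 0 < y
  · rw [indicator_of_mem (mem_Ioi.2 hy)]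
    unfold rr
    rw [abs_mul, abs_of_pos (Real.exp_pos _)]
    have h1 := h (Real.exp y) (by rw [← Real.exp_zero]; exact Real.exp_le_exp.2 hy.le)
    rw [← Real.exp_mul] at h1
    calc Real.exp (-(1 / 2 + η) * y) * |Rf (Real.exp y)| ≤
          Real.exp (-(1 / 2 + η) * y) * (C * Real.exp (y * (1 / 2 + η / 2))) := by gcongr
      _ = C * (Real.exp (-(1 / 2 + η) * y) * Real.exp (y * (1 / 2 + η / 2))) := by ring
      _ = C * Real.exp (-(η / 2) * y) := by
          rw [← Real.exp_add]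
          congr 2
          ring
  · rw [indicator_of_notMem (by simpa using hy), rr_zero η (not_lt.1 hy), abs_zero]

lemma rr_int (hRH : RiemannHypothesis) {η : ℝ} (hη : 0 < η) (hη1 : η ≤ 1 / 2) : Integrable (rr η) := by
  obtain ⟨C, hC, h⟩ := rr_bound hRH hη hη1
  refine Integrable.mono' (g := (Ioi (0 : ℝ)).indicator (fun y => C * Real.exp (-(η / 2) * y))) ?_
    (rr_meas η).aestronglyMeasurable (Filter.Eventually.of_forall h)
  rw [integrable_indicator_iff measurableSet_Ioi]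
  exact (exp_neg_integrableOn_Ioi 0 (by linarith : 0 < η / 2)).const_mul C

lemma rr_sq (hRH : RiemannHypothesis) {η : ℝ} (hη : 0 < η) (hη1 : η ≤ 1 / 2) :
    Integrable fun y => rr η y ^ 2 := by
  obtain ⟨C, hC, h⟩ := rr_bound hRH hη hη1
  refine Integrable.mono' (g := (Ioi (0 : ℝ)).indicator (fun y => C ^ 2 * Real.exp (-η * y))) ?_
    ((rr_meas η).pow_const 2).aestronglyMeasurable (Filter.Eventually.of_forall fun y => ?_)
  · rw [integrable_indicator_iff measurableSet_Ioi]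
    exact (exp_neg_integrableOn_Ioi 0 hη).const_mul _
  · rw [Real.norm_eq_abs, abs_of_nonneg (sq_nonneg _)]
    have h1 := h y
    by_cases hy : 0 < y
    · rw [indicator_of_mem (mem_Ioi.2 hy)] at h1 ⊢
      rw [← sq_abs]
      refine (pow_le_pow_left₀ (abs_nonneg _) h1 2).trans (le_of_eq ?_)
      rw [mul_pow, ← Real.exp_nat_mul]
      congr 2
      push_cast
      ring
    · rw [indicator_of_notMem (by simpa using hy), rr_zero η (not_lt.1 hy)]
      norm_num

lemma ft_rr (hRH : RiemannHypothesis) {η : ℝ} (hη : 0 < η) (t : ℝ) :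
    FT (rr η) t = ZF ⟨1 / 2 + η, t⟩ / ⟨1 / 2 + η, t⟩ := by
  have h1 := mel_eq hRH (s := (⟨1 / 2 + η, t⟩ : ℂ)) (by simp only; linarith)
  rw [← h1, mellin_eq_fourier, Real.fourier_real_eq_integral_exp_smul]
  unfold FT
  have h := integral_neg_eq_self (μ := (volume : Measure ℝ))
    (fun y : ℝ => cexp (-((t * y : ℝ) : ℂ) * I) * (rr η y : ℂ))
  rw [← h]
  congr 1
  funext y
  rw [smul_eq_mul]
  congr 1
  · congr 1
    simp only [Complex.neg_im]
    have : (π : ℂ) ≠ 0 := by exact_mod_cast Real.pi_ne_zero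
    push_cast
    field_simp
  · unfold rr
    simp only [Complex.neg_re, neg_neg, Complex.real_smul]
    push_cast
    congr 2
    ring

end Pool.Agent.U507.GM
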