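import Pool.Agent.U507.GM.PLa

/-!
# The variance integral and the real part of the logarithmic derivative of zeta
-/

set_option autoImplicit false

open Complex Filter Topology Set MeasureTheory Metric
open scoped ComplexConjugate FourierTransform Real

namespace Pool.Agent.U507.GM

/-- `2 sin(t δ / 2) / t` -/
noncomputable def gh (δ t : ℝ) : ℝ := δ * Real.sinc (t * δ / 2)

lemma gh_mul (δ t : ℝ) : t * gh δ t = 2 * Real.sin (t * δ / 2) := by
  unfold gh
  by_cases h : t * δ / 2 = 0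
  · rw [h, Real.sinc_zero, Real.sin_zero]
    linarith
  · have h1 : t ≠ 0 := by rintro rfl; simp at h
    have h2 : δ ≠ 0 := by rintro rfl; simp at h
    rw [Real.sinc_of_ne_zero h]
    field_simp

lemma gh_cont (δ : ℝ) : Continuous (gh δ) := by
  unfold gh
  exact continuous_const.mul (Real.continuous_sinc.comp (by fun_prop))

lemma gh_abs {δ : ℝ} (hδ : 0 < δ) (t : ℝ) : |gh δ t| ≤ δ := by
  unfold gh
  rw [abs_mul, abs_of_pos hδ]
  have := Real.abs_sinc_le_one (t * δ / 2)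
  nlinarith

lemma gh_abs' (δ : ℝ) {t : ℝ} (ht : t ≠ 0) : |gh δ t| ≤ 2 / |t| := by
  have h1 := gh_mul δ t
  have h2 : gh δ t = 2 * Real.sin (t * δ / 2) / t := by
    field_simp
    linarith
  rw [h2, abs_div, abs_mul, abs_two]
  have := Real.abs_sin_le_one (t * δ / 2)
  have h3 : 0 < |t| := abs_pos.2 ht
  gcongr
  linarith

lemma gh_neg (δ t : ℝ) : gh δ (-t) = gh δ t := by
  unfold gh
  rw [show -t * δ / 2 = -(t * δ / 2) by ring, Real.sinc_neg]

/-- the indicator function of `[-δ/2, δ/2]` -/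
noncomputable def chi (δ : ℝ) : ℝ → ℝ := (Icc (-(δ / 2)) (δ / 2)).indicator fun _ => 1

lemma chi_int (δ : ℝ) : Integrable (chi δ) := by
  unfold chi
  rw [integrable_indicator_iff measurableSet_Icc]
  exact integrableOn_const (by simp)

lemma chi_sq (δ y : ℝ) : chi δ y ^ 2 = chi δ y := by
  unfold chi
  by_cases h : y ∈ Icc (-(δ / 2)) (δ / 2)
  · simp [indicator_of_mem h]
  · simp [indicator_of_notMem h]

lemma chi_integral {δ : ℝ} (hδ : 0 < δ) : ∫ y, chi δ y ^ 2 = δ := by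
  simp_rw [chi_sq]
  unfold chi
  rw [integral_indicator measurableSet_Icc]
  simp only [integral_const, smul_eq_mul, mul_one]
  rw [measureReal_restrict_apply_univ, Real.volume_real_Icc]
  rw [max_eq_left (by linarith)]
  ring

lemma chi_ft {δ : ℝ} (hδ : 0 < δ) (t : ℝ) : FT (chi δ) t = gh δ t := by
  have e : FT (chi δ) t = ∫ y in (-(δ / 2))..(δ / 2), cexp (-((t : ℂ) * I) * y) := by
    rw [intervalIntegral.integral_of_le (by linarith), ← integral_Icc_eq_integral_Ioc,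
      ← integral_indicator measurableSet_Icc]
    unfold FT
    congr 1
    funext y
    unfold chi
    by_cases h : y ∈ Icc (-(δ / 2)) (δ / 2)
    · rw [indicator_of_mem h, indicator_of_mem h]
      push_cast
      rw [mul_one]
      congr 1
      ring
    · rw [indicator_of_notMem h, indicator_of_notMem h]
      simp
  rw [e]
  by_cases ht : t = 0
  · subst ht
    unfold gh
    simp
  · have htc : (t : ℂ) ≠ 0 := by exact_mod_cast ht
    have hc : -((t : ℂ) * I) ≠ 0 := neg_ne_zero.2 (mul_ne_zero htc I_ne_zero)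
    rw [integral_exp_mul_complex hc]
    have h1 := gh_mul δ t
    have h2 : (t : ℂ) * (gh δ t : ℂ) = 2 * Complex.sin ((t * δ / 2 : ℝ) : ℂ) := by
      rw [← Complex.ofReal_sin]
      exact_mod_cast h1
    have h3 : Complex.sin ((t * δ / 2 : ℝ) : ℂ) =
        (cexp (-((t : ℂ) * I) * ((-(δ / 2) : ℝ) : ℂ)) - cexp (-((t : ℂ) * I) * ((δ / 2 : ℝ) : ℂ))) / (2 * I) := by
      rw [Complex.sin]
      have a1 : -((t * δ / 2 : ℝ) : ℂ) * I = -((t : ℂ) * I) * ((δ / 2 : ℝ) : ℂ) := by push_cast; ring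
      have a2 : ((t * δ / 2 : ℝ) : ℂ) * I = -((t : ℂ) * I) * ((-(δ / 2) : ℝ) : ℂ) := by push_cast; ring
      rw [a1, a2]
      field_simp
      rw [I_sq]
      ring
    rw [h3] at h2
    have hI : I ≠ 0 := I_ne_zero
    rw [div_eq_iff hc]
    generalize cexp (-((t : ℂ) * I) * ((-(δ / 2) : ℝ) : ℂ)) = A at h2 ⊢
    generalize cexp (-((t : ℂ) * I) * ((δ / 2 : ℝ) : ℂ)) = B at h2 ⊢
    have h4 : (t : ℂ) * (gh δ t : ℂ) * I = A - B := by
      rw [h2]
      field_simp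
    linear_combination h4

/-- `e^{-(1/2+η)y} (Rf(e^{y+δ/2}) - Rf(e^{y-δ/2}))` -/
noncomputable def Ef (η δ y : ℝ) : ℝ :=
  Real.exp (-(1 / 2 + η) * y) * (Rf (Real.exp (y + δ / 2)) - Rf (Real.exp (y - δ / 2)))

lemma Ef_eq (η δ y : ℝ) : Ef η δ y = Real.exp ((1 / 2 + η) * (δ / 2)) * rr η (y + δ / 2) +
    (-Real.exp (-(1 / 2 + η) * (δ / 2))) * rr η (y + (-(δ / 2))) := by
  unfold Ef rr
  have e1 : Real.exp ((1 / 2 + η) * (δ / 2)) * Real.exp (-(1 / 2 + η) * (y + δ / 2)) =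
      Real.exp (-(1 / 2 + η) * y) := by
    rw [← Real.exp_add]
    congr 1
    ring
  have e2 : Real.exp (-(1 / 2 + η) * (δ / 2)) * Real.exp (-(1 / 2 + η) * (y + (-(δ / 2)))) =
      Real.exp (-(1 / 2 + η) * y) := by
    rw [← Real.exp_add]
    congr 1
    ring
  rw [sub_eq_add_neg y (δ / 2)]
  linear_combination (-Rf (Real.exp (y + δ / 2))) * e1 + Rf (Real.exp (y + (-(δ / 2)))) * e2

lemma Ef_int (hRH : RiemannHypothesis) {η : ℝ} (hη : 0 < η) (hη1 : η ≤ 1 / 2) (δ : ℝ) :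
    Integrable (Ef η δ) := by
  have e : Ef η δ = fun y => Real.exp ((1 / 2 + η) * (δ / 2)) * rr η (y + δ / 2) +
    (-Real.exp (-(1 / 2 + η) * (δ / 2))) * rr η (y + (-(δ / 2))) := funext (Ef_eq η δ)
  rw [e]
  exact (((rr_int hRH hη hη1).comp_add_right _).const_mul _).add
    (((rr_int hRH hη hη1).comp_add_right _).const_mul _)

lemma Ef_meas (η δ : ℝ) : Measurable (Ef η δ) := by
  unfold Ef
  refine (by fun_prop : Measurable fun y : ℝ => Real.exp (-(1 / 2 + η) * y)).mul (Measurable.sub ?_ ?_)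
  · exact Rf_meas.comp (by fun_prop)
  · exact Rf_meas.comp (by fun_prop)

lemma Ef_sq (hRH : RiemannHypothesis) {η : ℝ} (hη : 0 < η) (hη1 : η ≤ 1 / 2) (δ : ℝ) :
    Integrable fun y => Ef η δ y ^ 2 := by
  have h1 := ((rr_sq hRH hη hη1).comp_add_right (δ / 2)).const_mul
    (2 * Real.exp ((1 / 2 + η) * (δ / 2)) ^ 2)
  have h2 := ((rr_sq hRH hη hη1).comp_add_right (-(δ / 2))).const_mul
    (2 * Real.exp (-(1 / 2 + η) * (δ / 2)) ^ 2)
  refine Integrable.mono' (h1.add h2) ((Ef_meas η δ).pow_const 2).aestronglyMeasurable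
    (Filter.Eventually.of_forall fun y => ?_)
  rw [Real.norm_eq_abs, abs_of_nonneg (sq_nonneg _), Ef_eq]
  simp only [Pi.add_apply]
  nlinarith [sq_nonneg (Real.exp ((1 / 2 + η) * (δ / 2)) * rr η (y + δ / 2) -
    (-Real.exp (-(1 / 2 + η) * (δ / 2))) * rr η (y + (-(δ / 2))))]

/-- the multiplier -/
noncomputable def bb (η δ t : ℝ) : ℂ :=
  (cexp ((⟨1 / 2 + η, t⟩ : ℂ) * (δ / 2 : ℝ)) - cexp (-((⟨1 / 2 + η, t⟩ : ℂ) * (δ / 2 : ℝ)))) / ⟨1 / 2 + η, t⟩

lemma ft_Ef (hRH : RiemannHypothesis) {η : ℝ} (hη : 0 < η) (hη1 : η ≤ 1 / 2) (δ t : ℝ) :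
    FT (Ef η δ) t = bb η δ t * ZF ⟨1 / 2 + η, t⟩ := by
  have e : Ef η δ = fun y => Real.exp ((1 / 2 + η) * (δ / 2)) * rr η (y + δ / 2) +
    (-Real.exp (-(1 / 2 + η) * (δ / 2))) * rr η (y + (-(δ / 2))) := funext (Ef_eq η δ)
  have hi := rr_int hRH hη hη1
  rw [e, ft_add ((hi.comp_add_right _).const_mul _) ((hi.comp_add_right _).const_mul _),
    ft_smul (fun y => rr η (y + δ / 2)), ft_smul (fun y => rr η (y + (-(δ / 2)))), ft_shift (rr η), ft_shift (rr η),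
    ft_rr hRH hη]
  unfold bb
  have hs : (⟨1 / 2 + η, t⟩ : ℂ) = ((1 / 2 + η : ℝ) : ℂ) + (t : ℂ) * I := by
    apply Complex.ext <;> simp
  have e1 : cexp ((⟨1 / 2 + η, t⟩ : ℂ) * (δ / 2 : ℝ)) =
      (Real.exp ((1 / 2 + η) * (δ / 2)) : ℂ) * cexp (((t * (δ / 2) : ℝ) : ℂ) * I) := by
    rw [hs, Complex.ofReal_exp, ← Complex.exp_add]
    congr 1
    push_cast
    ring
  have e2 : cexp (-((⟨1 / 2 + η, t⟩ : ℂ) * (δ / 2 : ℝ))) =
      (Real.exp (-(1 / 2 + η) * (δ / 2)) : ℂ) * cexp (((t * (-(δ / 2)) : ℝ) : ℂ) * I) := by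
    rw [hs, Complex.ofReal_exp, ← Complex.exp_add]
    congr 1
    push_cast
    ring
  rw [e1, e2]
  push_cast
  ring

lemma s_norm_pos (η t : ℝ) (hη : 0 < η) : 0 < ‖(⟨1 / 2 + η, t⟩ : ℂ)‖ := by
  rw [norm_pos_iff]
  intro h
  have := congrArg Complex.re h
  simp at this
  linarith

lemma bb_gh {η δ : ℝ} (hη : 0 < η) (hη1 : η ≤ 1 / 2) (hδ : 0 < δ) (hδ1 : δ ≤ 1 / 2) (t : ℝ) :
    ‖bb η δ t - (gh δ t : ℂ)‖ ≤ 5 * δ / ‖(⟨1 / 2 + η, t⟩ : ℂ)‖ := by
  have hpos := s_norm_pos η t hη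
  have hs0 : (⟨1 / 2 + η, t⟩ : ℂ) ≠ 0 := norm_pos_iff.1 hpos
  rw [le_div_iff₀ hpos, ← norm_mul]
  obtain ⟨a, ha⟩ : ∃ a : ℝ, a = (1 / 2 + η) * (δ / 2) := ⟨_, rfl⟩
  have ha0 : 0 < a := by rw [ha]; positivity
  have ha1 : a ≤ δ / 2 := by
    rw [ha]
    nlinarith
  have hs : (⟨1 / 2 + η, t⟩ : ℂ) = ((1 / 2 + η : ℝ) : ℂ) + (t : ℂ) * I := by
    apply Complex.ext <;> simp
  have e1 : cexp ((⟨1 / 2 + η, t⟩ : ℂ) * (δ / 2 : ℝ)) = (Real.exp a : ℂ) *
      (Real.cos (t * δ / 2) + Real.sin (t * δ / 2) * I) := by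
    rw [hs, Complex.ofReal_exp, Complex.ofReal_cos, Complex.ofReal_sin, ← Complex.exp_mul_I, ← Complex.exp_add]
    congr 1
    rw [ha]
    push_cast
    ring
  have e2 : cexp (-((⟨1 / 2 + η, t⟩ : ℂ) * (δ / 2 : ℝ))) = (Real.exp (-a) : ℂ) *
      (Real.cos (t * δ / 2) - Real.sin (t * δ / 2) * I) := by
    have h1 : (Real.cos (t * δ / 2) - Real.sin (t * δ / 2) * I : ℂ) =
      Real.cos (-(t * δ / 2)) + Real.sin (-(t * δ / 2)) * I := by
      rw [Real.cos_neg, Real.sin_neg]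
      push_cast
      ring
    rw [h1, hs, Complex.ofReal_exp, Complex.ofReal_cos, Complex.ofReal_sin, ← Complex.exp_mul_I, ← Complex.exp_add]
    congr 1
    rw [ha]
    push_cast
    ring
  have h3 : (t : ℂ) * (gh δ t : ℂ) = 2 * (Real.sin (t * δ / 2) : ℂ) := by
    exact_mod_cast gh_mul δ t
  have e3 : (bb η δ t - (gh δ t : ℂ)) * (⟨1 / 2 + η, t⟩ : ℂ) =
      (((Real.exp a - Real.exp (-a)) * Real.cos (t * δ / 2) - (1 / 2 + η) * gh δ t : ℝ) : ℂ) +
      (((Real.exp a + Real.exp (-a) - 2) * Real.sin (t * δ / 2) : ℝ) : ℂ) * I := by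
    rw [sub_mul]
    unfold bb
    rw [div_mul_cancel₀ _ hs0, e1, e2]
    conv_lhs => rw [hs]
    push_cast at h3 ⊢
    linear_combination -(I * h3)
  rw [e3]
  refine (norm_add_le _ _).trans ?_
  rw [norm_mul, Complex.norm_I, mul_one, Complex.norm_real, Complex.norm_real, Real.norm_eq_abs,
    Real.norm_eq_abs]
  have hea : Real.exp a ≤ 1 + 2 * a := by
    have := Real.exp_bound_div_one_sub_of_interval (x := a) ha0.le (by linarith)
    refine this.trans ?_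
    rw [div_le_iff₀ (by linarith)]
    nlinarith
  have hea' : 1 - a ≤ Real.exp (-a) := by
    have := Real.add_one_le_exp (-a)
    linarith
  have hea2 : Real.exp (-a) ≤ 1 := Real.exp_le_one_iff.2 (by linarith)
  have hea3 : 1 ≤ Real.exp a := Real.one_le_exp ha0.le
  have hc := Real.abs_cos_le_one (t * δ / 2)
  have hsn := Real.abs_sin_le_one (t * δ / 2)
  have hg := gh_abs hδ t
  have b1 : |(Real.exp a - Real.exp (-a)) * Real.cos (t * δ / 2) - (1 / 2 + η) * gh δ t| ≤ 3 * a + δ := by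
    refine (abs_sub _ _).trans ?_
    rw [abs_mul, abs_mul, abs_of_nonneg (by linarith : 0 ≤ Real.exp a - Real.exp (-a)),
      abs_of_pos (by linarith : 0 < 1 / 2 + η)]
    have : (Real.exp a - Real.exp (-a)) * |Real.cos (t * δ / 2)| ≤ (Real.exp a - Real.exp (-a)) * 1 := by
      gcongr
      linarith
    have : (1 / 2 + η) * |gh δ t| ≤ 1 * δ := by
      gcongr
      linarith
    linarith
  have b2 : |(Real.exp a + Real.exp (-a) - 2) * Real.sin (t * δ / 2)| ≤ 2 * a := by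
    rw [abs_mul]
    have h4 : |Real.exp a + Real.exp (-a) - 2| ≤ 2 * a := by
      rw [abs_le]
      constructor <;> linarith
    calc _ ≤ 2 * a * 1 := by gcongr
      _ = 2 * a := by ring
  linarith

end Pool.Agent.U507.GM
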