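import Pool.Agent.U507.GM.PLb

/-!
# Plancherel for the even part
-/

set_option autoImplicit false

open Complex Filter Topology Set MeasureTheory Metric
open scoped ComplexConjugate FourierTransform Real

namespace Pool.Agent.U507.GM

/-- the even part -/
noncomputable def ev (f : ℝ → ℝ) (y : ℝ) : ℝ := 1 / 2 * (f y + f (-y))

lemma ev_int {f : ℝ → ℝ} (hf : Integrable f) : Integrable (ev f) :=
  (hf.add hf.comp_neg).const_mul _

lemma ev_ft {f : ℝ → ℝ} (hf : Integrable f) (t : ℝ) : FT (ev f) t = ((FT f t).re : ℂ) := by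
  have h1 : FT (ev f) t = ((1 / 2 : ℝ) : ℂ) * FT (fun y => f y + f (-y)) t :=
    ft_smul (fun y => f y + f (-y)) (1 / 2) t
  rw [h1, ft_add hf hf.comp_neg, ft_neg, Complex.add_conj]
  push_cast
  ring

lemma sq_of_two {f g : ℝ → ℝ} (hf : Integrable fun y => f y ^ 2) (hg : Integrable fun y => g y ^ 2)
    (hfm : AEStronglyMeasurable f) (hgm : AEStronglyMeasurable g) :
    Integrable fun y => f y * g y := by
  refine Integrable.mono' (hf.add hg) (hfm.mul hgm) (Filter.Eventually.of_forall fun y => ?_)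
  rw [Real.norm_eq_abs, abs_le]
  simp only [Pi.add_apply]
  constructor <;> nlinarith [sq_nonneg (f y + g y), sq_nonneg (f y - g y), sq_nonneg (f y), sq_nonneg (g y)]

lemma sq_neg' {f : ℝ → ℝ} (hf : Integrable fun y => f y ^ 2) : Integrable fun y => f (-y) ^ 2 :=
  hf.comp_neg

lemma ev_sq {f : ℝ → ℝ} (h1 : Integrable f) (hf : Integrable fun y => f y ^ 2) :
    Integrable fun y => ev f y ^ 2 := by
  have h2 := ((hf.add (sq_neg' hf)).add ((sq_of_two hf (sq_neg' hf) h1.1 h1.comp_neg.1).const_mul 2)).const_mul (1 / 4)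
  refine h2.congr (Filter.Eventually.of_forall fun y => ?_)
  simp only [Pi.add_apply, ev]
  ring

lemma int_add_sq {a b : ℝ → ℝ} (ha : Integrable fun t => a t ^ 2) (hb : Integrable fun t => b t ^ 2)
    (hab : Integrable fun t => a t * b t) :
    ∫ t, (a t + b t) ^ 2 = (∫ t, a t ^ 2) + (∫ t, b t ^ 2) + 2 * ∫ t, a t * b t := by
  have e : (fun t => (a t + b t) ^ 2) = fun t => (a t ^ 2 + b t ^ 2) + 2 * (a t * b t) := by
    funext t
    ring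
  have h1 : Integrable fun t => a t ^ 2 + b t ^ 2 := ha.add hb
  have h2 : Integrable fun t => 2 * (a t * b t) := hab.const_mul 2
  rw [e, integral_add h1 h2, integral_add ha hb, integral_const_mul]

lemma ev_sq_int {f : ℝ → ℝ} (h1 : Integrable f) (hf : Integrable fun y => f y ^ 2) :
    ∫ y, ev f y ^ 2 = 1 / 2 * (∫ y, f y ^ 2) + 1 / 2 * ∫ y, f y * f (-y) := by
  have h3 := sq_of_two hf (sq_neg' hf) h1.1 h1.comp_neg.1
  have h5 := int_add_sq (a := f) (b := fun y => f (-y)) hf (sq_neg' hf) h3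
  have h4 : ∫ y, f (-y) ^ 2 = ∫ y, f y ^ 2 := integral_neg_eq_self (fun y => f y ^ 2) volume
  have e : (fun y => ev f y ^ 2) = fun y => 1 / 4 * (f y + f (-y)) ^ 2 := by
    funext y
    unfold ev
    ring
  rw [e, integral_const_mul, h5, h4]
  ring

/-- **Plancherel for the real part of the transform** -/
lemma re_planch {f : ℝ → ℝ} (h1 : Integrable f) (hf : Integrable fun y => f y ^ 2) :
    Integrable (fun t => (FT f t).re ^ 2) ∧
      ∫ t, (FT f t).re ^ 2 = π * (∫ y, f y ^ 2) + π * ∫ y, f y * f (-y) := by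
  obtain ⟨h2, h3⟩ := ft_planch (ev_int h1) (ev_sq h1 hf)
  have e : (fun t => ‖FT (ev f) t‖ ^ 2) = fun t => (FT f t).re ^ 2 := by
    funext t
    rw [ev_ft h1, Complex.norm_real, Real.norm_eq_abs, sq_abs]
  rw [e] at h2 h3
  refine ⟨h2, ?_⟩
  rw [h3, ev_sq_int h1 hf]
  ring

/-- polarised form against the indicator function -/
lemma re_chi {f : ℝ → ℝ} (h1 : Integrable f) (hf : Integrable fun y => f y ^ 2) {δ : ℝ} (hδ : 0 < δ) :
    Integrable (fun t => (FT f t).re * gh δ t) ∧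
      ∫ t, (FT f t).re * gh δ t = 2 * π * ∫ y, ev f y * chi δ y := by
  have c1 := chi_int δ
  have c2 : Integrable fun y => chi δ y ^ 2 := by
    simp_rw [chi_sq]
    exact c1
  obtain ⟨a1, a2⟩ := ft_planch (ev_int h1) (ev_sq h1 hf)
  obtain ⟨b1, b2⟩ := ft_planch c1 c2
  have hec := sq_of_two (ev_sq h1 hf) c2 (ev_int h1).1 c1.1
  have s2 : Integrable fun y => (ev f y + chi δ y) ^ 2 := by
    refine (((ev_sq h1 hf).add c2).add (hec.const_mul 2)).congr (Filter.Eventually.of_forall fun y => ?_)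
    simp only [Pi.add_apply]
    ring
  obtain ⟨d1, d2⟩ := ft_planch (f := fun y => ev f y + chi δ y) ((ev_int h1).add c1) s2
  have ea : (fun t => ‖FT (ev f) t‖ ^ 2) = fun t => (FT f t).re ^ 2 := by
    funext t
    rw [ev_ft h1, Complex.norm_real, Real.norm_eq_abs, sq_abs]
  have eb : (fun t => ‖FT (chi δ) t‖ ^ 2) = fun t => gh δ t ^ 2 := by
    funext t
    rw [chi_ft hδ, Complex.norm_real, Real.norm_eq_abs, sq_abs]
  have ed : (fun t => ‖FT (fun y => ev f y + chi δ y) t‖ ^ 2) = fun t => ((FT f t).re + gh δ t) ^ 2 := by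
    funext t
    rw [ft_add (ev_int h1) c1, ev_ft h1, chi_ft hδ, ← Complex.ofReal_add, Complex.norm_real,
      Real.norm_eq_abs, sq_abs]
  rw [ea] at a1 a2
  rw [eb] at b1 b2
  rw [ed] at d1 d2
  have hprod := sq_of_two a1 b1 (Complex.continuous_re.comp (ft_cont h1)).aestronglyMeasurable
    (gh_cont δ).aestronglyMeasurable
  refine ⟨hprod, ?_⟩
  have e1 := int_add_sq (a := fun t => (FT f t).re) (b := gh δ) a1 b1 hprod
  have e2 := int_add_sq (a := ev f) (b := chi δ) (ev_sq h1 hf) c2 hec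
  rw [e1, e2, a2, b2] at d2
  linarith

lemma gh_sq_int {δ : ℝ} (hδ : 0 < δ) : Integrable (fun t => gh δ t ^ 2) ∧ ∫ t, gh δ t ^ 2 = 2 * π * δ := by
  have c1 := chi_int δ
  have c2 : Integrable fun y => chi δ y ^ 2 := by
    simp_rw [chi_sq]
    exact c1
  obtain ⟨b1, b2⟩ := ft_planch c1 c2
  have eb : (fun t => ‖FT (chi δ) t‖ ^ 2) = fun t => gh δ t ^ 2 := by
    funext t
    rw [chi_ft hδ, Complex.norm_real, Real.norm_eq_abs, sq_abs]
  rw [eb] at b1 b2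
  rw [chi_integral hδ] at b2
  exact ⟨b1, b2⟩

/-- the mean square of `(ζ'/ζ)(s)/s` -/
lemma J_bound (hRH : RiemannHypothesis) : ∃ C : ℝ, 0 < C ∧ ∀ η : ℝ, 0 < η → η ≤ 1 / 16 →
    Integrable (fun t => (‖ZF ⟨1 / 2 + η, t⟩‖ / ‖(⟨1 / 2 + η, t⟩ : ℂ)‖) ^ 2) ∧
      ∫ t, (‖ZF ⟨1 / 2 + η, t⟩‖ / ‖(⟨1 / 2 + η, t⟩ : ℂ)‖) ^ 2 ≤ C / η ^ 2 := by
  obtain ⟨C, hC, h⟩ := zf_crude hRH
  have hcont : ∀ η : ℝ, 0 < η → Continuous fun t : ℝ => (‖ZF ⟨1 / 2 + η, t⟩‖ / ‖(⟨1 / 2 + η, t⟩ : ℂ)‖) ^ 2 := by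
    intro η hη
    refine ((zf_cont hRH hη).norm.div ?_ fun t => (s_norm_pos η t hη).ne').pow 2
    have : (fun t : ℝ => ‖(⟨1 / 2 + η, t⟩ : ℂ)‖) = fun t : ℝ => ‖((1 / 2 + η : ℝ) : ℂ) + (t : ℂ) * I‖ := by
      funext t
      congr 1
      apply Complex.ext <;> simp
    rw [this]
    fun_prop
  -- log² (|t| + 3) ≤ K (1 + |t|)^(1/2)
  obtain ⟨K, hK, hlog⟩ : ∃ K : ℝ, 0 < K ∧ ∀ t : ℝ, Real.log (|t| + 3) ^ 2 ≤ K * (1 + t ^ 2) ^ ((1 : ℝ) / 4) := by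
    refine ⟨256, by norm_num, fun t => ?_⟩
    have h1 : (0 : ℝ) < |t| + 3 := by positivity
    have h2 := Real.log_le_rpow_div h1.le (ε := 1 / 4) (by norm_num)
    have h3 : 0 ≤ Real.log (|t| + 3) := by linarith [log3_pos t]
    have h4 : Real.log (|t| + 3) ^ 2 ≤ 16 * (|t| + 3) ^ ((1 : ℝ) / 2) := by
      calc Real.log (|t| + 3) ^ 2 ≤ ((|t| + 3) ^ ((1 : ℝ) / 4) / (1 / 4)) ^ 2 := pow_le_pow_left₀ h3 h2 2
        _ = 16 * ((|t| + 3) ^ ((1 : ℝ) / 4)) ^ 2 := by ring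
        _ = 16 * (|t| + 3) ^ ((1 : ℝ) / 2) := by
            rw [← Real.rpow_natCast, ← Real.rpow_mul h1.le]
            norm_num
    have h5 : (|t| + 3) ^ ((1 : ℝ) / 2) ≤ (16 ^ 2 * (1 + t ^ 2) : ℝ) ^ ((1 : ℝ) / 4) := by
      have : (|t| + 3) ^ ((1 : ℝ) / 2) = ((|t| + 3) ^ (2 : ℝ)) ^ ((1 : ℝ) / 4) := by
        rw [← Real.rpow_mul h1.le]
        norm_num
      rw [this]
      apply Real.rpow_le_rpow (by positivity) _ (by norm_num)
      rw [Real.rpow_two]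
      nlinarith [sq_abs t, abs_nonneg t, sq_nonneg (|t| - 1)]
    have h6 : (16 ^ 2 * (1 + t ^ 2) : ℝ) ^ ((1 : ℝ) / 4) = 4 * (1 + t ^ 2) ^ ((1 : ℝ) / 4) := by
      rw [Real.mul_rpow (by norm_num) (by positivity)]
      congr 1
      rw [show (16 ^ 2 : ℝ) = 4 ^ (4 : ℝ) by norm_num, ← Real.rpow_mul (by norm_num)]
      norm_num
    have h7 : (0 : ℝ) ≤ (1 + t ^ 2) ^ ((1 : ℝ) / 4) := by positivity
    nlinarith
  have hI : Integrable fun t : ℝ => (1 + t ^ 2) ^ (-(3 : ℝ) / 4) := by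
    have := integrable_rpow_neg_one_add_norm_sq (E := ℝ) (μ := volume) (r := 3 / 2) (by simp; norm_num)
    refine this.congr (Filter.Eventually.of_forall fun t => ?_)
    simp only [Real.norm_eq_abs, sq_abs]
    congr 1
    norm_num
  have hI0 : 0 ≤ ∫ t : ℝ, (1 + t ^ 2) ^ (-(3 : ℝ) / 4) := integral_nonneg fun t => by positivity
  have hbd : ∀ η : ℝ, 0 < η → η ≤ 1 / 16 → ∀ t : ℝ,
      (‖ZF ⟨1 / 2 + η, t⟩‖ / ‖(⟨1 / 2 + η, t⟩ : ℂ)‖) ^ 2 ≤ 4 * C ^ 2 * K / η ^ 2 * (1 + t ^ 2) ^ (-(3 : ℝ) / 4) := by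
    intro η hη hη1 t
    have h1 := h t η hη hη1
    have h2 : ‖(⟨1 / 2 + η, t⟩ : ℂ)‖ ^ 2 = (1 / 2 + η) ^ 2 + t ^ 2 := by
      rw [← Complex.normSq_eq_norm_sq, Complex.normSq_apply]
      ring
    have h3 : 1 / 4 * (1 + t ^ 2) ≤ ‖(⟨1 / 2 + η, t⟩ : ℂ)‖ ^ 2 := by
      rw [h2]
      nlinarith
    rw [div_pow]
    have h4 : ‖ZF ⟨1 / 2 + η, t⟩‖ ^ 2 ≤ C ^ 2 * Real.log (|t| + 3) ^ 2 / η ^ 2 := by
      refine (pow_le_pow_left₀ (norm_nonneg _) h1 2).trans (le_of_eq ?_)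
      rw [div_pow, mul_pow]
    have h5 : (0 : ℝ) < 1 + t ^ 2 := by positivity
    calc ‖ZF ⟨1 / 2 + η, t⟩‖ ^ 2 / ‖(⟨1 / 2 + η, t⟩ : ℂ)‖ ^ 2 ≤
          (C ^ 2 * (K * (1 + t ^ 2) ^ ((1 : ℝ) / 4)) / η ^ 2) / (1 / 4 * (1 + t ^ 2)) := by
          gcongr
          refine h4.trans ?_
          gcongr
          exact hlog t
      _ = 4 * C ^ 2 * K / η ^ 2 * ((1 + t ^ 2) ^ ((1 : ℝ) / 4) / (1 + t ^ 2)) := by
          field_simp
      _ = 4 * C ^ 2 * K / η ^ 2 * (1 + t ^ 2) ^ (-(3 : ℝ) / 4) := by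
          congr 1
          rw [div_eq_iff h5.ne']
          nth_rewrite 3 [← Real.rpow_one (1 + t ^ 2)]
          rw [← Real.rpow_add h5]
          norm_num
  refine ⟨4 * C ^ 2 * K * (1 + ∫ t : ℝ, (1 + t ^ 2) ^ (-(3 : ℝ) / 4)), by positivity, fun η hη hη1 => ?_⟩
  have hint : Integrable (fun t => (‖ZF ⟨1 / 2 + η, t⟩‖ / ‖(⟨1 / 2 + η, t⟩ : ℂ)‖) ^ 2) := by
    refine Integrable.mono' (hI.const_mul (4 * C ^ 2 * K / η ^ 2)) (hcont η hη).aestronglyMeasurable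
      (Filter.Eventually.of_forall fun t => ?_)
    rw [Real.norm_eq_abs, abs_of_nonneg (sq_nonneg _)]
    exact hbd η hη hη1 t
  refine ⟨hint, ?_⟩
  calc ∫ t, (‖ZF ⟨1 / 2 + η, t⟩‖ / ‖(⟨1 / 2 + η, t⟩ : ℂ)‖) ^ 2 ≤
        ∫ t, 4 * C ^ 2 * K / η ^ 2 * (1 + t ^ 2) ^ (-(3 : ℝ) / 4) :=
        integral_mono hint (hI.const_mul _) fun t => hbd η hη hη1 t
    _ = 4 * C ^ 2 * K / η ^ 2 * ∫ t : ℝ, (1 + t ^ 2) ^ (-(3 : ℝ) / 4) := integral_const_mul _ _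
    _ ≤ 4 * C ^ 2 * K / η ^ 2 * (1 + ∫ t : ℝ, (1 + t ^ 2) ^ (-(3 : ℝ) / 4)) := by gcongr; linarith
    _ = _ := by ring

end Pool.Agent.U507.GM
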