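import Pool.Agent.U507.GM.PLc

/-!
# The variance integral and the real part of the logarithmic derivative of zeta
-/

set_option autoImplicit false

open Complex Filter Topology Set MeasureTheory Metric
open scoped ComplexConjugate FourierTransform Real

namespace Pool.Agent.U507.GM

lemma Ef_zero (η : ℝ) {δ y : ℝ} (hδ : 0 < δ) (hy : y ≤ -(δ / 2)) : Ef η δ y = 0 := by
  unfold Ef
  rw [Rf_zero (by rw [← Real.exp_zero]; exact Real.exp_le_exp.2 (by linarith)),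
    Rf_zero (by rw [← Real.exp_zero]; exact Real.exp_le_exp.2 (by linarith))]
  simp

lemma Rf_small {u : ℝ} (h0 : 0 ≤ u) (h1 : u ≤ 1 / 2) : |Rf (Real.exp u)| ≤ 2 * u := by
  have he : Real.exp u ≤ 1 + 2 * u := by
    have := Real.exp_bound_div_one_sub_of_interval (x := u) h0 (by linarith)
    refine this.trans ?_
    rw [div_le_iff₀ (by linarith)]
    nlinarith
  have he1 : 1 ≤ Real.exp u := Real.one_le_exp h0
  rcases eq_or_lt_of_le h1 with h2 | h2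
  · -- `e^{1/2} < 2`
    have h3 : Real.exp u < 2 := by
      have h4 : Real.exp u ^ 2 < 2 ^ 2 := by
        rw [← Real.exp_nat_mul, h2]
        norm_num
        linarith [Real.exp_one_lt_d9]
      exact lt_of_pow_lt_pow_left₀ 2 (by norm_num) h4
    rw [Rf_eq he1, Chebyshev.psi_eq_zero_of_lt_two h3, abs_le]
    constructor <;> linarith
  · have h3 : Real.exp u < 2 := by linarith
    rw [Rf_eq he1, Chebyshev.psi_eq_zero_of_lt_two h3, abs_le]
    constructor <;> linarith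

lemma Ef_small {η δ y : ℝ} (hη : 0 < η) (hη1 : η ≤ 1 / 2) (_hδ : 0 < δ) (hδ1 : δ ≤ 1 / 2)
    (h1 : -(δ / 2) ≤ y) (h2 : y ≤ δ / 2) : |Ef η δ y| ≤ 4 * δ := by
  unfold Ef
  rw [Rf_zero (x := Real.exp (y - δ / 2)) (by rw [← Real.exp_zero]; exact Real.exp_le_exp.2 (by linarith)), sub_zero,
    abs_mul, abs_of_pos (Real.exp_pos _)]
  have h3 := Rf_small (u := y + δ / 2) (by linarith) (by linarith)
  have h4 : Real.exp (-(1 / 2 + η) * y) ≤ 2 := by
    have h5 : -(1 / 2 + η) * y ≤ 1 / 4 := by nlinarith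
    have h6 := Real.exp_bound_div_one_sub_of_interval (x := 1 / 4) (by norm_num) (by norm_num)
    have h7 := Real.exp_le_exp.2 h5
    norm_num at h6
    linarith
  calc Real.exp (-(1 / 2 + η) * y) * |Rf (Real.exp (y + δ / 2))| ≤ 2 * (2 * (y + δ / 2)) := by
        gcongr
    _ ≤ 4 * δ := by linarith

lemma chi_eq (δ y : ℝ) : chi δ y = if -(δ / 2) ≤ y ∧ y ≤ δ / 2 then 1 else 0 := by
  unfold chi
  by_cases h : y ∈ Icc (-(δ / 2)) (δ / 2)
  · rw [indicator_of_mem h, if_pos ⟨h.1, h.2⟩]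
  · rw [indicator_of_notMem h, if_neg fun h' => h ⟨h'.1, h'.2⟩]

lemma chi_int1 {δ : ℝ} (hδ : 0 < δ) : ∫ y, chi δ y = δ := by
  have := chi_integral hδ
  simp_rw [chi_sq] at this
  exact this

lemma cross_small {η δ : ℝ} (hη : 0 < η) (hη1 : η ≤ 1 / 2) (hδ : 0 < δ) (hδ1 : δ ≤ 1 / 2) :
    |∫ y, Ef η δ y * Ef η δ (-y)| ≤ 16 * δ ^ 3 := by
  have h1 : ∀ y, ‖Ef η δ y * Ef η δ (-y)‖ ≤ 16 * δ ^ 2 * chi δ y := by
    intro y
    rw [chi_eq]
    split_ifs with h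
    · rw [norm_mul, Real.norm_eq_abs, Real.norm_eq_abs]
      have h2 := Ef_small hη hη1 hδ hδ1 h.1 h.2
      have h3 := Ef_small (y := -y) hη hη1 hδ hδ1 (by linarith) (by linarith)
      calc |Ef η δ y| * |Ef η δ (-y)| ≤ (4 * δ) * (4 * δ) := by gcongr
        _ = _ := by ring
    · rcases not_and_or.1 h with h | h
      · rw [Ef_zero η hδ (by linarith)]
        simp
      · rw [Ef_zero (y := -y) η hδ (by linarith)]
        simp
  have h2 := norm_integral_le_of_norm_le (μ := volume) ((chi_int δ).const_mul (16 * δ ^ 2))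
    (Filter.Eventually.of_forall h1)
  rw [integral_const_mul, chi_int1 hδ, Real.norm_eq_abs] at h2
  linarith

lemma evchi_small {η δ : ℝ} (hη : 0 < η) (hη1 : η ≤ 1 / 2) (hδ : 0 < δ) (hδ1 : δ ≤ 1 / 2) :
    |∫ y, ev (Ef η δ) y * chi δ y| ≤ 4 * δ ^ 2 := by
  have h1 : ∀ y, ‖ev (Ef η δ) y * chi δ y‖ ≤ 4 * δ * chi δ y := by
    intro y
    rw [chi_eq]
    split_ifs with h
    · rw [mul_one, Real.norm_eq_abs, mul_one]
      have h2 := abs_le.1 (Ef_small hη hη1 hδ hδ1 h.1 h.2)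
      have h3 := abs_le.1 (Ef_small (y := -y) hη hη1 hδ hδ1 (by linarith) (by linarith))
      unfold ev
      rw [abs_le]
      constructor <;> linarith [h2.1, h2.2, h3.1, h3.2]
    · simp
  have h2 := norm_integral_le_of_norm_le (μ := volume) ((chi_int δ).const_mul (4 * δ))
    (Filter.Eventually.of_forall h1)
  rw [integral_const_mul, chi_int1 hδ, Real.norm_eq_abs] at h2
  linarith

/-- **Plancherel**: the variance integral against the real part of the logarithmic derivative -/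
theorem pl (hRH : RiemannHypothesis) : ∃ C : ℝ, 0 < C ∧ ∀ η δ : ℝ, 0 < η → η ≤ 1 / 16 → 0 < δ → δ ≤ 1 / 2 →
    Integrable (fun t => gh δ t ^ 2 * (ZF ⟨1 / 2 + η, t⟩).re ^ 2) ∧
    Integrable (fun t => gh δ t ^ 2 * (ZF ⟨1 / 2 + η, t⟩).re) ∧
    (∀ ε : ℝ, 0 < ε → ε ≤ 1 → ∫ t, gh δ t ^ 2 * (ZF ⟨1 / 2 + η, t⟩).re ^ 2 ≤
      (1 + ε) * π * (∫ y, Ef η δ y ^ 2) + C / ε * δ ^ 2 / η ^ 2) ∧
    π * (∫ y, Ef η δ y ^ 2) ≤ 2 * (∫ t, gh δ t ^ 2 * (ZF ⟨1 / 2 + η, t⟩).re ^ 2) + C * δ ^ 2 / η ^ 2 ∧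
    |∫ t, gh δ t ^ 2 * (ZF ⟨1 / 2 + η, t⟩).re| ≤ C * (δ * √δ) / η ^ 2 := by
  obtain ⟨CJ, hCJ, hJ⟩ := J_bound hRH
  refine ⟨1000 * (1 + CJ), by positivity, fun η δ hη hη1 hδ hδ1 => ?_⟩
  obtain ⟨hJi, hJ⟩ := hJ η hη hη1
  have hη2 : η ≤ 1 / 2 := by linarith
  have hEi := Ef_int hRH hη hη2 δ
  have hEs := Ef_sq hRH hη hη2 δ
  obtain ⟨hq, hqe⟩ := re_planch hEi hEs
  obtain ⟨hc, hce⟩ := re_chi hEi hEs hδ
  obtain ⟨hg, hge⟩ := gh_sq_int hδ
  have hx := abs_le.1 (cross_small hη hη2 hδ hδ1)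
  have hxc := abs_le.1 (evchi_small hη hη2 hδ hδ1)
  obtain ⟨j, hj⟩ : ∃ j : ℝ → ℝ, j = fun t => ‖ZF ⟨1 / 2 + η, t⟩‖ / ‖(⟨1 / 2 + η, t⟩ : ℂ)‖ := ⟨_, rfl⟩
  have hj' : ∀ t, ‖ZF ⟨1 / 2 + η, t⟩‖ / ‖(⟨1 / 2 + η, t⟩ : ℂ)‖ = j t := fun t => by rw [hj]
  simp_rw [hj'] at hJi hJ
  obtain ⟨z, hz⟩ : ∃ z : ℝ → ℝ, z = fun t => (ZF ⟨1 / 2 + η, t⟩).re := ⟨_, rfl⟩
  have hz' : ∀ t, (ZF ⟨1 / 2 + η, t⟩).re = z t := fun t => by rw [hz]
  simp_rw [hz']
  have hzc : Continuous z := by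
    rw [hz]
    exact Complex.continuous_re.comp (zf_cont hRH hη)
  obtain ⟨q, hqd⟩ : ∃ q : ℝ → ℝ, q = fun t => (FT (Ef η δ) t).re := ⟨_, rfl⟩
  have hq' : ∀ t, (FT (Ef η δ) t).re = q t := fun t => by rw [hqd]
  have hqc : Continuous q := by
    rw [hqd]
    exact Complex.continuous_re.comp (ft_cont hEi)
  have hdiff : ∀ t, |q t - gh δ t * z t| ≤ 5 * δ * j t := by
    intro t
    rw [hqd, hz, hj]
    simp only
    rw [ft_Ef hRH hη hη2]
    have h1 : (bb η δ t * ZF ⟨1 / 2 + η, t⟩).re - gh δ t * (ZF ⟨1 / 2 + η, t⟩).re =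
        ((bb η δ t - (gh δ t : ℂ)) * ZF ⟨1 / 2 + η, t⟩).re := by
      rw [sub_mul, Complex.sub_re, Complex.re_ofReal_mul]
    rw [h1]
    refine (Complex.abs_re_le_norm _).trans ?_
    rw [norm_mul]
    have h2 := bb_gh hη hη2 hδ hδ1 t
    calc ‖bb η δ t - (gh δ t : ℂ)‖ * ‖ZF ⟨1 / 2 + η, t⟩‖ ≤
          5 * δ / ‖(⟨1 / 2 + η, t⟩ : ℂ)‖ * ‖ZF ⟨1 / 2 + η, t⟩‖ := by gcongr
      _ = _ := by ring
  simp_rw [hq'] at hq hqe hc hce
  have hj0 : ∀ t, 0 ≤ j t := fun t => by rw [hj]; positivity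
  have hηp : 0 < η ^ 2 := by positivity
  have hd2 : δ ^ 2 ≤ δ ^ 2 / η ^ 2 := by
    rw [le_div_iff₀ hηp]
    have : η ^ 2 ≤ 1 := by nlinarith
    nlinarith [sq_nonneg δ]
  have hCJ2 : δ ^ 2 * (∫ t, j t ^ 2) ≤ CJ * (δ ^ 2 / η ^ 2) := by
    calc δ ^ 2 * (∫ t, j t ^ 2) ≤ δ ^ 2 * (CJ / η ^ 2) := by gcongr
      _ = _ := by ring
  obtain ⟨D, hD⟩ : ∃ D : ℝ, D = δ ^ 2 / η ^ 2 := ⟨_, rfl⟩
  rw [← hD] at hCJ2 hd2
  have hD0 : 0 ≤ D := by rw [hD]; positivity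
  have e9 : ∀ a : ℝ, a * δ ^ 2 / η ^ 2 = a * D := fun a => by rw [hD]; ring
  simp_rw [e9]
  have hd3 : δ ^ 3 ≤ D := by
    refine le_trans ?_ hd2
    have : 0 ≤ δ ^ 2 := sq_nonneg δ
    nlinarith
  -- pointwise inequalities
  have p1 : ∀ ε : ℝ, 0 < ε → ∀ t, gh δ t ^ 2 * z t ^ 2 ≤ (1 + ε) * q t ^ 2 + (1 + 1 / ε) * (25 * δ ^ 2) * j t ^ 2 := by
    intro ε hε t
    have h1 := abs_le.1 (hdiff t)
    obtain ⟨e, he⟩ : ∃ e : ℝ, e = q t - gh δ t * z t := ⟨_, rfl⟩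
    have h2 : e ^ 2 ≤ 25 * δ ^ 2 * j t ^ 2 := by
      have : |e| ≤ 5 * δ * j t := by rw [he]; exact hdiff t
      calc e ^ 2 = |e| ^ 2 := (sq_abs e).symm
        _ ≤ (5 * δ * j t) ^ 2 := pow_le_pow_left₀ (abs_nonneg _) this 2
        _ = _ := by ring
    have h3 : gh δ t * z t = q t - e := by rw [he]; ring
    have h4 : gh δ t ^ 2 * z t ^ 2 = (q t - e) ^ 2 := by rw [← h3]; ring
    rw [h4]
    have h5 : (q t - e) ^ 2 ≤ (1 + ε) * q t ^ 2 + (1 + 1 / ε) * e ^ 2 := by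
      have h6 : 0 ≤ (1 / ε) * (ε * q t + e) ^ 2 := by positivity
      have h7 : (1 / ε) * (ε * q t + e) ^ 2 = ε * q t ^ 2 + 2 * (q t * e) + (1 / ε) * e ^ 2 := by
        field_simp
        ring
      nlinarith
    have h8 : (1 + 1 / ε) * e ^ 2 ≤ (1 + 1 / ε) * (25 * δ ^ 2 * j t ^ 2) := by gcongr
    linarith
  have p2 : ∀ t, q t ^ 2 ≤ 2 * (gh δ t ^ 2 * z t ^ 2) + 50 * δ ^ 2 * j t ^ 2 := by
    intro t
    have : |q t - gh δ t * z t| ≤ 5 * δ * j t := hdiff t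
    have h2 : (q t - gh δ t * z t) ^ 2 ≤ 25 * δ ^ 2 * j t ^ 2 := by
      calc (q t - gh δ t * z t) ^ 2 = |q t - gh δ t * z t| ^ 2 := (sq_abs _).symm
        _ ≤ (5 * δ * j t) ^ 2 := pow_le_pow_left₀ (abs_nonneg _) this 2
        _ = _ := by ring
    nlinarith [sq_nonneg (q t - 2 * (gh δ t * z t))]
  have hN : Integrable (fun t => gh δ t ^ 2 * z t ^ 2) := by
    refine Integrable.mono' ((hq.const_mul (1 + 1)).add (hJi.const_mul ((1 + 1 / 1) * (25 * δ ^ 2))))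
      (((gh_cont δ).pow 2).mul (hzc.pow 2)).aestronglyMeasurable (Filter.Eventually.of_forall fun t => ?_)
    rw [Real.norm_eq_abs, abs_of_nonneg (by positivity)]
    exact p1 1 one_pos t
  have hq1 : Integrable (fun t => gh δ t * (gh δ t * z t)) :=
    sq_of_two hg (by simpa [mul_pow] using hN) (gh_cont δ).aestronglyMeasurable
      ((gh_cont δ).mul hzc).aestronglyMeasurable
  have hq2 : Integrable (fun t => gh δ t ^ 2 * z t) := by
    refine hq1.congr (Filter.Eventually.of_forall fun t => ?_)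
    show gh δ t * (gh δ t * z t) = gh δ t ^ 2 * z t
    ring
  refine ⟨hN, hq2, fun ε hε hε1 => ?_, ?_, ?_⟩
  · have h1 : ∫ t, gh δ t ^ 2 * z t ^ 2 ≤ ∫ t, ((1 + ε) * q t ^ 2 + (1 + 1 / ε) * (25 * δ ^ 2) * j t ^ 2) :=
      integral_mono hN ((hq.const_mul _).add (hJi.const_mul _)) fun t => p1 ε hε t
    rw [integral_add (hq.const_mul _) (hJi.const_mul _), integral_const_mul, integral_const_mul, hqe] at h1
    have h3 : (1 + 1 / ε) * (25 * δ ^ 2) * (∫ t, j t ^ 2) ≤ 50 / ε * (CJ * D) := by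
      calc (1 + 1 / ε) * (25 * δ ^ 2) * (∫ t, j t ^ 2) = (1 + 1 / ε) * 25 * (δ ^ 2 * ∫ t, j t ^ 2) := by ring
        _ ≤ (1 + 1 / ε) * 25 * (CJ * D) := by gcongr
        _ ≤ (2 / ε) * 25 * (CJ * D) := by
            gcongr
            rw [le_div_iff₀ hε]
            have : (1 + 1 / ε) * ε = ε + 1 := by field_simp
            linarith
        _ = _ := by ring
    have h4 : (1 + ε) * (π * ∫ y, Ef η δ y * Ef η δ (-y)) ≤ 2 * (4 * (16 * D)) := by
      have hp : π ≤ 4 := Real.pi_le_four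
      have hx2 : ∫ y, Ef η δ y * Ef η δ (-y) ≤ 16 * D := by linarith [hx.2]
      have : π * (∫ y, Ef η δ y * Ef η δ (-y)) ≤ 4 * (16 * D) := by
        calc π * (∫ y, Ef η δ y * Ef η δ (-y)) ≤ π * (16 * D) := by
              have := Real.pi_pos
              gcongr
          _ ≤ 4 * (16 * D) := by gcongr
      calc (1 + ε) * (π * ∫ y, Ef η δ y * Ef η δ (-y)) ≤ (1 + ε) * (4 * (16 * D)) := by gcongr
        _ ≤ 2 * (4 * (16 * D)) := by gcongr; linarith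
    have h5 : 128 * D ≤ 128 / ε * D := by
      gcongr
      rw [le_div_iff₀ hε]
      linarith
    calc ∫ t, gh δ t ^ 2 * z t ^ 2 ≤ (1 + ε) * π * (∫ y, Ef η δ y ^ 2) + (128 / ε * D + 50 / ε * (CJ * D)) := by
          linarith
      _ ≤ (1 + ε) * π * (∫ y, Ef η δ y ^ 2) + 1000 * (1 + CJ) / ε * D := by
          have : 128 / ε * D + 50 / ε * (CJ * D) = (128 + 50 * CJ) / ε * D := by ring
          rw [this]
          gcongr
          linarith
  · have h1 : ∫ t, q t ^ 2 ≤ ∫ t, (2 * (gh δ t ^ 2 * z t ^ 2) + 50 * δ ^ 2 * j t ^ 2) :=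
      integral_mono hq ((hN.const_mul _).add (hJi.const_mul _)) fun t => p2 t
    rw [integral_add (hN.const_mul _) (hJi.const_mul _), integral_const_mul, integral_const_mul, hqe] at h1
    have h4 : -(4 * (16 * D)) ≤ π * ∫ y, Ef η δ y * Ef η δ (-y) := by
      have hp : π ≤ 4 := Real.pi_le_four
      have hx2 : -(16 * D) ≤ ∫ y, Ef η δ y * Ef η δ (-y) := by linarith [hx.1]
      have hpp := Real.pi_pos
      have h16 : 0 ≤ 16 * D := by positivity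
      nlinarith
    have h5 : 50 * δ ^ 2 * (∫ t, j t ^ 2) ≤ 50 * (CJ * D) := by
      rw [mul_assoc]
      gcongr
    have h6 : 1000 * (1 + CJ) * D = 1000 * D + 1000 * (CJ * D) := by ring
    have h7 : 0 ≤ CJ * D := by positivity
    rw [h6]
    linarith
  · have hs : √δ * √δ = δ := Real.mul_self_sqrt hδ.le
    have hs0 : 0 < √δ := Real.sqrt_pos.2 hδ
    have hs1 : √δ ≤ 1 := Real.sqrt_le_one.2 (by linarith)
    have p3 : ∀ t, |gh δ t ^ 2 * z t - q t * gh δ t| ≤ 3 * √δ * gh δ t ^ 2 + 3 * (δ * √δ) * j t ^ 2 := by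
      intro t
      have h1 := hdiff t
      have h2 : gh δ t ^ 2 * z t - q t * gh δ t = -(gh δ t) * (q t - gh δ t * z t) := by ring
      rw [h2, abs_mul, abs_neg]
      have h3 : |gh δ t| * |q t - gh δ t * z t| ≤ |gh δ t| * (5 * δ * j t) := by gcongr
      refine h3.trans ?_
      have h4 := sq_nonneg (|gh δ t| - √δ * j t)
      have h5 : 0 ≤ √δ * (|gh δ t| - √δ * j t) ^ 2 := by positivity
      have h6 : √δ * (|gh δ t| - √δ * j t) ^ 2 = √δ * |gh δ t| ^ 2 - 2 * ((√δ * √δ) * (|gh δ t| * j t)) +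
          (√δ * √δ) * √δ * j t ^ 2 := by ring
      rw [h6, hs, sq_abs] at h5
      have h7 : 0 ≤ √δ * gh δ t ^ 2 := by positivity
      have h8 : 0 ≤ δ * √δ * j t ^ 2 := by positivity
      have h9 : |gh δ t| * (5 * δ * j t) = 5 * (δ * (|gh δ t| * j t)) := by ring
      rw [h9]
      linarith
    have hI2 : Integrable (fun t => 3 * √δ * gh δ t ^ 2 + 3 * (δ * √δ) * j t ^ 2) :=
      (hg.const_mul _).add (hJi.const_mul _)
    have h1 : |∫ t, (gh δ t ^ 2 * z t - q t * gh δ t)| ≤ ∫ t, (3 * √δ * gh δ t ^ 2 + 3 * (δ * √δ) * j t ^ 2) := by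
      rw [← Real.norm_eq_abs]
      refine norm_integral_le_of_norm_le hI2 (Filter.Eventually.of_forall fun t => ?_)
      rw [Real.norm_eq_abs]
      exact p3 t
    rw [integral_add (hg.const_mul _) (hJi.const_mul _), integral_const_mul, integral_const_mul, hge,
      integral_sub hq2 hc, hce] at h1
    have h2 := abs_le.1 h1
    have hp : π ≤ 4 := Real.pi_le_four
    have hpp := Real.pi_pos
    obtain ⟨W, hW⟩ : ∃ W : ℝ, W = (δ * √δ) / η ^ 2 := ⟨_, rfl⟩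
    have hW0 : 0 ≤ W := by rw [hW]; positivity
    have w1 : δ * √δ ≤ W := by
      rw [hW, le_div_iff₀ hηp]
      have : η ^ 2 ≤ 1 := by nlinarith
      have : 0 ≤ δ * √δ := by positivity
      nlinarith
    have w2 : δ ^ 2 ≤ δ * √δ := by
      rw [pow_two]
      gcongr
      nlinarith
    have w3 : (δ * √δ) * (∫ t, j t ^ 2) ≤ CJ * W := by
      calc (δ * √δ) * (∫ t, j t ^ 2) ≤ (δ * √δ) * (CJ / η ^ 2) := by gcongr
        _ = _ := by rw [hW]; ring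
    have w4 : 3 * √δ * (2 * π * δ) ≤ 24 * W := by
      have : 3 * √δ * (2 * π * δ) = 6 * π * (δ * √δ) := by ring
      rw [this]
      calc 6 * π * (δ * √δ) ≤ 6 * 4 * (δ * √δ) := by gcongr
        _ = 24 * (δ * √δ) := by ring
        _ ≤ 24 * W := by gcongr
    have w5 : |2 * π * ∫ y, ev (Ef η δ) y * chi δ y| ≤ 32 * W := by
      rw [abs_mul, abs_of_pos (by positivity)]
      calc 2 * π * |∫ y, ev (Ef η δ) y * chi δ y| ≤ 2 * 4 * (4 * δ ^ 2) := by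
            gcongr
            exact abs_le.2 hxc
        _ = 32 * δ ^ 2 := by ring
        _ ≤ 32 * W := by linarith
    have w6 := abs_le.1 w5
    have e10 : 1000 * (1 + CJ) * (δ * √δ) / η ^ 2 = 1000 * (1 + CJ) * W := by rw [hW]; ring
    have w7 : 3 * (δ * √δ) * (∫ t, j t ^ 2) ≤ 3 * (CJ * W) := by
      rw [mul_assoc]
      gcongr
    have w8 : 1000 * (1 + CJ) * W = 1000 * W + 1000 * (CJ * W) := by ring
    have w9 : 0 ≤ CJ * W := by positivity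
    rw [e10, w8, abs_le]
    constructor
    · linarith [h2.1, h2.2, w6.1, w6.2]
    · linarith [h2.1, h2.2, w6.1, w6.2]

end Pool.Agent.U507.GM
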