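import Pool.Agent.U507.GM.ZUc

/-!
# The variance of primes in short intervals: change of variables
-/

set_option autoImplicit false

open Complex Filter Topology Set MeasureTheory Metric
open scoped Real

namespace Pool.Agent.U507.GM

/-- The weighted number of prime powers in the interval of length `H` centred at `x`. -/
noncomputable def psiH (x H : ℝ) : ℝ :=
  ∑ᶠ n ∈ {n : ℕ | 1 ≤ n ∧ x - H / 2 ≤ n ∧ (n : ℝ) ≤ x + H / 2}, ArithmeticFunction.vonMangoldt n

/-- `ψ(x + h) - ψ(x) - h` -/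
noncomputable def Dd (x h : ℝ) : ℝ := Chebyshev.psi (x + h) - Chebyshev.psi x - h

/-- the normalised variance for `X = T^α`, `H = X / T` -/
noncomputable def vv (T α : ℝ) : ℝ :=
  (1 / T ^ α * ∫ x in (T ^ α)..(2 * T ^ α), |psiH x (T ^ α / T) - T ^ α / T| ^ 2) / (T ^ α / T * Real.log T)

lemma psiH_eq (x H : ℝ) (hH : 0 ≤ H) (hx : H / 2 < x) (hn : ∀ n : ℕ, (n : ℝ) ≠ x - H / 2) :
    psiH x H = Chebyshev.psi (x + H / 2) - Chebyshev.psi (x - H / 2) := by
  have h0 : 0 < x - H / 2 := by linarith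
  have h1 : 0 < x + H / 2 := by linarith
  have hle : ⌊x - H / 2⌋₊ ≤ ⌊x + H / 2⌋₊ := Nat.floor_le_floor (by linarith)
  have hset : {n : ℕ | 1 ≤ n ∧ x - H / 2 ≤ n ∧ (n : ℝ) ≤ x + H / 2} =
      ((Finset.Ioc ⌊x - H / 2⌋₊ ⌊x + H / 2⌋₊ : Finset ℕ) : Set ℕ) := by
    ext n
    simp only [Set.mem_ofPred_eq, Finset.coe_Ioc, Set.mem_Ioc]
    rw [Nat.floor_lt h0.le, Nat.le_floor_iff h1.le]
    constructor
    · rintro ⟨_, h3, h4⟩
      exact ⟨lt_of_le_of_ne h3 (fun h => hn n h.symm), h4⟩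
    · rintro ⟨h3, h4⟩
      refine ⟨?_, h3.le, h4⟩
      have : (0 : ℝ) < n := lt_trans h0 h3
      exact_mod_cast this
  unfold psiH
  rw [hset, finsum_mem_coe_finset]
  unfold Chebyshev.psi
  rw [eq_sub_iff_add_eq, add_comm]
  exact Finset.sum_Ioc_consecutive _ (Nat.zero_le _) hle

lemma null_pts (H : ℝ) : ∀ᵐ x : ℝ, ∀ n : ℕ, (n : ℝ) ≠ x - H / 2 := by
  rw [ae_all_iff]
  intro n
  have : {x : ℝ | ¬ ((n : ℝ) ≠ x - H / 2)} = {(n : ℝ) + H / 2} := by
    ext x
    simp only [ne_eq, not_not, Set.mem_ofPred_eq, Set.mem_singleton_iff]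
    constructor
    · intro h; linarith
    · intro h; linarith
  rw [ae_iff, this]
  exact Real.volume_singleton

lemma int_psiH {X H : ℝ} (hX : 0 < X) (hH : 0 ≤ H) (hHX : H ≤ X) :
    ∫ x in X..(2 * X), |psiH x H - H| ^ 2 = X * ∫ w in (1 - H / (2 * X))..(2 - H / (2 * X)), Dd (X * w) H ^ 2 := by
  have h1 : ∫ x in X..(2 * X), |psiH x H - H| ^ 2 = ∫ x in X..(2 * X), Dd (x - H / 2) H ^ 2 := by
    apply intervalIntegral.integral_congr_ae
    filter_upwards [null_pts H] with x hx hxI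
    rw [uIoc_of_le (by linarith)] at hxI
    rw [sq_abs, psiH_eq x H hH (by linarith [hxI.1]) hx]
    unfold Dd
    rw [show x - H / 2 + H = x + H / 2 by ring]
  rw [h1, intervalIntegral.integral_comp_sub_right (fun x => Dd x H ^ 2) (H / 2)]
  have h2 := intervalIntegral.integral_comp_mul_left (a := 1 - H / (2 * X)) (b := 2 - H / (2 * X))
    (fun x => Dd x H ^ 2) hX.ne'
  rw [h2, smul_eq_mul, ← mul_assoc, mul_inv_cancel₀ hX.ne', one_mul]
  congr 1
  · field_simp
  · field_simp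

lemma vv_eq {T : ℝ} (hT : 2 ≤ T) (α : ℝ) : vv T α = T / (T ^ α * Real.log T) *
    ∫ w in (1 - 1 / (2 * T))..(2 - 1 / (2 * T)), Dd (T ^ α * w) (T ^ α / T) ^ 2 := by
  have hT0 : 0 < T := by linarith
  have hX : 0 < T ^ α := Real.rpow_pos_of_pos hT0 α
  have hlog : 0 < Real.log T := Real.log_pos (by linarith)
  have hHX : T ^ α / T ≤ T ^ α := div_le_self hX.le (by linarith)
  unfold vv
  rw [int_psiH hX (by positivity) hHX]
  have e : T ^ α / T / (2 * T ^ α) = 1 / (2 * T) := by field_simp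
  rw [e]
  field_simp

lemma psi_measurable : Measurable Chebyshev.psi := Chebyshev.psi_mono.measurable

lemma Dd_meas {f g : ℝ × ℝ → ℝ} (hf : Measurable f) (hg : Measurable g) :
    Measurable fun p => Dd (f p) (g p) ^ 2 := by
  unfold Dd
  exact (((psi_measurable.comp (hf.add hg)).sub (psi_measurable.comp hf)).sub hg).pow_const 2

lemma rpow_meas (T : ℝ) (hT : 0 < T) : Measurable fun α : ℝ => T ^ α := by
  have : (fun α : ℝ => T ^ α) = fun α => Real.exp (Real.log T * α) := by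
    funext α
    rw [Real.rpow_def_of_pos hT]
  rw [this]
  fun_prop

lemma vv_meas {T : ℝ} (hT : 2 ≤ T) : Measurable (vv T) := by
  have hT0 : 0 < T := by linarith
  have e : vv T = fun α => T / (T ^ α * Real.log T) *
    ∫ w in Ioc (1 - 1 / (2 * T)) (2 - 1 / (2 * T)), Dd (T ^ α * w) (T ^ α / T) ^ 2 := by
    funext α
    rw [vv_eq hT, intervalIntegral.integral_of_le (by linarith)]
  rw [e]
  have h1 := rpow_meas T hT0
  refine Measurable.mul (measurable_const.div (h1.mul_const _)) ?_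
  have h2 : StronglyMeasurable fun p : ℝ × ℝ => Dd (T ^ p.1 * p.2) (T ^ p.1 / T) ^ 2 :=
    (Dd_meas ((h1.comp measurable_fst).mul measurable_snd) ((h1.comp measurable_fst).div_const _)).stronglyMeasurable
  exact (h2.integral_prod_right (ν := volume.restrict (Ioc (1 - 1 / (2 * T)) (2 - 1 / (2 * T))))).measurable

lemma vv_nonneg {T : ℝ} (hT : 2 ≤ T) (α : ℝ) : 0 ≤ vv T α := by
  have hT0 : 0 < T := by linarith
  have hX : 0 < T ^ α := Real.rpow_pos_of_pos hT0 α
  have hlog : 0 < Real.log T := Real.log_pos (by linarith)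
  unfold vv
  have h1 : 0 ≤ ∫ x in (T ^ α)..(2 * T ^ α), |psiH x (T ^ α / T) - T ^ α / T| ^ 2 :=
    intervalIntegral.integral_nonneg (by linarith) fun x _ => by positivity
  positivity

end Pool.Agent.U507.GM
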