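import Pool.Agent.U507.GM.VA

/-!
# The inner integral
-/

set_option autoImplicit false

open Complex Filter Topology Set MeasureTheory Metric
open scoped Real

namespace Pool.Agent.U507.GM

/-- the inner integrand -/
noncomputable def gI (T κ w y : ℝ) : ℝ :=
  Real.exp (-(1 + κ) * y) * Dd (Real.exp y) (Real.exp y / (w * T)) ^ 2

/-- the inner integral -/
noncomputable def GG (T κ w : ℝ) : ℝ := ∫ y in Ioi (Real.log w), gI T κ w y

lemma gI_nonneg (T κ w y : ℝ) : 0 ≤ gI T κ w y := by unfold gI; positivity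

lemma gI_meas (T κ w : ℝ) : Measurable (gI T κ w) := by
  unfold gI Dd
  refine (by fun_prop : Measurable fun y : ℝ => Real.exp (-(1 + κ) * y)).mul (Measurable.pow_const ?_ 2)
  refine Measurable.sub (Measurable.sub ?_ ?_) (by fun_prop)
  · exact psi_measurable.comp (by fun_prop)
  · exact psi_measurable.comp Real.measurable_exp

/-- the shift `δ` -/
noncomputable def dl (T w : ℝ) : ℝ := Real.log (1 + 1 / (w * T))

lemma dl_facts {T w : ℝ} (hT : 16 ≤ T) (hw : 1 / 2 ≤ w) (hw2 : w ≤ 2) :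
    0 < dl T w ∧ dl T w ≤ 1 / (w * T) ∧ 1 - 1 / (w * T) ≤ dl T w * (w * T) ∧ |Real.log T + Real.log (dl T w)| ≤ 2 := by
  have hwT : 8 ≤ w * T := by nlinarith
  have h0 : 0 < w * T := by linarith
  have hu : 0 < 1 / (w * T) := by positivity
  have h1 : 0 < dl T w := Real.log_pos (by linarith)
  have h2 : dl T w ≤ 1 / (w * T) := by
    have := Real.log_le_sub_one_of_pos (x := 1 + 1 / (w * T)) (by linarith)
    unfold dl
    linarith
  have h3 : 1 / (w * T + 1) ≤ dl T w := by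
    have := Real.one_sub_inv_le_log_of_pos (x := 1 + 1 / (w * T)) (by linarith)
    have e : 1 - (1 + 1 / (w * T))⁻¹ = 1 / (w * T + 1) := by field_simp; ring
    rw [e] at this
    exact this
  refine ⟨h1, h2, ?_, ?_⟩
  · have h4 : 1 - 1 / (w * T) ≤ 1 / (w * T + 1) * (w * T) := by
      rw [div_mul_eq_mul_div, one_mul, le_div_iff₀ (by linarith), sub_mul]
      have : 1 / (w * T) * (w * T + 1) = 1 + 1 / (w * T) := by field_simp
      rw [this]
      linarith
    refine h4.trans ?_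
    gcongr
  · have hT0 : 0 < T := by linarith
    have l1 : Real.log (dl T w) ≤ -Real.log (w * T) := by
      rw [← Real.log_inv, inv_eq_one_div]
      exact Real.log_le_log h1 h2
    have l2 : -Real.log (w * T + 1) ≤ Real.log (dl T w) := by
      rw [← Real.log_inv, inv_eq_one_div]
      exact Real.log_le_log (by positivity) h3
    have l3 : Real.log T - Real.log (w * T) ≤ 1 := by
      rw [Real.log_mul (by linarith) hT0.ne']
      have : Real.log (1 / 2) ≤ Real.log w := Real.log_le_log (by norm_num) hw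
      have h5 : Real.log (1 / 2) = -Real.log 2 := by rw [one_div, Real.log_inv]
      have h6 := Real.log_two_lt_d9
      linarith
    have l4 : Real.log (w * T + 1) ≤ Real.log T + 2 := by
      have h7 : Real.log (w * T + 1) ≤ Real.log (4 * T) := Real.log_le_log (by linarith) (by nlinarith)
      rw [Real.log_mul (by norm_num) hT0.ne'] at h7
      have h8 : Real.log 4 = 2 * Real.log 2 := by
        rw [show (4 : ℝ) = 2 ^ 2 by norm_num, Real.log_pow]
        norm_num
      have h6 := Real.log_two_lt_d9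
      linarith
    rw [abs_le]
    constructor <;> linarith

lemma gI_pos {T κ w y : ℝ} (hw : 0 < w) (hT : 0 < T) (hy : 0 ≤ y) :
    gI T κ w y = Real.exp (-(1 + κ) * y) * (Rf (Real.exp (y + dl T w)) - Rf (Real.exp y)) ^ 2 := by
  unfold gI
  have h0 : 0 < 1 / (w * T) := by positivity
  have h1 : Real.exp (y + dl T w) = Real.exp y + Real.exp y / (w * T) := by
    unfold dl
    rw [Real.exp_add, Real.exp_log (by linarith)]
    ring
  have h2 : 1 ≤ Real.exp y := Real.one_le_exp hy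
  have h3 : 1 ≤ Real.exp (y + dl T w) := by
    rw [h1]
    have : 0 < Real.exp y / (w * T) := by positivity
    linarith
  rw [Rf_eq h2, Rf_eq h3, h1]
  unfold Dd
  congr 2
  ring

lemma gI_neg {T κ w y : ℝ} (hT : 16 ≤ T) (hw : 1 / 2 ≤ w) (hκ : 0 ≤ κ) (hκ1 : κ ≤ 1) (hy : y ≤ 0) (hy1 : -1 ≤ y) :
    gI T κ w y ≤ 32 / T ^ 2 := by
  unfold gI Dd
  have hT0 : 0 < T := by linarith
  have h1 : Real.exp y ≤ 1 := Real.exp_le_one_iff.2 hy
  have h2 : Real.exp y / (w * T) ≤ 2 / T := by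
    rw [div_le_div_iff₀ (by positivity) hT0]
    nlinarith [Real.exp_pos y]
  have h3 : (2 : ℝ) / T ≤ 1 / 8 := by
    rw [div_le_div_iff₀ hT0 (by norm_num)]
    linarith
  have h4 : 0 < Real.exp y / (w * T) := by positivity
  rw [Chebyshev.psi_eq_zero_of_lt_two (x := Real.exp y + Real.exp y / (w * T)) (by linarith),
    Chebyshev.psi_eq_zero_of_lt_two (x := Real.exp y) (by linarith)]
  have h5 : Real.exp (-(1 + κ) * y) ≤ 8 := by
    have h6 : -(1 + κ) * y ≤ 2 := by nlinarith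
    have h7 := Real.exp_le_exp.2 h6
    have h8 : Real.exp 2 < 8 := by
      have : Real.exp 2 = Real.exp 1 ^ 2 := by rw [← Real.exp_nat_mul]; norm_num
      rw [this]
      have h9 := Real.exp_one_lt_d9
      have h10 := Real.exp_pos 1
      nlinarith
    linarith
  have h6 : (0 - 0 - Real.exp y / (w * T)) ^ 2 ≤ (2 / T) ^ 2 := by
    have : (0 - 0 - Real.exp y / (w * T)) ^ 2 = (Real.exp y / (w * T)) ^ 2 := by ring
    rw [this]
    exact pow_le_pow_left₀ h4.le h2 2
  calc Real.exp (-(1 + κ) * y) * (0 - 0 - Real.exp y / (w * T)) ^ 2 ≤ 8 * (2 / T) ^ 2 := by gcongr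
    _ = 32 / T ^ 2 := by ring

lemma neg_one_le_log {w : ℝ} (hw : 1 / 2 ≤ w) : -1 ≤ Real.log w := by
  have h5 : Real.log (1 / 2) = -Real.log 2 := by rw [one_div, Real.log_inv]
  have h6 := Real.log_two_lt_d9
  have : Real.log (1 / 2) ≤ Real.log w := Real.log_le_log (by norm_num) hw
  linarith

lemma gI_intOn (hRH : RiemannHypothesis) {T κ w : ℝ} (hT : 16 ≤ T) (hw : 1 / 2 ≤ w) (hκ : 0 < κ) (hκ1 : κ ≤ 1) :
    IntegrableOn (gI T κ w) (Ioi (-1)) ∧ IntegrableOn (gI T κ w) (Ioi 0) ∧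
      ∫ y in Ioi 0, gI T κ w y = Wv (κ / 2) (dl T w) ∧ ∫ y in Ioi (-1), gI T κ w y ≤ 32 / T ^ 2 + Wv (κ / 2) (dl T w) := by
  have hw0 : 0 < w := by linarith
  have hT0 : 0 < T := by linarith
  have h1 := Wv_int hRH (η := κ / 2) (by linarith) (by linarith) (dl T w)
  have e : ∀ y ∈ Ioi (0 : ℝ), gI T κ w y =
      Real.exp (-(1 + 2 * (κ / 2)) * y) * (Rf (Real.exp (y + dl T w)) - Rf (Real.exp y)) ^ 2 := by
    intro y hy
    rw [gI_pos hw0 hT0 (le_of_lt hy)]
    congr 3
    ring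
  have h2 : IntegrableOn (gI T κ w) (Ioi 0) := by
    refine (integrableOn_congr_fun e measurableSet_Ioi).2 h1.integrableOn
  have h3 : ∫ y in Ioi 0, gI T κ w y = Wv (κ / 2) (dl T w) := by
    unfold Wv
    exact setIntegral_congr_fun measurableSet_Ioi e
  have hb : ∀ y ∈ Ioc (-1 : ℝ) 0, ‖gI T κ w y‖ ≤ 32 / T ^ 2 := by
    intro y hy
    rw [Real.norm_eq_abs, abs_of_nonneg (gI_nonneg _ _ _ _)]
    exact gI_neg hT hw hκ.le hκ1 hy.2 hy.1.le
  have h4 : IntegrableOn (gI T κ w) (Ioc (-1) 0) := by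
    refine Measure.integrableOn_of_bounded (M := 32 / T ^ 2) (by simp) (gI_meas T κ w).aestronglyMeasurable ?_
    exact (ae_restrict_iff' measurableSet_Ioc).2 (Filter.Eventually.of_forall hb)
  have h5 : Ioi (-1 : ℝ) = Ioc (-1) 0 ∪ Ioi 0 := (Ioc_union_Ioi_eq_Ioi (by norm_num)).symm
  have h6 : IntegrableOn (gI T κ w) (Ioi (-1)) := by
    rw [h5]
    exact h4.union h2
  refine ⟨h6, h2, h3, ?_⟩
  rw [h5, setIntegral_union Ioc_disjoint_Ioi_same measurableSet_Ioi h4 h2, h3]
  have h7 := norm_setIntegral_le_of_norm_le_const (μ := volume) (s := Ioc (-1 : ℝ) 0) (by simp) hb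
  have hvol : volume.real (Ioc (-1 : ℝ) 0) = 1 := by
    rw [Real.volume_real_Ioc]
    norm_num
  rw [hvol, mul_one, Real.norm_eq_abs] at h7
  have := le_abs_self (∫ y in Ioc (-1 : ℝ) 0, gI T κ w y)
  linarith

lemma GG_le (hRH : RiemannHypothesis) {T κ w : ℝ} (hT : 16 ≤ T) (hw : 1 / 2 ≤ w) (hκ : 0 < κ) (hκ1 : κ ≤ 1) :
    IntegrableOn (gI T κ w) (Ioi (Real.log w)) ∧ GG T κ w ≤ 32 / T ^ 2 + Wv (κ / 2) (dl T w) := by
  obtain ⟨h1, h2, h3, h4⟩ := gI_intOn hRH hT hw hκ hκ1
  have hsub : Ioi (Real.log w) ⊆ Ioi (-1 : ℝ) := Ioi_subset_Ioi (neg_one_le_log hw)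
  refine ⟨h1.mono_set hsub, le_trans ?_ h4⟩
  unfold GG
  exact setIntegral_mono_set h1 (Filter.Eventually.of_forall fun y => gI_nonneg _ _ _ _) hsub.eventuallyLE

/-- the contribution of small `y` -/
lemma small_y : ∃ C : ℝ, 0 < C ∧ ∀ η δ : ℝ, 0 < η → 0 < δ → δ ≤ 1 / 2 →
    ∫ y in Ioc 0 (Real.log 2), Real.exp (-(1 + 2 * η) * y) * (Rf (Real.exp (y + δ)) - Rf (Real.exp y)) ^ 2 ≤ C * δ := by
  obtain ⟨g, hg⟩ : ∃ g : ℝ → ℝ, g = fun y => Chebyshev.psi (Real.exp y) + Real.exp y := ⟨_, rfl⟩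
  have hgm : Monotone g := by
    rw [hg]
    intro x y hxy
    exact add_le_add (Chebyshev.psi_mono (Real.exp_le_exp.2 hxy)) (Real.exp_le_exp.2 hxy)
  have hg0 : ∀ y, 0 ≤ g y := fun y => by
    rw [hg]
    exact add_nonneg (Chebyshev.psi_nonneg _) (Real.exp_pos _).le
  have hg2 : 0 < g 2 := by
    rw [hg]
    exact add_pos_of_nonneg_of_pos (Chebyshev.psi_nonneg _) (Real.exp_pos _)
  have hl2 : Real.log 2 < 1 := by
    have := Real.log_two_lt_d9
    linarith
  have hl0 : 0 < Real.log 2 := Real.log_pos (by norm_num)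
  refine ⟨g 2 ^ 2, by positivity, fun η δ hη hδ hδ1 => ?_⟩
  have hii : ∀ a b : ℝ, IntervalIntegrable g volume a b := fun a b => hgm.intervalIntegrable
  have hpt : ∀ y ∈ Icc 0 (Real.log 2), Real.exp (-(1 + 2 * η) * y) * (Rf (Real.exp (y + δ)) - Rf (Real.exp y)) ^ 2 ≤
      g 2 * (g (y + δ) - g y) := by
    intro y hy
    have h1 : 1 ≤ Real.exp y := Real.one_le_exp hy.1
    have h2 : 1 ≤ Real.exp (y + δ) := Real.one_le_exp (by linarith [hy.1])
    have h3 : Real.exp (-(1 + 2 * η) * y) ≤ 1 := Real.exp_le_one_iff.2 (by nlinarith [hy.1])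
    have h4 : g y ≤ g (y + δ) := hgm (by linarith)
    have h5 : g (y + δ) ≤ g 2 := hgm (by linarith [hy.2])
    have h6 : |Rf (Real.exp (y + δ)) - Rf (Real.exp y)| ≤ g (y + δ) - g y := by
      rw [Rf_eq h1, Rf_eq h2, hg]
      simp only
      have p1 : Chebyshev.psi (Real.exp y) ≤ Chebyshev.psi (Real.exp (y + δ)) :=
        Chebyshev.psi_mono (Real.exp_le_exp.2 (by linarith))
      have p2 : Real.exp y ≤ Real.exp (y + δ) := Real.exp_le_exp.2 (by linarith)
      rw [abs_le]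
      constructor <;> linarith
    have h7 : (Rf (Real.exp (y + δ)) - Rf (Real.exp y)) ^ 2 ≤ g 2 * (g (y + δ) - g y) := by
      rw [← sq_abs, pow_two]
      have h8 := hg0 y
      apply mul_le_mul _ h6 (abs_nonneg _) hg2.le
      linarith
    have h9 : 0 ≤ (Rf (Real.exp (y + δ)) - Rf (Real.exp y)) ^ 2 := sq_nonneg _
    have h10 := mul_le_mul_of_nonneg_right h3 h9
    linarith
  have hshift : ∀ a b : ℝ, IntervalIntegrable (fun y => g (y + δ)) volume a b := fun a b => by
    have : Monotone fun y => g (y + δ) := fun x y hxy => hgm (by linarith)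
    exact this.intervalIntegrable
  have hm : Measurable fun y => Real.exp (-(1 + 2 * η) * y) * (Rf (Real.exp (y + δ)) - Rf (Real.exp y)) ^ 2 := by
    refine (by fun_prop : Measurable fun y : ℝ => Real.exp (-(1 + 2 * η) * y)).mul (Measurable.pow_const ?_ 2)
    exact (Rf_meas.comp (by fun_prop)).sub (Rf_meas.comp Real.measurable_exp)
  have hrhs : IntervalIntegrable (fun y => g 2 * (g (y + δ) - g y)) volume 0 (Real.log 2) :=
    ((hshift _ _).sub (hii _ _)).const_mul _
  have hlhs : IntervalIntegrable (fun y => Real.exp (-(1 + 2 * η) * y) * (Rf (Real.exp (y + δ)) - Rf (Real.exp y)) ^ 2)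
      volume 0 (Real.log 2) := by
    refine hrhs.mono_fun hm.aestronglyMeasurable ?_
    rw [uIoc_of_le hl0.le]
    refine (ae_restrict_iff' measurableSet_Ioc).2 (Filter.Eventually.of_forall fun y hy => ?_)
    simp only
    rw [Real.norm_eq_abs, abs_of_nonneg (by positivity), Real.norm_eq_abs]
    exact (hpt y ⟨hy.1.le, hy.2⟩).trans (le_abs_self _)
  rw [← intervalIntegral.integral_of_le hl0.le]
  refine (intervalIntegral.integral_mono_on hl0.le hlhs hrhs hpt).trans ?_
  rw [intervalIntegral.integral_const_mul, intervalIntegral.integral_sub (hshift _ _) (hii _ _),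
    intervalIntegral.integral_comp_add_right g δ, zero_add]
  have h1 : ∫ y in δ..(Real.log 2 + δ), g y = (∫ y in δ..(Real.log 2), g y) + ∫ y in (Real.log 2)..(Real.log 2 + δ), g y :=
    (intervalIntegral.integral_add_adjacent_intervals (hii _ _) (hii _ _)).symm
  have h2 : ∫ y in (0 : ℝ)..(Real.log 2), g y = (∫ y in (0 : ℝ)..δ, g y) + ∫ y in δ..(Real.log 2), g y :=
    (intervalIntegral.integral_add_adjacent_intervals (hii _ _) (hii _ _)).symm
  have h3 : 0 ≤ ∫ y in (0 : ℝ)..δ, g y := intervalIntegral.integral_nonneg hδ.le fun y _ => hg0 y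
  have h4 : ∫ y in (Real.log 2)..(Real.log 2 + δ), g y ≤ δ * g 2 := by
    have := intervalIntegral.integral_mono_on (a := Real.log 2) (b := Real.log 2 + δ) (by linarith) (hii _ _)
      (by simp : IntervalIntegrable (fun _ => g 2) volume (Real.log 2) (Real.log 2 + δ)) fun y hy =>
        hgm (by linarith [hy.2])
    rw [intervalIntegral.integral_const, smul_eq_mul] at this
    linarith
  rw [h1, h2]
  nlinarith

lemma GG_ge (hRH : RiemannHypothesis) : ∃ C : ℝ, 0 < C ∧ ∀ T κ w : ℝ, 16 ≤ T → 1 / 2 ≤ w → w ≤ 2 → 0 < κ → κ ≤ 1 →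
    Wv (κ / 2) (dl T w) - C * dl T w ≤ GG T κ w := by
  obtain ⟨C, hC, h⟩ := small_y
  refine ⟨C, hC, fun T κ w hT hw hw2 hκ hκ1 => ?_⟩
  obtain ⟨h1, h2, h3, h4⟩ := gI_intOn hRH hT hw hκ hκ1
  obtain ⟨h5, -⟩ := GG_le hRH hT hw hκ hκ1
  obtain ⟨d1, d2, -, -⟩ := dl_facts hT hw hw2
  have hw0 : 0 < w := by linarith
  have hT0 : 0 < T := by linarith
  have hl0 : 0 < Real.log 2 := Real.log_pos (by norm_num)
  have hlw : Real.log w ≤ Real.log 2 := Real.log_le_log hw0 hw2
  have hd : dl T w ≤ 1 / 2 := by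
    refine d2.trans ?_
    rw [div_le_div_iff₀ (by positivity) (by norm_num)]
    nlinarith
  have h6 : ∫ y in Ioi (Real.log 2), gI T κ w y ≤ GG T κ w := by
    unfold GG
    exact setIntegral_mono_set h5 (Filter.Eventually.of_forall fun y => gI_nonneg _ _ _ _)
      (Ioi_subset_Ioi hlw).eventuallyLE
  have h7 : ∫ y in Ioi 0, gI T κ w y = (∫ y in Ioc 0 (Real.log 2), gI T κ w y) + ∫ y in Ioi (Real.log 2), gI T κ w y := by
    rw [← setIntegral_union Ioc_disjoint_Ioi_same measurableSet_Ioi (h2.mono_set Ioc_subset_Ioi_self)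
      (h2.mono_set (Ioi_subset_Ioi hl0.le)), Ioc_union_Ioi_eq_Ioi hl0.le]
  have h8 : ∫ y in Ioc 0 (Real.log 2), gI T κ w y ≤ C * dl T w := by
    have := h (κ / 2) (dl T w) (by linarith) d1 hd
    refine le_trans (le_of_eq ?_) this
    refine setIntegral_congr_fun measurableSet_Ioc fun y hy => ?_
    rw [gI_pos hw0 hT0 hy.1.le]
    congr 3
    ring
  linarith

end Pool.Agent.U507.GM
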