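import Pool.Agent.U507.GM.VB

/-!
# The Laplace transform of the normalised variance
-/

set_option autoImplicit false

open Complex Filter Topology Set MeasureTheory Metric
open scoped Real

namespace Pool.Agent.U507.GM

lemma shift_IoiOn {f : ℝ → ℝ} {a d : ℝ} (h : IntegrableOn f (Ioi (a + d))) :
    IntegrableOn (fun y => f (y + d)) (Ioi a) := by
  rw [← integrable_indicator_iff measurableSet_Ioi] at h ⊢
  refine (h.comp_add_right d).congr (Filter.Eventually.of_forall fun y => ?_)
  simp only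
  by_cases hy : a < y
  · rw [indicator_of_mem (mem_Ioi.2 (by linarith)), indicator_of_mem (mem_Ioi.2 hy)]
  · rw [indicator_of_notMem (by simpa using hy), indicator_of_notMem (by simpa using hy)]

/-- the integrand on the plane -/
noncomputable def FF (T c : ℝ) (p : ℝ × ℝ) : ℝ :=
  Real.exp (-c * p.1) * (T / (T ^ p.1 * Real.log T) * Dd (T ^ p.1 * p.2) (T ^ p.1 / T) ^ 2)

/-- the inner integral -/
noncomputable def Inn (T c w : ℝ) : ℝ :=
  T / Real.log T ^ 2 * Real.exp ((1 + c / Real.log T) * Real.log w) * GG T (c / Real.log T) w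

lemma FF_meas {T : ℝ} (hT : 0 < T) (c : ℝ) : Measurable (FF T c) := by
  have h1 := rpow_meas T hT
  unfold FF
  refine (by fun_prop : Measurable fun p : ℝ × ℝ => Real.exp (-c * p.1)).mul (Measurable.mul ?_ ?_)
  · exact measurable_const.div ((h1.comp measurable_fst).mul_const _)
  · exact Dd_meas ((h1.comp measurable_fst).mul measurable_snd) ((h1.comp measurable_fst).div_const _)

lemma FF_nonneg {T : ℝ} (hT : 1 ≤ T) (c : ℝ) (p : ℝ × ℝ) : 0 ≤ FF T c p := by
  have := Real.log_nonneg hT
  have : 0 < T := by linarith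
  unfold FF
  positivity

lemma logT {T : ℝ} (hT : 16 ≤ T) : 1 ≤ Real.log T := by
  rw [Real.le_log_iff_exp_le (by linarith)]
  linarith [Real.exp_one_lt_d9]

lemma inner_eq (hRH : RiemannHypothesis) {T c w : ℝ} (hT : 16 ≤ T) (hw : 1 / 2 ≤ w) (hc : 0 < c) (hc1 : c ≤ 1) :
    IntegrableOn (fun α => FF T c (α, w)) (Ioi 0) ∧ ∫ α in Ioi 0, FF T c (α, w) = Inn T c w := by
  have hT0 : 0 < T := by linarith
  have hw0 : 0 < w := by linarith
  have hL1 := logT hT
  obtain ⟨L, hL⟩ : ∃ L : ℝ, L = Real.log T := ⟨_, rfl⟩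
  rw [← hL] at hL1
  have hL0 : 0 < L := by linarith
  have hκ : 0 < c / L := by positivity
  have hκ1 : c / L ≤ 1 := by rw [div_le_one hL0]; linarith
  obtain ⟨hi, -⟩ := GG_le hRH hT hw hκ hκ1
  obtain ⟨f, hf⟩ : ∃ f : ℝ → ℝ, f = fun y => T / L * Real.exp ((1 + c / L) * Real.log w) * gI T (c / L) w y := ⟨_, rfl⟩
  have hfi : IntegrableOn f (Ioi (Real.log w)) := by
    rw [hf]
    exact hi.const_mul _
  have key : ∀ α : ℝ, FF T c (α, w) = (fun s => f (s + Real.log w)) (α * L) := by
    intro α
    simp only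
    rw [hf]
    unfold FF gI
    simp only
    have e1 : Real.exp (α * L + Real.log w) = T ^ α * w := by
      rw [Real.exp_add, Real.exp_log hw0, Real.rpow_def_of_pos hT0, hL, mul_comm α]
    have e2 : T ^ α * w / (w * T) = T ^ α / T := by field_simp
    rw [e1, e2, ← hL]
    have e3 : Real.exp ((1 + c / L) * Real.log w) * Real.exp (-(1 + c / L) * (α * L + Real.log w)) =
        Real.exp (-c * α) / T ^ α := by
      rw [← Real.exp_add, Real.rpow_def_of_pos hT0, ← Real.exp_sub, ← hL]
      congr 1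
      field_simp
      ring
    have e4 : Real.exp (-c * α) * (T / (T ^ α * L) * Dd (T ^ α * w) (T ^ α / T) ^ 2) =
        T / L * (Real.exp (-c * α) / T ^ α) * Dd (T ^ α * w) (T ^ α / T) ^ 2 := by
      have : 0 < T ^ α := Real.rpow_pos_of_pos hT0 α
      field_simp
    rw [e4, ← e3]
    ring
  have hsi : IntegrableOn (fun s => f (s + Real.log w)) (Ioi 0) := shift_IoiOn (by rwa [zero_add])
  constructor
  · have h2 := (integrableOn_Ioi_comp_mul_right_iff (fun s => f (s + Real.log w)) 0 hL0).2 (by rwa [zero_mul])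
    refine (integrableOn_congr_fun (fun α _ => ?_) measurableSet_Ioi).2 h2
    exact key α
  · simp_rw [key]
    rw [integral_comp_mul_right_Ioi (fun s => f (s + Real.log w)) 0 hL0, zero_mul, shift_Ioi f 0, zero_add, hf,
      integral_const_mul, smul_eq_mul]
    unfold Inn GG
    rw [← hL]
    field_simp

lemma Inn_nonneg {T c w : ℝ} (hT : 16 ≤ T) : 0 ≤ Inn T c w := by
  have := logT hT
  have : 0 ≤ GG T (c / Real.log T) w := integral_nonneg fun y => gI_nonneg _ _ _ _
  unfold Inn
  positivity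

/-- bounds for the inner integral -/
lemma Inn_bounds (hRH : RiemannHypothesis) {c : ℝ} (hc : 0 < c) (hc1 : c ≤ 1) :
    (∃ C T0 : ℝ, 0 < C ∧ 16 ≤ T0 ∧ ∀ T w : ℝ, T0 ≤ T → 1 / 2 ≤ w → w ≤ 2 → Inn T c w ≤ C) ∧
    ∀ ε : ℝ, 0 < ε → ∃ T0 : ℝ, 16 ≤ T0 ∧ ∀ T w : ℝ, T0 ≤ T → 1 ≤ w → w ≤ 2 →
      1 / c - 1 / 2 - ε ≤ Inn T c w := by
  constructor
  · obtain ⟨C, L0, hC, hL0, hub⟩ := ub_fin hRH hc hc1
    refine ⟨128 + 8 * C, max 16 (Real.exp L0), by positivity, le_max_left _ _, fun T w hT hw hw2 => ?_⟩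
    have hT16 : 16 ≤ T := (le_max_left _ _).trans hT
    have hTe : Real.exp L0 ≤ T := (le_max_right _ _).trans hT
    have hT0 : 0 < T := by linarith
    have hw0 : 0 < w := by linarith
    have hLL : L0 ≤ Real.log T := by rwa [Real.le_log_iff_exp_le hT0]
    obtain ⟨L, hL⟩ : ∃ L : ℝ, L = Real.log T := ⟨_, rfl⟩
    obtain ⟨d1, d2, -, d4⟩ := dl_facts hT16 hw hw2
    have hu := hub (Real.log T) (dl T w) hLL d1 d4
    have hκ : 0 < c / L := by rw [hL]; have := logT hT16; positivity
    have hκ1 : c / L ≤ 1 := by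
      rw [hL, div_le_one (by have := logT hT16; linarith)]
      have := logT hT16
      linarith
    obtain ⟨-, hg⟩ := GG_le hRH hT16 hw hκ hκ1
    rw [← hL] at hu hLL
    have hL1 : 1 ≤ L := by linarith
    have e1 : c / L / 2 = c / (2 * L) := by field_simp
    rw [e1] at hg
    have hexp : Real.exp ((1 + c / L) * Real.log w) ≤ 4 := by
      have h1 : (1 + c / L) * Real.log w ≤ 2 * Real.log 2 := by
        have h2 : Real.log w ≤ Real.log 2 := Real.log_le_log hw0 hw2
        have h3 : 0 < Real.log 2 := Real.log_pos (by norm_num)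
        calc (1 + c / L) * Real.log w ≤ (1 + c / L) * Real.log 2 := by gcongr
          _ ≤ 2 * Real.log 2 := by gcongr; linarith
      have h4 := Real.exp_le_exp.2 h1
      have h5 : Real.exp (2 * Real.log 2) = 4 := by
        rw [two_mul, Real.exp_add, Real.exp_log (by norm_num)]
        norm_num
      linarith
    have hd : dl T w ≤ 2 / T := by
      refine d2.trans ?_
      rw [div_le_div_iff₀ (by positivity) hT0]
      nlinarith
    have hG0 : 0 ≤ GG T (c / L) w := integral_nonneg fun y => gI_nonneg _ _ _ _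
    have hG : GG T (c / L) w ≤ 32 / T ^ 2 + C * (2 / T * L ^ 2) := by
      have : C * (dl T w * L ^ 2) ≤ C * (2 / T * L ^ 2) := by gcongr
      linarith
    unfold Inn
    rw [← hL]
    calc T / L ^ 2 * Real.exp ((1 + c / L) * Real.log w) * GG T (c / L) w ≤
          T / L ^ 2 * 4 * (32 / T ^ 2 + C * (2 / T * L ^ 2)) := by gcongr
      _ = 128 / (T * L ^ 2) + 8 * C := by field_simp; ring
      _ ≤ 128 + 8 * C := by
          have : 128 / (T * L ^ 2) ≤ 128 := by
            apply div_le_self (by norm_num)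
            nlinarith
          linarith
  · intro ε hε
    obtain ⟨L0, hL0, hlb⟩ := lb_fin hRH hc hc1 (ε := ε / 4) (by linarith)
    obtain ⟨C, hC, hGG⟩ := GG_ge hRH
    obtain ⟨K, hK⟩ : ∃ K : ℝ, K = L0 + 4 * C / ε + 1 := ⟨_, rfl⟩
    have hK1 : 1 ≤ K := by rw [hK]; have : 0 < 4 * C / ε := by positivity
                           linarith
    refine ⟨max 16 (max (Real.exp K) (4 / (ε * c))), le_max_left _ _, fun T w hT hw hw2 => ?_⟩
    have hT16 : 16 ≤ T := (le_max_left _ _).trans hT
    have hTe : Real.exp K ≤ T := ((le_max_left _ _).trans (le_max_right _ _)).trans hT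
    have hTc : 4 / (ε * c) ≤ T := ((le_max_right _ _).trans (le_max_right _ _)).trans hT
    have hT0 : 0 < T := by linarith
    have hw0 : 0 < w := by linarith
    have hwh : 1 / 2 ≤ w := by linarith
    have hKL : K ≤ Real.log T := by rwa [Real.le_log_iff_exp_le hT0]
    obtain ⟨L, hL⟩ : ∃ L : ℝ, L = Real.log T := ⟨_, rfl⟩
    obtain ⟨d1, d2, d3, d4⟩ := dl_facts hT16 hwh hw2
    have h4 : 0 < 4 * C / ε := by positivity
    have hLL : L0 ≤ Real.log T := by linarith
    have hl := hlb (Real.log T) (dl T w) hLL d1 d4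
    rw [← hL] at hl hKL hLL
    have hL1 : 1 ≤ L := by linarith
    have hκ : 0 < c / L := by positivity
    have hκ1 : c / L ≤ 1 := by
      rw [div_le_one (by linarith)]
      linarith
    have hg := hGG T (c / L) w hT16 hwh hw2 hκ hκ1
    have e1 : c / L / 2 = c / (2 * L) := by field_simp
    rw [e1] at hg
    have hG0 : 0 ≤ GG T (c / L) w := integral_nonneg fun y => gI_nonneg _ _ _ _
    obtain ⟨X, hX⟩ : ∃ X : ℝ, X = 1 / c - 1 / 2 - ε / 4 - C / L ^ 2 := ⟨_, rfl⟩
    have hCL : C / L ^ 2 ≤ ε / 4 := by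
      rw [div_le_div_iff₀ (by positivity) (by norm_num)]
      have h5 : 4 * C / ε ≤ L := by linarith
      rw [div_le_iff₀ hε] at h5
      nlinarith
    have hG : dl T w * L ^ 2 * X ≤ GG T (c / L) w := by
      have : dl T w * L ^ 2 * X = dl T w * L ^ 2 * (1 / c - 1 / 2 - ε / 4) - C * dl T w := by
        rw [hX]
        field_simp
      rw [this]
      linarith
    by_cases hX0 : X < 0
    · have := Inn_nonneg (c := c) (w := w) hT16
      linarith
    · push Not at hX0
      have hexp : w ≤ Real.exp ((1 + c / L) * Real.log w) := by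
        have h2 : 0 ≤ Real.log w := Real.log_nonneg hw
        calc w = Real.exp (Real.log w) := (Real.exp_log hw0).symm
          _ ≤ Real.exp ((1 + c / L) * Real.log w) := by
              apply Real.exp_le_exp.2
              nlinarith
      unfold Inn
      rw [← hL]
      have h7 : (1 - 1 / T) * X ≤ T / L ^ 2 * Real.exp ((1 + c / L) * Real.log w) * GG T (c / L) w := by
        calc (1 - 1 / T) * X ≤ (dl T w * (w * T)) * X := by
              apply mul_le_mul_of_nonneg_right _ hX0
              refine le_trans ?_ d3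
              have : 1 / (w * T) ≤ 1 / T := by
                apply one_div_le_one_div_of_le hT0
                nlinarith
              linarith
          _ = T / L ^ 2 * w * (dl T w * L ^ 2 * X) := by field_simp
          _ ≤ T / L ^ 2 * Real.exp ((1 + c / L) * Real.log w) * GG T (c / L) w := by
              apply mul_le_mul _ hG _ (by positivity)
              · gcongr
              · positivity
      refine le_trans ?_ h7
      have h8 : X ≤ 1 / c := by
        have : 0 < C / L ^ 2 := by positivity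
        linarith
      have h9 : 1 / T * X ≤ ε / 4 := by
        calc 1 / T * X ≤ 1 / T * (1 / c) := by gcongr
          _ ≤ ε / 4 := by
              rw [div_le_iff₀ (by positivity)] at hTc
              have e3 : 1 / T * (1 / c) = 1 / (T * c) := by field_simp
              rw [e3, div_le_div_iff₀ (by positivity) (by norm_num)]
              linarith
      have e2 : (1 - 1 / T) * X = X - 1 / T * X := by ring
      rw [e2, hX]
      rw [hX] at h9
      linarith

/-- **the Laplace transform of the variance** -/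
theorem lap (hRH : RiemannHypothesis) {c : ℝ} (hc : 0 < c) (hc1 : c ≤ 1) :
    (∃ C T0 : ℝ, 0 < C ∧ 16 ≤ T0 ∧ ∀ T : ℝ, T0 ≤ T →
      IntegrableOn (fun α => Real.exp (-c * α) * vv T α) (Ioi 0) ∧
      ∫ α in Ioi 0, Real.exp (-c * α) * vv T α ≤ C) ∧
    ∀ ε : ℝ, 0 < ε → ∃ T0 : ℝ, 16 ≤ T0 ∧ ∀ T : ℝ, T0 ≤ T →
      1 / c - 1 / 2 - ε ≤ ∫ α in Ioi 0, Real.exp (-c * α) * vv T α := by
  obtain ⟨⟨C, T1, hC, hT1, hup⟩, hlow⟩ := Inn_bounds hRH hc hc1
  -- the exchange of the integrals
  have key : ∀ T : ℝ, T1 ≤ T → IntegrableOn (fun α => Real.exp (-c * α) * vv T α) (Ioi 0) ∧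
      IntegrableOn (Inn T c) (Ioc (1 - 1 / (2 * T)) (2 - 1 / (2 * T))) ∧
      ∫ α in Ioi 0, Real.exp (-c * α) * vv T α = ∫ w in Ioc (1 - 1 / (2 * T)) (2 - 1 / (2 * T)), Inn T c w := by
    intro T hT
    have hT16 : 16 ≤ T := hT1.trans hT
    have hT0 : 0 < T := by linarith
    have hsmall : 1 / (2 * T) ≤ 1 / 2 := by
      rw [div_le_div_iff₀ (by positivity) (by norm_num)]
      linarith
    have hsmall0 : 0 < 1 / (2 * T) := by positivity
    obtain ⟨a, ha⟩ : ∃ a : ℝ, a = 1 - 1 / (2 * T) := ⟨_, rfl⟩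
    obtain ⟨b, hb⟩ : ∃ b : ℝ, b = 2 - 1 / (2 * T) := ⟨_, rfl⟩
    rw [← ha, ← hb]
    have hwin : ∀ w ∈ Ioc a b, 1 / 2 ≤ w ∧ w ≤ 2 := by
      intro w hw
      rw [ha, hb] at hw
      exact ⟨by linarith [hw.1], by linarith [hw.2]⟩
    have hInn : ∀ w ∈ Ioc a b, ∫ α in Ioi 0, ‖FF T c (α, w)‖ = Inn T c w := by
      intro w hw
      obtain ⟨-, h2⟩ := inner_eq hRH hT16 (hwin w hw).1 hc hc1
      rw [← h2]
      refine integral_congr_ae (Filter.Eventually.of_forall fun α => ?_)
      simp only
      rw [Real.norm_eq_abs, abs_of_nonneg (FF_nonneg (by linarith) _ _)]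
    have hFm : AEStronglyMeasurable (FF T c) ((volume.restrict (Ioi (0 : ℝ))).prod (volume.restrict (Ioc a b))) :=
      (FF_meas hT0 c).aestronglyMeasurable
    have hm2 : AEStronglyMeasurable (fun w => ∫ α in Ioi 0, ‖FF T c (α, w)‖) volume := by
      have h1 : StronglyMeasurable fun p : ℝ × ℝ => ‖FF T c (p.2, p.1)‖ :=
        (((FF_meas hT0 c).comp (measurable_snd.prodMk measurable_fst)).norm).stronglyMeasurable
      exact (h1.integral_prod_right (ν := volume.restrict (Ioi (0 : ℝ)))).aestronglyMeasurable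
    have hI : Integrable (FF T c) ((volume.restrict (Ioi (0 : ℝ))).prod (volume.restrict (Ioc a b))) := by
      rw [integrable_prod_iff' hFm]
      constructor
      · refine (ae_restrict_iff' measurableSet_Ioc).2 (Filter.Eventually.of_forall fun w hw => ?_)
        exact (inner_eq hRH hT16 (hwin w hw).1 hc hc1).1
      · refine Measure.integrableOn_of_bounded (M := C) (by simp) hm2 ?_
        refine (ae_restrict_iff' measurableSet_Ioc).2 (Filter.Eventually.of_forall fun w hw => ?_)
        rw [hInn w hw, Real.norm_eq_abs, abs_of_nonneg (Inn_nonneg hT16)]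
        exact hup T w hT (hwin w hw).1 (hwin w hw).2
    have hv : ∀ α : ℝ, Real.exp (-c * α) * vv T α = ∫ w in Ioc a b, FF T c (α, w) := by
      intro α
      rw [vv_eq (by linarith) α, ← ha, ← hb, intervalIntegral.integral_of_le (by rw [ha, hb]; linarith)]
      unfold FF
      simp only
      rw [integral_const_mul, integral_const_mul]
    have h1 := hI.integral_prod_left
    have h2 := hI.integral_prod_right
    have hInn2 : ∀ w ∈ Ioc a b, ∫ α in Ioi 0, FF T c (α, w) = Inn T c w := fun w hw =>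
      (inner_eq hRH hT16 (hwin w hw).1 hc hc1).2
    refine ⟨?_, ?_, ?_⟩
    · simp_rw [hv]
      exact h1
    · exact (integrableOn_congr_fun (fun w hw => (hInn2 w hw).symm) measurableSet_Ioc).2 h2
    · simp_rw [hv]
      have hI' : Integrable (Function.uncurry fun α w => FF T c (α, w))
        ((volume.restrict (Ioi (0 : ℝ))).prod (volume.restrict (Ioc a b))) := hI
      rw [integral_integral_swap hI']
      exact setIntegral_congr_fun measurableSet_Ioc hInn2
  constructor
  · refine ⟨C, T1, hC, hT1, fun T hT => ?_⟩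
    obtain ⟨k1, k2, k3⟩ := key T hT
    refine ⟨k1, ?_⟩
    rw [k3]
    have hT16 : 16 ≤ T := hT1.trans hT
    have hT0 : 0 < T := by linarith
    have hsmall : 1 / (2 * T) ≤ 1 / 2 := by
      rw [div_le_div_iff₀ (by positivity) (by norm_num)]
      linarith
    have hsmall0 : 0 < 1 / (2 * T) := by positivity
    have h1 := norm_setIntegral_le_of_norm_le_const (μ := volume)
      (s := Ioc (1 - 1 / (2 * T)) (2 - 1 / (2 * T))) (f := Inn T c) (C := C) (by simp) (fun w hw => by
        rw [Real.norm_eq_abs, abs_of_nonneg (Inn_nonneg hT16)]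
        exact hup T w hT (by linarith [hw.1]) (by linarith [hw.2]))
    have hvol : volume.real (Ioc (1 - 1 / (2 * T)) (2 - 1 / (2 * T))) = 1 := by
      rw [Real.volume_real_Ioc, show 2 - 1 / (2 * T) - (1 - 1 / (2 * T)) = 1 by ring]
      norm_num
    rw [hvol, mul_one] at h1
    exact (le_abs_self _).trans h1
  · intro ε hε
    obtain ⟨T2, hT2, hl⟩ := hlow (ε / 2) (by linarith)
    refine ⟨max (max T1 T2) (1 / (ε * c)), le_max_of_le_left (le_max_of_le_left hT1), fun T hT => ?_⟩
    have hTT1 : T1 ≤ T := ((le_max_left _ _).trans (le_max_left _ _)).trans hT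
    have hTT2 : T2 ≤ T := ((le_max_right _ _).trans (le_max_left _ _)).trans hT
    have hTc : 1 / (ε * c) ≤ T := (le_max_right _ _).trans hT
    obtain ⟨k1, k2, k3⟩ := key T hTT1
    have hT16 : 16 ≤ T := hT1.trans hTT1
    have hT0 : 0 < T := by linarith
    rw [k3]
    have hsmall : 1 / (2 * T) ≤ 1 / 2 := by
      rw [div_le_div_iff₀ (by positivity) (by norm_num)]
      linarith
    have hsmall0 : 0 < 1 / (2 * T) := by positivity
    have hsub : Ioc 1 (2 - 1 / (2 * T)) ⊆ Ioc (1 - 1 / (2 * T)) (2 - 1 / (2 * T)) :=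
      Ioc_subset_Ioc_left (by linarith)
    obtain ⟨X, hX⟩ : ∃ X : ℝ, X = 1 / c - 1 / 2 - ε / 2 := ⟨_, rfl⟩
    have h1 : ∫ w in Ioc 1 (2 - 1 / (2 * T)), Inn T c w ≤
        ∫ w in Ioc (1 - 1 / (2 * T)) (2 - 1 / (2 * T)), Inn T c w :=
      setIntegral_mono_set k2 (Filter.Eventually.of_forall fun w => Inn_nonneg hT16) hsub.eventuallyLE
    have h2 : ∫ w in Ioc 1 (2 - 1 / (2 * T)), X ≤ ∫ w in Ioc 1 (2 - 1 / (2 * T)), Inn T c w := by
      refine setIntegral_mono_on (integrableOn_const (by simp)) (k2.mono_set hsub) measurableSet_Ioc fun w hw => ?_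
      rw [hX]
      exact hl T w hTT2 hw.1.le (by linarith [hw.2])
    have h3 : ∫ w in Ioc 1 (2 - 1 / (2 * T)), X = (1 - 1 / (2 * T)) * X := by
      rw [setIntegral_const, Real.volume_real_Ioc, smul_eq_mul, max_eq_left (by linarith)]
      ring
    have h4 : X - ε / 2 ≤ (1 - 1 / (2 * T)) * X := by
      have e : (1 - 1 / (2 * T)) * X = X - 1 / (2 * T) * X := by ring
      rw [e]
      have h5 : 1 / (2 * T) * X ≤ ε / 2 := by
        have h6 : X ≤ 1 / c := by rw [hX]; linarith
        calc 1 / (2 * T) * X ≤ 1 / (2 * T) * (1 / c) := by gcongr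
          _ = 1 / (2 * T * c) := by field_simp
          _ ≤ ε / 2 := by
              rw [div_le_iff₀ (by positivity)] at hTc
              rw [div_le_div_iff₀ (by positivity) (by norm_num)]
              linarith
      linarith
    linarith

end Pool.Agent.U507.GM
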