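import Mathlib

/-!
# Real-variable lemmas: primitives and Laplace transforms
-/

set_option autoImplicit false

open Filter Topology Set MeasureTheory

namespace Pool.Agent.U507.GM

lemma exp_Ioi {c : ℝ} (hc : 0 < c) (a : ℝ) : ∫ b in Ioi a, c * Real.exp (-c * b) = Real.exp (-c * a) := by
  rw [integral_const_mul, integral_exp_mul_Ioi (by linarith : -c < 0) a]
  field_simp

/-- **the Laplace transform of a primitive** -/
theorem lap_prim {g : ℝ → ℝ} (hg : Measurable g) {c : ℝ} (hc : 0 < c)
    (hi : IntegrableOn (fun α => Real.exp (-c * α) * g α) (Ioi 0)) :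
    IntegrableOn (fun b => c * Real.exp (-c * b) * ∫ α in (0 : ℝ)..b, g α) (Ioi 0) ∧
      ∫ b in Ioi 0, c * Real.exp (-c * b) * (∫ α in (0 : ℝ)..b, g α) = ∫ α in Ioi 0, Real.exp (-c * α) * g α := by
  obtain ⟨μ, hμ⟩ : ∃ μ : Measure ℝ, μ = volume.restrict (Ioi (0 : ℝ)) := ⟨_, rfl⟩
  have : SFinite μ := by rw [hμ]; infer_instance
  obtain ⟨K, hK⟩ : ∃ K : ℝ × ℝ → ℝ, K = fun p => if p.2 ≤ p.1 then c * Real.exp (-c * p.1) * g p.2 else 0 := ⟨_, rfl⟩
  have hKm : Measurable K := by
    rw [hK]
    refine Measurable.ite (measurableSet_le measurable_snd measurable_fst) ?_ measurable_const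
    exact ((by fun_prop : Measurable fun p : ℝ × ℝ => c * Real.exp (-c * p.1))).mul (hg.comp measurable_snd)
  have hexp : ∀ a : ℝ, IntegrableOn (fun b => c * Real.exp (-c * b)) (Ioi a) := fun a =>
    (integrableOn_exp_mul_Ioi (by linarith : -c < 0) a).const_mul c
  -- the inner integral over `b`
  have hin : ∀ α ∈ Ioi (0 : ℝ), ∀ h : ℝ, IntegrableOn (fun b => if α ≤ b then c * Real.exp (-c * b) * h else 0) (Ioi 0) ∧
      ∫ b in Ioi 0, (if α ≤ b then c * Real.exp (-c * b) * h else 0) = Real.exp (-c * α) * h := by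
    intro α hα h
    have e : (fun b => if α ≤ b then c * Real.exp (-c * b) * h else 0) =
        (Ici α).indicator fun b => c * Real.exp (-c * b) * h := by
      funext b
      by_cases hb : α ≤ b
      · rw [if_pos hb, indicator_of_mem (mem_Ici.2 hb)]
      · rw [if_neg hb, indicator_of_notMem (by simpa using hb)]
    have hsub : Ici α ⊆ Ioi (0 : ℝ) := fun b hb => mem_Ioi.2 (lt_of_lt_of_le (mem_Ioi.1 hα) (mem_Ici.1 hb))
    have hci : IntegrableOn (fun b => c * Real.exp (-c * b) * h) (Ioi 0) := (hexp 0).mul_const h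
    rw [e]
    constructor
    · exact hci.indicator measurableSet_Ici
    · rw [setIntegral_indicator measurableSet_Ici, inter_eq_self_of_subset_right hsub, integral_Ici_eq_integral_Ioi,
        integral_mul_const, exp_Ioi hc]
  have hnorm : ∀ b α : ℝ, ‖K (b, α)‖ = if α ≤ b then c * Real.exp (-c * b) * |g α| else 0 := by
    intro b α
    rw [hK]
    simp only
    split_ifs
    · rw [norm_mul, Real.norm_eq_abs, Real.norm_eq_abs, abs_of_pos (by positivity)]
    · simp
  have hI : Integrable K (μ.prod μ) := by
    rw [integrable_prod_iff' hKm.aestronglyMeasurable]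
    constructor
    · rw [hμ]
      refine (ae_restrict_iff' measurableSet_Ioi).2 (Filter.Eventually.of_forall fun α hα => ?_)
      have := (hin α hα (g α)).1
      rw [hK]
      exact this
    · have h1 : IntegrableOn (fun α => |Real.exp (-c * α) * g α|) (Ioi 0) := hi.abs
      rw [hμ]
      refine (integrableOn_congr_fun (fun α hα => ?_) measurableSet_Ioi).2 h1
      simp_rw [hnorm]
      rw [(hin α hα _).2, abs_mul, abs_of_pos (Real.exp_pos _)]
  have hKb : ∀ b ∈ Ioi (0 : ℝ), ∫ α in Ioi 0, K (b, α) = c * Real.exp (-c * b) * ∫ α in (0 : ℝ)..b, g α := by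
    intro b hb
    have e : (fun α => K (b, α)) = (Iic b).indicator fun α => c * Real.exp (-c * b) * g α := by
      funext α
      rw [hK]
      simp only
      by_cases hb : α ≤ b
      · rw [if_pos hb, indicator_of_mem (mem_Iic.2 hb)]
      · rw [if_neg hb, indicator_of_notMem (by simpa using hb)]
    rw [e, setIntegral_indicator measurableSet_Iic, Ioi_inter_Iic, integral_const_mul,
      intervalIntegral.integral_of_le (le_of_lt hb)]
  have hI' : Integrable (Function.uncurry fun b α => K (b, α)) (μ.prod μ) := hI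
  have h1 := hI.integral_prod_left
  have h2 := integral_integral_swap hI'
  rw [hμ] at h1 h2
  constructor
  · exact (integrableOn_congr_fun hKb measurableSet_Ioi).1 h1
  · rw [← setIntegral_congr_fun measurableSet_Ioi hKb, h2]
    refine setIntegral_congr_fun measurableSet_Ioi fun α hα => ?_
    have := (hin α hα (g α)).2
    rw [hK]
    exact this

end Pool.Agent.U507.GM
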