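import Pool.Agent.U507.GM.VF

/-!
# Rigidity: a family with one-sided window means and the right Laplace transforms
-/

set_option autoImplicit false

open Filter Topology Set MeasureTheory

namespace Pool.Agent.U507.GM

/-- the primitive of `min(α, 1)` -/
noncomputable def mp (b : ℝ) : ℝ := ∫ α in (0 : ℝ)..b, min α 1

/-- the primitive of `V` -/
noncomputable def Ph (V : ℝ → ℝ) (b : ℝ) : ℝ := ∫ α in (0 : ℝ)..b, V α

lemma min_cont : Continuous fun α : ℝ => min α 1 := by fun_prop

lemma mp_sub (a b : ℝ) : mp b - mp a = ∫ α in a..b, min α 1 :=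
  intervalIntegral.integral_interval_sub_left (min_cont.intervalIntegrable _ _) (min_cont.intervalIntegrable _ _)

lemma mp_cont : Continuous mp :=
  intervalIntegral.continuous_primitive (fun _ _ => min_cont.intervalIntegrable _ _) 0

lemma mp_slope {a b : ℝ} (hab : a ≤ b) : mp b - mp a ≤ b - a := by
  rw [mp_sub]
  have h := intervalIntegral.integral_mono_on hab (min_cont.intervalIntegrable _ _)
    (by simp : IntervalIntegrable (fun _ => (1 : ℝ)) volume a b) fun α _ => min_le_right α 1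
  rw [intervalIntegral.integral_const, smul_eq_mul, mul_one] at h
  exact h

lemma mp_mono {a b : ℝ} (ha : 0 ≤ a) (hab : a ≤ b) : mp a ≤ mp b := by
  have h : 0 ≤ ∫ α in a..b, min α 1 :=
    intervalIntegral.integral_nonneg hab fun α hα => le_min (ha.trans hα.1) zero_le_one
  rw [← mp_sub] at h
  linarith

lemma mp_zero : mp 0 = 0 := by unfold mp; simp

lemma mp_nonneg {b : ℝ} (hb : 0 ≤ b) : 0 ≤ mp b := by
  have := mp_mono le_rfl hb
  rwa [mp_zero] at this

/-- local integrability on `[0, ∞)` -/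
def LI (V : ℝ → ℝ) : Prop := ∀ a b : ℝ, 0 ≤ a → 0 ≤ b → IntervalIntegrable V volume a b

lemma Ph_sub {V : ℝ → ℝ} (hV : LI V) {a b : ℝ} (ha : 0 ≤ a) (hb : 0 ≤ b) : Ph V b - Ph V a = ∫ α in a..b, V α :=
  intervalIntegral.integral_interval_sub_left (hV _ _ le_rfl hb) (hV _ _ le_rfl ha)

lemma Ph_mono {V : ℝ → ℝ} (hV : LI V) (h0 : ∀ α, 0 ≤ V α) {a b : ℝ} (ha : 0 ≤ a) (hab : a ≤ b) : Ph V a ≤ Ph V b := by
  have h : 0 ≤ ∫ α in a..b, V α := intervalIntegral.integral_nonneg hab fun α _ => h0 α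
  rw [← Ph_sub hV ha (ha.trans hab)] at h
  linarith

/-- the difference -/
noncomputable def Df (V : ℝ → ℝ) (b : ℝ) : ℝ := mp b - Ph V b

lemma Df_slope {V : ℝ → ℝ} (hV : LI V) (h0 : ∀ α, 0 ≤ V α) {a b : ℝ} (ha : 0 ≤ a) (hab : a ≤ b) :
    Df V b - (b - a) ≤ Df V a := by
  have h1 := Ph_mono hV h0 ha hab
  have h2 := mp_slope hab
  unfold Df
  linarith

lemma Df_ii {V : ℝ → ℝ} (hV : LI V) (h0 : ∀ α, 0 ≤ V α) {a b : ℝ} (ha : 0 ≤ a) (hab : a ≤ b) :
    IntervalIntegrable (Df V) volume a b := by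
  have h1 : MonotoneOn (Ph V) (uIcc a b) := by
    rw [uIcc_of_le hab]
    intro x hx y _ hxy
    exact Ph_mono hV h0 (ha.trans hx.1) hxy
  exact (mp_cont.intervalIntegrable _ _).sub h1.intervalIntegrable

/-- the Laplace transform of `min(α, 1)` -/
lemma lap_min {c : ℝ} (hc : 0 < c) : IntegrableOn (fun α => Real.exp (-c * α) * min α 1) (Ioi 0) ∧
    ∫ α in Ioi 0, Real.exp (-c * α) * min α 1 = (1 - Real.exp (-c)) / c ^ 2 := by
  obtain ⟨g, hg⟩ : ∃ g : ℝ → ℝ, g = (Iic (1 : ℝ)).indicator fun _ => (1 : ℝ) := ⟨_, rfl⟩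
  have hgm : Measurable g := by
    rw [hg]
    exact measurable_const.indicator measurableSet_Iic
  have hi : IntegrableOn (fun α => Real.exp (-c * α) * g α) (Ioi 0) := by
    refine Integrable.mono' (integrableOn_exp_mul_Ioi (by linarith : -c < 0) 0)
      ((by fun_prop : Measurable fun α : ℝ => Real.exp (-c * α)).mul hgm).aestronglyMeasurable
      (Filter.Eventually.of_forall fun α => ?_)
    rw [norm_mul, Real.norm_eq_abs, abs_of_pos (Real.exp_pos _)]
    apply mul_le_of_le_one_right (Real.exp_pos _).le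
    rw [hg]
    by_cases h : α ∈ Iic (1 : ℝ)
    · rw [indicator_of_mem h]; simp
    · rw [indicator_of_notMem h]; simp
  obtain ⟨h1, h2⟩ := lap_prim hgm hc hi
  have e : ∀ b ∈ Ioi (0 : ℝ), ∫ α in (0 : ℝ)..b, g α = min b 1 := by
    intro b hb
    have hb0 : (0 : ℝ) < b := hb
    rw [intervalIntegral.integral_of_le hb0.le, hg, setIntegral_indicator measurableSet_Iic, Ioc_inter_Iic,
      setIntegral_const, Real.volume_real_Ioc, smul_eq_mul, mul_one, sub_zero, max_eq_left]
    exact le_min hb0.le zero_le_one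
  have e2 : ∀ b ∈ Ioi (0 : ℝ), c * Real.exp (-c * b) * (∫ α in (0 : ℝ)..b, g α) = c * (Real.exp (-c * b) * min b 1) := by
    intro b hb
    rw [e b hb]
    ring
  have h3 := (integrableOn_congr_fun e2 measurableSet_Ioi).1 h1
  rw [setIntegral_congr_fun measurableSet_Ioi e2, integral_const_mul] at h2
  have h4 : ∫ α in Ioi 0, Real.exp (-c * α) * g α = (1 - Real.exp (-c)) / c := by
    have e3 : (fun α => Real.exp (-c * α) * g α) = (Iic (1 : ℝ)).indicator fun α => Real.exp (-c * α) := by
      funext α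
      rw [hg]
      by_cases h : α ∈ Iic (1 : ℝ)
      · rw [indicator_of_mem h, indicator_of_mem h, mul_one]
      · rw [indicator_of_notMem h, indicator_of_notMem h, mul_zero]
    rw [e3, setIntegral_indicator measurableSet_Iic, Ioi_inter_Iic, ← intervalIntegral.integral_of_le zero_le_one]
    have h5 : ∀ x ∈ uIcc (0 : ℝ) 1, HasDerivAt (fun x => Real.exp (-c * x) / (-c)) (Real.exp (-c * x)) x := by
      intro x _
      have h6 : HasDerivAt (fun x : ℝ => -c * x) (-c) x := by
        simpa using (hasDerivAt_id x).const_mul (-c)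
      have := h6.exp.div_const (-c)
      refine this.congr_deriv ?_
      field_simp
    rw [intervalIntegral.integral_eq_sub_of_hasDerivAt h5 ((by fun_prop : Continuous fun x : ℝ =>
      Real.exp (-c * x)).intervalIntegrable _ _)]
    rw [mul_one, mul_zero, Real.exp_zero]
    field_simp
    ring
  rw [h4] at h2
  constructor
  · have := h3.const_mul c⁻¹
    refine this.congr (Filter.Eventually.of_forall fun b => ?_)
    simp only
    field_simp
  · rw [pow_two, ← div_div, ← h2]
    field_simp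

lemma exp_low {c : ℝ} (hc : 0 < c) (hc1 : c ≤ 1) : (1 - Real.exp (-c)) / c ^ 2 ≤ 1 / c - 1 / 2 + c := by
  have h := Real.exp_bound (x := -c) (by rw [abs_neg, abs_of_pos hc]; exact hc1) (n := 3) (by norm_num)
  rw [abs_neg, abs_of_pos hc] at h
  simp only [Finset.sum_range_succ, Finset.sum_range_zero, Nat.factorial] at h
  norm_num at h
  have h2 := (abs_le.1 h).1
  rw [div_le_iff₀ (by positivity)]
  have e : (1 / c - 1 / 2 + c) * c ^ 2 = c - c ^ 2 / 2 + c ^ 3 := by field_simp
  rw [e]
  have hc3 : 0 < c ^ 3 := by positivity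
  nlinarith

/-- **the deterministic inequality** -/
theorem det {V : ℝ → ℝ} (hVm : Measurable V) (h0 : ∀ α, 0 ≤ V α) (hV : LI V) {c C κ d ℓ b0 ε B : ℝ} {J : ℕ}
    (hc : 0 < c) (hc1 : c ≤ 1)
    (h1 : IntegrableOn (fun α => Real.exp (-c * α) * V α) (Ioi 0))
    (h1' : 1 / c - 1 / 2 - κ ≤ ∫ α in Ioi 0, Real.exp (-c * α) * V α)
    (h2 : IntegrableOn (fun α => Real.exp (-(c / 2) * α) * V α) (Ioi 0))
    (h2' : ∫ α in Ioi 0, Real.exp (-(c / 2) * α) * V α ≤ C)
    (hε : 0 ≤ ε) (hb0 : 0 ≤ b0) (hℓ : 0 < ℓ) (hd : 0 < d) (hdℓ : d ≤ ℓ) (hB : b0 + J * ℓ ≤ B)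
    (h3 : ∀ b ∈ Icc 0 B, -ε ≤ Df V b) (h4 : ∀ j : ℕ, 1 ≤ j → j ≤ J → d ≤ Df V (b0 + j * ℓ)) :
    c * Real.exp (-c * (b0 + J * ℓ)) * (J * (d ^ 2 / 4)) ≤ c + κ + ε + 2 * C * Real.exp (-(c / 2) * B) := by
  have hJℓ : 0 ≤ (J : ℝ) * ℓ := by positivity
  have hB0 : 0 ≤ B := by linarith
  obtain ⟨m1, m2⟩ := lap_min hc
  -- the Laplace transform of the difference
  obtain ⟨g, hg⟩ : ∃ g : ℝ → ℝ, g = fun α => min α 1 - V α := ⟨_, rfl⟩
  have hgm : Measurable g := by rw [hg]; exact min_cont.measurable.sub hVm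
  have e1 : (fun α => Real.exp (-c * α) * g α) = fun α => Real.exp (-c * α) * min α 1 - Real.exp (-c * α) * V α := by
    funext α
    rw [hg]
    ring
  have hgi : IntegrableOn (fun α => Real.exp (-c * α) * g α) (Ioi 0) := by
    rw [e1]
    exact m1.sub h1
  obtain ⟨p1, p2⟩ := lap_prim hgm hc hgi
  have e2 : ∀ b ∈ Ioi (0 : ℝ), c * Real.exp (-c * b) * (∫ α in (0 : ℝ)..b, g α) = c * Real.exp (-c * b) * Df V b := by
    intro b hb
    have hb0 : (0 : ℝ) < b := hb
    rw [hg, intervalIntegral.integral_sub (min_cont.intervalIntegrable _ _) (hV _ _ le_rfl hb0.le)]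
    rfl
  have q1 := (integrableOn_congr_fun e2 measurableSet_Ioi).1 p1
  rw [setIntegral_congr_fun measurableSet_Ioi e2, e1, integral_sub m1 h1, m2] at p2
  have hup : ∫ b in Ioi 0, c * Real.exp (-c * b) * Df V b ≤ c + κ := by
    rw [p2]
    have := exp_low hc hc1
    linarith
  -- split at `B`
  have hsplit : ∫ b in Ioi 0, c * Real.exp (-c * b) * Df V b =
      (∫ b in Ioc 0 B, c * Real.exp (-c * b) * Df V b) + ∫ b in Ioi B, c * Real.exp (-c * b) * Df V b := by
    rw [← setIntegral_union Ioc_disjoint_Ioi_same measurableSet_Ioi (q1.mono_set Ioc_subset_Ioi_self)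
      (q1.mono_set (Ioi_subset_Ioi hB0)), Ioc_union_Ioi_eq_Ioi hB0]
  -- the tail
  have hPh : ∀ b : ℝ, 0 ≤ b → Ph V b ≤ C * Real.exp (c / 2 * b) := by
    intro b hb
    have k1 : Ph V b ≤ ∫ α in (0 : ℝ)..b, Real.exp (c / 2 * b) * (Real.exp (-(c / 2) * α) * V α) := by
      refine intervalIntegral.integral_mono_on hb (hV _ _ le_rfl hb) ?_ fun α hα => ?_
      · refine IntervalIntegrable.const_mul ?_ _
        rw [intervalIntegrable_iff_integrableOn_Ioc_of_le hb]
        exact h2.mono_set Ioc_subset_Ioi_self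
      · rw [← mul_assoc, ← Real.exp_add]
        apply le_mul_of_one_le_left (h0 α)
        apply Real.one_le_exp
        nlinarith [hα.2]
    rw [intervalIntegral.integral_const_mul] at k1
    have k2 : ∫ α in (0 : ℝ)..b, Real.exp (-(c / 2) * α) * V α ≤ C := by
      refine le_trans ?_ h2'
      rw [intervalIntegral.integral_of_le hb]
      exact setIntegral_mono_set h2 (Filter.Eventually.of_forall fun α => mul_nonneg (Real.exp_pos _).le (h0 α))
        Ioc_subset_Ioi_self.eventuallyLE
    calc Ph V b ≤ Real.exp (c / 2 * b) * ∫ α in (0 : ℝ)..b, Real.exp (-(c / 2) * α) * V α := k1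
      _ ≤ Real.exp (c / 2 * b) * C := by gcongr
      _ = _ := mul_comm _ _
  have htail : -(2 * C * Real.exp (-(c / 2) * B)) ≤ ∫ b in Ioi B, c * Real.exp (-c * b) * Df V b := by
    have k3 : ∫ b in Ioi B, -(2 * C) * (c / 2 * Real.exp (-(c / 2) * b)) = -(2 * C * Real.exp (-(c / 2) * B)) := by
      rw [integral_const_mul, exp_Ioi (by linarith)]
      ring
    rw [← k3]
    refine setIntegral_mono_on ?_ (q1.mono_set (Ioi_subset_Ioi hB0)) measurableSet_Ioi fun b hb => ?_
    · exact ((integrableOn_exp_mul_Ioi (by linarith : -(c / 2) < 0) B).const_mul _).const_mul _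
    · have hb0 : 0 ≤ b := hB0.trans (le_of_lt hb)
      have k4 : -(C * Real.exp (c / 2 * b)) ≤ Df V b := by
        have := hPh b hb0
        have := mp_nonneg hb0
        unfold Df
        linarith
      have k5 : Real.exp (-(c / 2) * b) = Real.exp (-c * b) * Real.exp (c / 2 * b) := by
        rw [← Real.exp_add]
        congr 1
        ring
      rw [k5]
      have k6 : -(2 * C) * (c / 2 * (Real.exp (-c * b) * Real.exp (c / 2 * b))) =
          c * Real.exp (-c * b) * (-(C * Real.exp (c / 2 * b))) := by ring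
      rw [k6]
      exact mul_le_mul_of_nonneg_left k4 (by positivity)
  -- the main part
  have hexpi : IntegrableOn (fun b => c * Real.exp (-c * b)) (Ioi 0) :=
    (integrableOn_exp_mul_Ioi (by linarith : -c < 0) 0).const_mul c
  have hone : ∫ b in Ioc 0 B, c * Real.exp (-c * b) ≤ 1 := by
    have k1 := exp_Ioi hc 0
    rw [mul_zero, Real.exp_zero] at k1
    rw [← k1]
    exact setIntegral_mono_set hexpi (Filter.Eventually.of_forall fun b => by
      simp only [Pi.zero_apply]
      positivity) Ioc_subset_Ioi_self.eventuallyLE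
  have hmainI : IntegrableOn (fun b => c * Real.exp (-c * b) * (Df V b + ε)) (Ioc 0 B) := by
    have hs0 : Ioc 0 B ⊆ Ioi (0 : ℝ) := Ioc_subset_Ioi_self
    have k1 := (q1.mono_set hs0).add ((hexpi.mono_set hs0).mul_const ε)
    refine k1.congr (Filter.Eventually.of_forall fun b => ?_)
    simp only [Pi.add_apply]
    ring
  have hB1 : ∫ b in Ioc 0 B, c * Real.exp (-c * b) * (Df V b + ε) =
      (∫ b in Ioc 0 B, c * Real.exp (-c * b) * Df V b) + (∫ b in Ioc 0 B, c * Real.exp (-c * b)) * ε := by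
    rw [← integral_mul_const, ← integral_add (q1.mono_set Ioc_subset_Ioi_self)
      ((hexpi.mono_set Ioc_subset_Ioi_self).mul_const ε)]
    congr 1
    funext b
    ring
  have hsub : Ioc b0 (b0 + J * ℓ) ⊆ Ioc 0 B := Ioc_subset_Ioc hb0 hB
  have hB2 : ∫ b in Ioc b0 (b0 + J * ℓ), c * Real.exp (-c * b) * (Df V b + ε) ≤
      ∫ b in Ioc 0 B, c * Real.exp (-c * b) * (Df V b + ε) := by
    refine setIntegral_mono_set hmainI ?_ hsub.eventuallyLE
    refine (ae_restrict_iff' measurableSet_Ioc).2 (Filter.Eventually.of_forall fun b hb => ?_)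
    have := h3 b ⟨hb.1.le, hb.2⟩
    simp only [Pi.zero_apply]
    have k : 0 ≤ Df V b + ε := by linarith
    positivity
  have hDi := Df_ii hV h0 (a := b0) (b := b0 + J * ℓ) hb0 (by linarith)
  have hDi2 : IntegrableOn (fun b => Df V b + ε) (Ioc b0 (b0 + J * ℓ)) := by
    rw [← intervalIntegrable_iff_integrableOn_Ioc_of_le (by linarith)]
    exact hDi.add (by simp)
  have hB3 : c * Real.exp (-c * (b0 + J * ℓ)) * (∫ b in Ioc b0 (b0 + J * ℓ), (Df V b + ε)) ≤
      ∫ b in Ioc b0 (b0 + J * ℓ), c * Real.exp (-c * b) * (Df V b + ε) := by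
    rw [← integral_const_mul]
    refine setIntegral_mono_on (hDi2.const_mul _) (hmainI.mono_set hsub) measurableSet_Ioc fun b hb => ?_
    have := h3 b ⟨hb0.trans hb.1.le, hb.2.trans hB⟩
    have k : 0 ≤ Df V b + ε := by linarith
    apply mul_le_mul_of_nonneg_right _ k
    apply mul_le_mul_of_nonneg_left _ hc.le
    apply Real.exp_le_exp.2
    nlinarith [hb.2]
  -- steps
  have hstep : ∀ n : ℕ, n ≤ J → (n : ℝ) * (d ^ 2 / 4) ≤ ∫ b in b0..(b0 + n * ℓ), (Df V b + ε) := by
    intro n
    induction n with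
    | zero => intro _; simp
    | succ n ih =>
      intro hn
      have ih' := ih (by omega)
      have hn0 : 0 ≤ (n : ℝ) * ℓ := by positivity
      have e3 : ((n + 1 : ℕ) : ℝ) * ℓ = n * ℓ + ℓ := by push_cast; ring
      have hnJ : ((n + 1 : ℕ) : ℝ) * ℓ ≤ J * ℓ := by
        apply mul_le_mul_of_nonneg_right _ hℓ.le
        exact_mod_cast hn
      rw [e3] at hnJ
      have hx := h4 (n + 1) (by omega) hn
      rw [e3] at hx
      rw [e3]
      obtain ⟨x, hxd⟩ : ∃ x : ℝ, x = b0 + (n * ℓ + ℓ) := ⟨_, rfl⟩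
      rw [← hxd] at hx ⊢
      have i1 : ∀ a b : ℝ, 0 ≤ a → a ≤ b → IntervalIntegrable (fun b => Df V b + ε) volume a b := fun a b ha hab =>
        (Df_ii hV h0 ha hab).add (by simp)
      have s1 := i1 b0 (b0 + n * ℓ) hb0 (by linarith)
      have s2 := i1 (b0 + n * ℓ) (x - d / 2) (by linarith) (by rw [hxd]; linarith)
      have s3 := i1 (x - d / 2) x (by rw [hxd]; linarith) (by linarith)
      rw [← intervalIntegral.integral_add_adjacent_intervals s1 (s2.trans s3),
        ← intervalIntegral.integral_add_adjacent_intervals s2 s3]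
      have t1 : 0 ≤ ∫ b in (b0 + n * ℓ)..(x - d / 2), (Df V b + ε) := by
        refine intervalIntegral.integral_nonneg (by rw [hxd]; linarith) fun b hb => ?_
        have := h3 b ⟨by linarith [hb.1], by
          have := hb.2
          rw [hxd] at this
          linarith⟩
        linarith
      have t2 : d / 2 * (d / 2) ≤ ∫ b in (x - d / 2)..x, (Df V b + ε) := by
        have k1 := intervalIntegral.integral_mono_on (a := x - d / 2) (b := x) (by linarith)
          (by simp : IntervalIntegrable (fun _ => d / 2) volume (x - d / 2) x) s3 fun b hb => by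
            have := Df_slope hV h0 (a := b) (b := x) (by
              have := hb.1
              rw [hxd] at this
              linarith) hb.2
            linarith [hb.1]
        rw [intervalIntegral.integral_const, smul_eq_mul] at k1
        linarith
      have e4 : ((n + 1 : ℕ) : ℝ) * (d ^ 2 / 4) = n * (d ^ 2 / 4) + d / 2 * (d / 2) := by push_cast; ring
      rw [e4]
      linarith
  have hJ := hstep J le_rfl
  rw [intervalIntegral.integral_of_le (by linarith)] at hJ
  have hexp0 : 0 ≤ c * Real.exp (-c * (b0 + J * ℓ)) := by positivity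
  have hfin := mul_le_mul_of_nonneg_left hJ hexp0
  have h6 : (∫ b in Ioc 0 B, c * Real.exp (-c * b)) * ε ≤ ε := by
    have := mul_le_mul_of_nonneg_right hone hε
    linarith
  linarith

end Pool.Agent.U507.GM
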