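import Pool.Agent.U507.GM.PLd

/-!
# Integrals of the weight `(2 sin(tδ/2)/t)²` against powers of logarithms
-/

set_option autoImplicit false

open Complex Filter Topology Set MeasureTheory Metric
open scoped ComplexConjugate FourierTransform Real

namespace Pool.Agent.U507.GM

lemma log_sq_small {u : ℝ} (h0 : 0 < u) (h1 : u ≤ 1) : Real.log u ^ 2 ≤ 16 * u ^ (-(1 : ℝ) / 2) := by
  have h2 := Real.log_le_rpow_div (x := u⁻¹) (by positivity) (ε := 1 / 4) (by norm_num)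
  rw [Real.log_inv] at h2
  have h3 : 0 ≤ -Real.log u := by
    have := Real.log_nonpos h0.le h1
    linarith
  have h4 : Real.log u ^ 2 = (-Real.log u) ^ 2 := by ring
  rw [h4]
  calc (-Real.log u) ^ 2 ≤ (u⁻¹ ^ ((1 : ℝ) / 4) / (1 / 4)) ^ 2 := pow_le_pow_left₀ h3 h2 2
    _ = 16 * (u⁻¹ ^ ((1 : ℝ) / 4)) ^ 2 := by ring
    _ = 16 * u ^ (-(1 : ℝ) / 2) := by
        rw [← Real.rpow_natCast, ← Real.rpow_mul (by positivity), Real.inv_rpow h0.le, ← Real.rpow_neg h0.le]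
        norm_num

lemma log_sq_large {u : ℝ} (h1 : 1 ≤ u) : Real.log u ^ 2 ≤ 16 * u ^ ((1 : ℝ) / 2) := by
  have h2 := Real.log_le_rpow_div (x := u) (by positivity) (ε := 1 / 4) (by norm_num)
  have h3 : 0 ≤ Real.log u := Real.log_nonneg h1
  calc (Real.log u) ^ 2 ≤ (u ^ ((1 : ℝ) / 4) / (1 / 4)) ^ 2 := pow_le_pow_left₀ h3 h2 2
    _ = 16 * (u ^ ((1 : ℝ) / 4)) ^ 2 := by ring
    _ = 16 * u ^ ((1 : ℝ) / 2) := by
        rw [← Real.rpow_natCast, ← Real.rpow_mul (by positivity)]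
        norm_num

lemma sinc_sq_le' {u : ℝ} (hu : 0 < u) : Real.sinc (u / 2) ^ 2 ≤ 4 / u ^ 2 := by
  rw [Real.sinc_of_ne_zero (by positivity), div_pow]
  have h1 : Real.sin (u / 2) ^ 2 ≤ 1 := Real.sin_sq_le_one _
  rw [div_le_div_iff₀ (by positivity) (by positivity)]
  nlinarith [sq_nonneg u]

/-- integrability of `sinc² (u/2) (9 + 2 log² u)` -/
lemma sl_int : IntegrableOn (fun u : ℝ => Real.sinc (u / 2) ^ 2 * (9 + 2 * Real.log u ^ 2)) (Ioi 0) := by
  have hm : Measurable (fun u : ℝ => Real.sinc (u / 2) ^ 2 * (9 + 2 * Real.log u ^ 2)) := by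
    have := Real.continuous_sinc
    have h1 : Measurable fun u : ℝ => Real.sinc (u / 2) := (this.comp (by fun_prop : Continuous fun u : ℝ => u / 2)).measurable
    exact (h1.pow_const 2).mul (by fun_prop)
  have hs : (Ioi (0 : ℝ)) = Ioc 0 1 ∪ Ioi 1 := by
    rw [Ioc_union_Ioi_eq_Ioi zero_le_one]
  rw [hs]
  refine IntegrableOn.union ?_ ?_
  · have h1 : IntegrableOn (fun u : ℝ => 9 + 32 * u ^ (-(1 : ℝ) / 2)) (Ioc 0 1) := by
      have := intervalIntegral.intervalIntegrable_rpow' (a := 0) (b := 1) (r := -(1 : ℝ) / 2) (by norm_num)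
      rw [intervalIntegrable_iff_integrableOn_Ioc_of_le zero_le_one] at this
      exact (integrableOn_const (by simp)).add (this.const_mul 32)
    refine Integrable.mono' h1 hm.aestronglyMeasurable ?_
    refine (ae_restrict_iff' measurableSet_Ioc).2 (Filter.Eventually.of_forall fun u hu => ?_)
    rw [Real.norm_eq_abs, abs_of_nonneg (by positivity)]
    have h2 : Real.sinc (u / 2) ^ 2 ≤ 1 := by
      rw [← sq_abs]
      exact pow_le_one₀ (abs_nonneg _) (Real.abs_sinc_le_one _)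
    have h3 := log_sq_small hu.1 hu.2
    have h4 : 0 ≤ 9 + 2 * Real.log u ^ 2 := by positivity
    nlinarith
  · have h1 : IntegrableOn (fun u : ℝ => 164 * u ^ (-(3 : ℝ) / 2)) (Ioi 1) :=
      (integrableOn_Ioi_rpow_of_lt (by norm_num) one_pos).const_mul _
    refine Integrable.mono' h1 hm.aestronglyMeasurable ?_
    refine (ae_restrict_iff' measurableSet_Ioi).2 (Filter.Eventually.of_forall fun u hu => ?_)
    have hu1 : (1 : ℝ) < u := hu
    have hu0 : (0 : ℝ) < u := by linarith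
    rw [Real.norm_eq_abs, abs_of_nonneg (by positivity)]
    have h2 := sinc_sq_le' hu0
    have h3 := log_sq_large hu1.le
    have h4 : (1 : ℝ) ≤ u ^ ((1 : ℝ) / 2) := Real.one_le_rpow hu1.le (by norm_num)
    calc Real.sinc (u / 2) ^ 2 * (9 + 2 * Real.log u ^ 2) ≤
          4 / u ^ 2 * (9 * u ^ ((1 : ℝ) / 2) + 2 * (16 * u ^ ((1 : ℝ) / 2))) := by
          gcongr
          linarith
      _ = 164 * (u ^ ((1 : ℝ) / 2) / u ^ 2) := by ring
      _ = 164 * u ^ (-(3 : ℝ) / 2) := by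
          congr 1
          rw [← Real.rpow_natCast, ← Real.rpow_sub hu0]
          norm_num

/-- **the weight** -/
theorem wb : ∃ K : ℝ, 0 < K ∧ ∀ δ L : ℝ, 0 < δ → |L + Real.log δ| ≤ 2 →
    IntegrableOn (fun v => gh δ v ^ 2 * (1 + (Real.log v - L) ^ 2)) (Ioi 0) ∧
      ∫ v in Ioi 0, gh δ v ^ 2 * (1 + (Real.log v - L) ^ 2) ≤ K * δ := by
  obtain ⟨h, hh⟩ : ∃ h : ℝ → ℝ, h = fun u : ℝ => Real.sinc (u / 2) ^ 2 * (9 + 2 * Real.log u ^ 2) := ⟨_, rfl⟩
  have hint : IntegrableOn h (Ioi 0) := by rw [hh]; exact sl_int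
  have h0 : ∀ u, 0 ≤ h u := fun u => by rw [hh]; positivity
  have hI : 0 ≤ ∫ u in Ioi 0, h u := integral_nonneg h0
  refine ⟨1 + ∫ u in Ioi 0, h u, by positivity, fun δ L hδ hL => ?_⟩
  have h1 : IntegrableOn (fun v => δ ^ 2 * h (v * δ)) (Ioi 0) := by
    refine Integrable.const_mul ?_ _
    have := (integrableOn_Ioi_comp_mul_right_iff h 0 hδ).2 (by rwa [zero_mul])
    exact this
  have h2 : ∫ v in Ioi 0, δ ^ 2 * h (v * δ) = δ * ∫ u in Ioi 0, h u := by
    rw [integral_const_mul, integral_comp_mul_right_Ioi h 0 hδ, zero_mul, smul_eq_mul]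
    field_simp
  have hm : Measurable (fun v => gh δ v ^ 2 * (1 + (Real.log v - L) ^ 2)) :=
    ((gh_cont δ).measurable.pow_const 2).mul (by fun_prop)
  have h3 : ∀ v ∈ Ioi (0 : ℝ), gh δ v ^ 2 * (1 + (Real.log v - L) ^ 2) ≤ δ ^ 2 * h (v * δ) := by
    intro v hv
    have hv0 : (0 : ℝ) < v := hv
    rw [hh]
    simp only
    unfold gh
    rw [mul_pow, mul_assoc]
    refine mul_le_mul_of_nonneg_left ?_ (sq_nonneg δ)
    refine mul_le_mul_of_nonneg_left ?_ (sq_nonneg _)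
    rw [Real.log_mul hv0.ne' hδ.ne']
    have h4 := abs_le.1 hL
    nlinarith [sq_nonneg ((Real.log v + Real.log δ) + (L + Real.log δ)), h4.1, h4.2]
  have h5 : IntegrableOn (fun v => gh δ v ^ 2 * (1 + (Real.log v - L) ^ 2)) (Ioi 0) := by
    refine Integrable.mono' h1 hm.aestronglyMeasurable ?_
    refine (ae_restrict_iff' measurableSet_Ioi).2 (Filter.Eventually.of_forall fun u hu => ?_)
    rw [Real.norm_eq_abs, abs_of_nonneg (by positivity)]
    exact h3 u hu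
  refine ⟨h5, ?_⟩
  calc ∫ v in Ioi 0, gh δ v ^ 2 * (1 + (Real.log v - L) ^ 2) ≤ ∫ v in Ioi 0, δ ^ 2 * h (v * δ) :=
        setIntegral_mono_on h5 h1 measurableSet_Ioi h3
    _ = δ * ∫ u in Ioi 0, h u := h2
    _ ≤ _ := by nlinarith

end Pool.Agent.U507.GM
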