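import Pool.Agent.U507.GM.ZLa

/-!
# The zero side: a lower bound for the mean square of the real part of the logarithmic derivative
-/

set_option autoImplicit false

open Complex Filter Topology Set MeasureTheory Metric
open scoped ComplexConjugate FourierTransform Real

namespace Pool.Agent.U507.GM

open H370 SP SP.LocAux H370.Loc

/-- sums of Poisson kernels with two parameters -/
lemma pois_two (A : Finset ℂ) (m : ℂ → ℕ) (v : ℝ) {a b : ℝ} (ha : 0 < a) (hab : a < b) :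
    (b * (∑ ρ ∈ A, (m ρ : ℝ) * (a / (a ^ 2 + (v - ρ.im) ^ 2))) -
      a * ∑ ρ ∈ A, (m ρ : ℝ) * (b / (b ^ 2 + (v - ρ.im) ^ 2))) / (b ^ 2 - a ^ 2) ≤
    (∑ ρ ∈ A, (m ρ : ℝ) * (a / (a ^ 2 + (v - ρ.im) ^ 2))) *
      ∑ ρ ∈ A, (m ρ : ℝ) * (b / (b ^ 2 + (v - ρ.im) ^ 2)) := by
  have hb : 0 < b := ha.trans hab
  have hba : 0 < b ^ 2 - a ^ 2 := by nlinarith
  have e1 : (b * (∑ ρ ∈ A, (m ρ : ℝ) * (a / (a ^ 2 + (v - ρ.im) ^ 2))) -
      a * ∑ ρ ∈ A, (m ρ : ℝ) * (b / (b ^ 2 + (v - ρ.im) ^ 2))) / (b ^ 2 - a ^ 2) =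
      ∑ ρ ∈ A, (m ρ : ℝ) * ((a / (a ^ 2 + (v - ρ.im) ^ 2)) * (b / (b ^ 2 + (v - ρ.im) ^ 2))) := by
    rw [Finset.mul_sum, Finset.mul_sum, ← Finset.sum_sub_distrib, Finset.sum_div]
    refine Finset.sum_congr rfl fun ρ _ => ?_
    have h1 : 0 < a ^ 2 + (v - ρ.im) ^ 2 := by positivity
    have h2 : 0 < b ^ 2 + (v - ρ.im) ^ 2 := by positivity
    field_simp
    ring
  rw [e1, Finset.sum_mul]
  refine Finset.sum_le_sum fun ρ hρ => ?_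
  have hpos : ∀ ρ' ∈ A, 0 ≤ (m ρ' : ℝ) * (b / (b ^ 2 + (v - ρ'.im) ^ 2)) := fun ρ' _ => by positivity
  have h3 : (m ρ : ℝ) * (b / (b ^ 2 + (v - ρ.im) ^ 2)) ≤
      ∑ ρ' ∈ A, (m ρ' : ℝ) * (b / (b ^ 2 + (v - ρ'.im) ^ 2)) := Finset.single_le_sum hpos hρ
  have h4 : (m ρ : ℝ) ≤ (m ρ : ℝ) * (m ρ : ℝ) := by
    rcases Nat.eq_zero_or_pos (m ρ) with h0 | h0
    · rw [h0]; simp
    · have : (1 : ℝ) ≤ m ρ := by exact_mod_cast h0
      nlinarith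
  have h5 : 0 ≤ (a / (a ^ 2 + (v - ρ.im) ^ 2)) * (b / (b ^ 2 + (v - ρ.im) ^ 2)) := by positivity
  calc (m ρ : ℝ) * ((a / (a ^ 2 + (v - ρ.im) ^ 2)) * (b / (b ^ 2 + (v - ρ.im) ^ 2))) ≤
        ((m ρ : ℝ) * (m ρ : ℝ)) * ((a / (a ^ 2 + (v - ρ.im) ^ 2)) * (b / (b ^ 2 + (v - ρ.im) ^ 2))) := by
        gcongr
    _ = ((m ρ : ℝ) * (a / (a ^ 2 + (v - ρ.im) ^ 2))) * ((m ρ : ℝ) * (b / (b ^ 2 + (v - ρ.im) ^ 2))) := by ring
    _ ≤ _ := by gcongr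

lemma cc1 {C : ℝ} (hC : 0 < C) : 1 ≤ 100 * (1 + C) ^ 2 ∧ 1 + 6 * C ≤ 100 * (1 + C) ^ 2 ∧
    64 * C ^ 2 + 2 ≤ 100 * (1 + C) ^ 2 := by
  refine ⟨?_, ?_, ?_⟩ <;> nlinarith

lemma lin_aux {P Q U W K a b : ℝ} (ha : 0 < a) (hb : 0 < b) (h1 : U - P ≤ K) (h2 : -K ≤ W - Q) :
    b * U - a * W - (b + a) * K ≤ b * P - a * Q := by
  have h3 := mul_le_mul_of_nonneg_left h1 hb.le
  have h4 := mul_le_mul_of_nonneg_left h2 ha.le
  linarith

lemma prod_aux {P Q U W K : ℝ} (p1 : 0 ≤ P) (hK0 : 0 < K) (u1 : |U - P| ≤ K) (u2 : |W - Q| ≤ K) :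
    P * Q - K * (|U| + |W|) - 3 * K ^ 2 ≤ U * W := by
  have u1' := abs_le.1 u1
  have e1 : U * W - P * Q = (U - P) * W + P * (W - Q) := by ring
  have e2 : |(U - P) * W| ≤ K * |W| := by rw [abs_mul]; gcongr
  have e3 : |P * (W - Q)| ≤ P * K := by rw [abs_mul, abs_of_nonneg p1]; gcongr
  have e4 : P ≤ |U| + K := by linarith [le_abs_self U, u1'.1]
  have e5 : P * K ≤ (|U| + K) * K := by gcongr
  have e6 := neg_abs_le ((U - P) * W)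
  have e7 := neg_abs_le (P * (W - Q))
  nlinarith [sq_nonneg K]

lemma young_aux {K U ε : ℝ} (hε : 0 < ε) : K * |U| ≤ ε / 2 * U ^ 2 + K ^ 2 / (2 * ε) := by
  have : 0 ≤ (1 / (2 * ε)) * (ε * |U| - K) ^ 2 := by positivity
  have e1 : (1 / (2 * ε)) * (ε * |U| - K) ^ 2 = ε / 2 * |U| ^ 2 - K * |U| + K ^ 2 / (2 * ε) := by
    field_simp
    ring
  rw [e1, sq_abs] at this
  linarith

lemma sq_aux {ε L l X Y : ℝ} (hε : 0 < ε) (hY : Y = 1 / 2 * (L + l) - X) :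
    (1 - ε) * (L ^ 2 / 4 - L * Y + Y ^ 2) - l ^ 2 / (4 * ε) ≤ X ^ 2 := by
  have e1 : X = (1 / 2 * L - Y) + 1 / 2 * l := by rw [hY]; ring
  have e2 : 0 ≤ (1 / ε) * (ε * (1 / 2 * L - Y) + 1 / 2 * l) ^ 2 := by positivity
  have e3 : (1 / ε) * (ε * (1 / 2 * L - Y) + 1 / 2 * l) ^ 2 =
      ε * (1 / 2 * L - Y) ^ 2 + (1 / 2 * L - Y) * l + l ^ 2 / (4 * ε) := by
    field_simp
    ring
  rw [e3] at e2
  rw [e1]
  have e4 : ((1 / 2 * L - Y) + 1 / 2 * l) ^ 2 = (1 / 2 * L - Y) ^ 2 + (1 / 2 * L - Y) * l + l ^ 2 / 4 := by ring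
  have e5 : L ^ 2 / 4 - L * Y + Y ^ 2 = (1 / 2 * L - Y) ^ 2 := by ring
  rw [e4, e5]
  have e6 := sq_nonneg l
  have e7 : (1 - ε) * (1 / 2 * L - Y) ^ 2 = (1 / 2 * L - Y) ^ 2 - ε * (1 / 2 * L - Y) ^ 2 := by ring
  rw [e7]
  linarith

lemma abs_aux (l : ℝ) : (2 + |l|) ^ 2 ≤ 8 * (1 + l ^ 2) ∧ 2 + |l| ≤ 3 * (1 + l ^ 2) ∧ |l| ≤ 1 + l ^ 2 := by
  have h1 := sq_abs l
  have h2 := abs_nonneg l
  refine ⟨?_, ?_, ?_⟩ <;> nlinarith [sq_nonneg (|l| - 1)]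

/-- **the pointwise inequality**, linear on the left -/
theorem zpt (hRH : RiemannHypothesis) : ∃ C V0 : ℝ, 0 < C ∧ 10 ≤ V0 ∧ ∀ v : ℝ, V0 ≤ v →
    ∀ a b ε L : ℝ, 0 < a → a < b → b ≤ 1 / 16 → 0 < ε → ε ≤ 1 → 1 ≤ L → b * L ≤ 1 →
      (1 - ε) / (1 + ε) * (L / (a + b)) - (1 - ε) / 2 * L ^ 2 -
        (C * (L + 1 / (b - a) + 1 / ε)) * (1 + (Real.log v - L) ^ 2) +
        (1 - ε) * L * ((ZF ⟨1 / 2 + a, v⟩).re + (ZF ⟨1 / 2 + b, v⟩).re) -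
        2 * ((1 - ε) / (1 + ε)) / (b ^ 2 - a ^ 2) *
          (b * (ZF ⟨1 / 2 + a, v⟩).re - a * (ZF ⟨1 / 2 + b, v⟩).re) ≤
      (ZF ⟨1 / 2 + a, v⟩).re ^ 2 + (ZF ⟨1 / 2 + b, v⟩).re ^ 2 := by
  obtain ⟨C, V0, hC, hV0, h⟩ := za hRH
  refine ⟨100 * (1 + C) ^ 2, V0, by positivity, hV0, fun v hv a b ε L ha hab hb hε hε1 hL hbL => ?_⟩
  obtain ⟨A, -, hA⟩ := h v hv
  have hb0 : 0 < b := ha.trans hab
  have h1 := (hA a ha (by linarith)).1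
  have h2 := (hA b hb0 hb).1
  have h3 := pois_two A (mult riemannZeta) v ha hab
  have p1 : 0 ≤ ∑ ρ ∈ A, (mult riemannZeta ρ : ℝ) * (a / (a ^ 2 + (v - ρ.im) ^ 2)) :=
    Finset.sum_nonneg fun ρ _ => by positivity
  have p2 : 0 ≤ ∑ ρ ∈ A, (mult riemannZeta ρ : ℝ) * (b / (b ^ 2 + (v - ρ.im) ^ 2)) :=
    Finset.sum_nonneg fun ρ _ => by positivity
  generalize (∑ ρ ∈ A, (mult riemannZeta ρ : ℝ) * (a / (a ^ 2 + (v - ρ.im) ^ 2))) = P at h1 h3 p1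
  generalize (∑ ρ ∈ A, (mult riemannZeta ρ : ℝ) * (b / (b ^ 2 + (v - ρ.im) ^ 2))) = Q at h2 h3 p2
  generalize (ZF ⟨1 / 2 + a, v⟩).re = x at h1 ⊢
  generalize (ZF ⟨1 / 2 + b, v⟩).re = y at h2 ⊢
  obtain ⟨l, hl⟩ : ∃ l : ℝ, l = Real.log v - L := ⟨_, rfl⟩
  rw [← hl]
  have hlv : Real.log v = L + l := by rw [hl]; ring
  rw [hlv] at h1 h2
  have hba : 0 < b - a := by linarith
  have hba2 : 0 < b ^ 2 - a ^ 2 := by nlinarith
  have hv1 : 0 ≤ Real.log v := Real.log_nonneg (by linarith)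
  -- the error `K`
  obtain ⟨K, hK⟩ : ∃ K : ℝ, K = C * (2 + |l|) := ⟨_, rfl⟩
  have hK0 : 0 < K := by rw [hK]; positivity
  have hbl : b * (L + l) ≤ 1 + |l| := by
    have : b * l ≤ |l| := by
      have h5 := le_abs_self l
      have h6 := abs_nonneg l
      calc b * l ≤ b * |l| := by gcongr
        _ ≤ 1 * |l| := by gcongr; linarith
        _ = |l| := one_mul _
    linarith
  have k1 : C * (1 + a * (L + l)) ≤ K := by
    rw [hK]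
    have : a * (L + l) ≤ b * (L + l) := by
      rw [← hlv]
      gcongr
    have : 1 + a * (L + l) ≤ 2 + |l| := by linarith
    gcongr
  have k2 : C * (1 + b * (L + l)) ≤ K := by
    rw [hK]
    have : 1 + b * (L + l) ≤ 2 + |l| := by linarith
    gcongr
  have q1 := abs_le.1 (h1.trans k1)
  have q2 := abs_le.1 (h2.trans k2)
  -- `U_a`, `U_b`
  obtain ⟨U, hU⟩ : ∃ U : ℝ, U = 1 / 2 * (L + l) - x := ⟨_, rfl⟩
  obtain ⟨W, hW⟩ : ∃ W : ℝ, W = 1 / 2 * (L + l) - y := ⟨_, rfl⟩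
  have u1 : |U - P| ≤ K := by rw [hU, abs_le]; constructor <;> linarith [q1.1, q1.2]
  have u2 : |W - Q| ≤ K := by rw [hW, abs_le]; constructor <;> linarith [q2.1, q2.2]
  have u1' := abs_le.1 u1
  have u2' := abs_le.1 u2
  obtain ⟨al1, al2, l0⟩ := abs_aux l
  have hK2 : K ^ 2 ≤ C ^ 2 * (8 * (1 + l ^ 2)) := by
    rw [hK, mul_pow]
    exact mul_le_mul_of_nonneg_left al1 (sq_nonneg C)
  have hK1 : K ≤ C * (3 * (1 + l ^ 2)) := by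
    rw [hK]
    exact mul_le_mul_of_nonneg_left al2 hC.le
  -- product inequality
  have hprod : P * Q - K * (|U| + |W|) - 3 * K ^ 2 ≤ U * W := prod_aux p1 hK0 u1 u2
  have hlin : (b * U - a * W) / (b ^ 2 - a ^ 2) - K / (b - a) ≤ P * Q := by
    refine le_trans ?_ h3
    have e1 : K / (b - a) = (b + a) * K / (b ^ 2 - a ^ 2) := by
      have : b ^ 2 - a ^ 2 = (b - a) * (b + a) := by ring
      rw [this]
      field_simp
    rw [e1, ← sub_div]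
    exact div_le_div_of_nonneg_right (lin_aux ha hb0 u1'.2 u2'.1) hba2.le
  have hUK : K * |U| ≤ ε / 2 * U ^ 2 + K ^ 2 / (2 * ε) := young_aux hε
  have hWK : K * |W| ≤ ε / 2 * W ^ 2 + K ^ 2 / (2 * ε) := young_aux hε
  have hsum : 2 * ((b * U - a * W) / (b ^ 2 - a ^ 2)) - 2 * (K / (b - a)) - 8 * (K ^ 2 / ε) ≤
      (1 + ε) * (U ^ 2 + W ^ 2) := by
    have e1 : K ^ 2 / (2 * ε) = 1 / 2 * (K ^ 2 / ε) := by field_simp
    rw [e1] at hUK hWK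
    have e2 : K ^ 2 ≤ K ^ 2 / ε := by
      rw [le_div_iff₀ hε]
      nlinarith [sq_nonneg K]
    have e3 : 2 * (U * W) ≤ U ^ 2 + W ^ 2 := by
      rw [← mul_assoc]
      exact two_mul_le_add_sq U W
    have e4 : (1 + ε) * (U ^ 2 + W ^ 2) = U ^ 2 + W ^ 2 + ε * U ^ 2 + ε * W ^ 2 := by ring
    have e5 : K * (|U| + |W|) = K * |U| + K * |W| := by ring
    rw [e5] at hprod
    rw [e4]
    linarith
  -- the squares of the real parts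
  have s1 : (1 - ε) * (L ^ 2 / 4 - L * U + U ^ 2) - l ^ 2 / (4 * ε) ≤ x ^ 2 := sq_aux hε hU
  have s2 : (1 - ε) * (L ^ 2 / 4 - L * W + W ^ 2) - l ^ 2 / (4 * ε) ≤ y ^ 2 := sq_aux hε hW
  obtain ⟨θ, hθ⟩ : ∃ θ : ℝ, θ = (1 - ε) / (1 + ε) := ⟨_, rfl⟩
  have hθ0 : 0 ≤ θ := by rw [hθ]; apply div_nonneg <;> linarith
  have hθ1 : θ ≤ 1 := by rw [hθ, div_le_one (by linarith)]; linarith
  have hθe : θ * (1 + ε) = 1 - ε := by rw [hθ]; field_simp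
  rw [← hθ]
  have hsum2 : θ * (2 * ((b * U - a * W) / (b ^ 2 - a ^ 2)) - 2 * (K / (b - a)) - 8 * (K ^ 2 / ε)) ≤
      (1 - ε) * (U ^ 2 + W ^ 2) := by
    have := mul_le_mul_of_nonneg_left hsum hθ0
    rw [← mul_assoc θ, hθe] at this
    exact this
  have e8 : 2 * ((b * U - a * W) / (b ^ 2 - a ^ 2)) = L / (a + b) + l / (a + b) -
      2 / (b ^ 2 - a ^ 2) * (b * x - a * y) := by
    rw [hU, hW]
    have : b ^ 2 - a ^ 2 = (b - a) * (a + b) := by ring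
    have hab0 : 0 < a + b := by linarith
    rw [this]
    field_simp
    ring
  rw [e8] at hsum2
  have e9 : U + W = L + l - (x + y) := by rw [hU, hW]; ring
  -- errors
  have t0 : (1 : ℝ) ≤ 1 / ε := by rw [le_div_iff₀ hε]; linarith
  have l1 : -(1 + l ^ 2) ≤ l := by linarith [neg_abs_le l]
  have l2 : l ≤ 1 + l ^ 2 := by linarith [le_abs_self l]
  have hab1 : 1 / (a + b) ≤ 1 / (b - a) := one_div_le_one_div_of_le hba (by linarith)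
  have hq0 : 0 < 1 / (b - a) := by positivity
  obtain ⟨Y, hY⟩ : ∃ Y : ℝ, Y = 1 + l ^ 2 := ⟨_, rfl⟩
  have hY1 : 1 ≤ Y := by rw [hY]; nlinarith [sq_nonneg l]
  rw [← hY] at l0 l1 l2 hK1 hK2 ⊢
  have f1 : -(1 / (b - a) * Y) ≤ l / (a + b) := by
    have : l / (a + b) = 1 / (a + b) * l := by ring
    rw [this]
    have h6 : 0 < 1 / (a + b) := by positivity
    calc -(1 / (b - a) * Y) ≤ -(1 / (a + b) * Y) := by
          have := mul_le_mul_of_nonneg_right hab1 (by linarith : 0 ≤ Y)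
          linarith
      _ = 1 / (a + b) * (-Y) := by ring
      _ ≤ 1 / (a + b) * l := by gcongr
  have f2 : K / (b - a) ≤ 3 * C * (1 / (b - a) * Y) := by
    have : K / (b - a) = 1 / (b - a) * K := by ring
    rw [this]
    have h7 := mul_le_mul_of_nonneg_left hK1 hq0.le
    linarith
  have f3 : K ^ 2 / ε ≤ 8 * C ^ 2 * (1 / ε * Y) := by
    have : K ^ 2 / ε = 1 / ε * K ^ 2 := by ring
    rw [this]
    have h7 := mul_le_mul_of_nonneg_left hK2 (by positivity : 0 ≤ 1 / ε)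
    linarith
  have f4 : l ^ 2 / (4 * ε) ≤ 1 / ε * Y := by
    have : l ^ 2 / (4 * ε) = 1 / ε * (l ^ 2 / 4) := by field_simp
    rw [this]
    gcongr
    rw [hY]
    nlinarith [sq_nonneg l]
  have f5 : L * l ≤ L * Y := by gcongr
  have g1 : θ * (L / (a + b)) - θ * (1 / (b - a) * Y) - θ * (2 / (b ^ 2 - a ^ 2) * (b * x - a * y)) -
      θ * (2 * (3 * C * (1 / (b - a) * Y))) - θ * (8 * (8 * C ^ 2 * (1 / ε * Y))) ≤ (1 - ε) * (U ^ 2 + W ^ 2) := by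
    refine le_trans ?_ hsum2
    have : θ * (L / (a + b) + l / (a + b) - 2 / (b ^ 2 - a ^ 2) * (b * x - a * y) - 2 * (K / (b - a)) -
        8 * (K ^ 2 / ε)) = θ * (L / (a + b)) + θ * (l / (a + b)) - θ * (2 / (b ^ 2 - a ^ 2) * (b * x - a * y)) -
        θ * (2 * (K / (b - a))) - θ * (8 * (K ^ 2 / ε)) := by ring
    rw [this]
    have m1 := mul_le_mul_of_nonneg_left f1 hθ0
    have m2 := mul_le_mul_of_nonneg_left (mul_le_mul_of_nonneg_left f2 (by norm_num : (0:ℝ) ≤ 2)) hθ0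
    have m3 := mul_le_mul_of_nonneg_left (mul_le_mul_of_nonneg_left f3 (by norm_num : (0:ℝ) ≤ 8)) hθ0
    linarith
  have A1 : 0 ≤ 1 / (b - a) * Y := by positivity
  have A2 : 0 ≤ 1 / ε * Y := by positivity
  have A3 : 0 ≤ L * Y := by positivity
  have g2 : θ * (1 / (b - a) * Y) ≤ 1 / (b - a) * Y := mul_le_of_le_one_left A1 hθ1
  have g3 : θ * (2 * (3 * C * (1 / (b - a) * Y))) ≤ 6 * C * (1 / (b - a) * Y) := by
    have : 0 ≤ 2 * (3 * C * (1 / (b - a) * Y)) := by positivity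
    have := mul_le_of_le_one_left this hθ1
    linarith
  have g4 : θ * (8 * (8 * C ^ 2 * (1 / ε * Y))) ≤ 64 * C ^ 2 * (1 / ε * Y) := by
    have : 0 ≤ 8 * (8 * C ^ 2 * (1 / ε * Y)) := by positivity
    have := mul_le_of_le_one_left this hθ1
    linarith
  have e10 : 2 * θ / (b ^ 2 - a ^ 2) * (b * x - a * y) = θ * (2 / (b ^ 2 - a ^ 2) * (b * x - a * y)) := by ring
  rw [e10]
  have hfin : θ * (L / (a + b)) - (1 - ε) / 2 * L ^ 2 - (1 - ε) * (L * l) + (1 - ε) * L * (x + y) -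
      θ * (2 / (b ^ 2 - a ^ 2) * (b * x - a * y)) - (1 / (b - a) * Y) - 6 * C * (1 / (b - a) * Y) -
      64 * C ^ 2 * (1 / ε * Y) - 2 * (1 / ε * Y) ≤ x ^ 2 + y ^ 2 := by
    have t1 : (1 - ε) * (L ^ 2 / 4 - L * U + U ^ 2) + (1 - ε) * (L ^ 2 / 4 - L * W + W ^ 2) =
        (1 - ε) / 2 * L ^ 2 - (1 - ε) * L * (U + W) + (1 - ε) * (U ^ 2 + W ^ 2) := by ring
    rw [e9] at t1
    have t2 : (1 - ε) / 2 * L ^ 2 - (1 - ε) * L * (L + l - (x + y)) = -((1 - ε) / 2 * L ^ 2) - (1 - ε) * (L * l) +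
        (1 - ε) * L * (x + y) := by ring
    linarith
  have f7 : (1 - ε) * (L * l) ≤ L * Y := by
    calc (1 - ε) * (L * l) ≤ (1 - ε) * (L * Y) := by
          apply mul_le_mul_of_nonneg_left f5
          linarith
      _ ≤ 1 * (L * Y) := by gcongr; linarith
      _ = L * Y := one_mul _
  have hbig : L * Y + 1 / (b - a) * Y + 6 * C * (1 / (b - a) * Y) + 64 * C ^ 2 * (1 / ε * Y) + 2 * (1 / ε * Y) ≤
      100 * (1 + C) ^ 2 * (L + 1 / (b - a) + 1 / ε) * Y := by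
    have e11 : 100 * (1 + C) ^ 2 * (L + 1 / (b - a) + 1 / ε) * Y = 100 * (1 + C) ^ 2 * (L * Y) +
        100 * (1 + C) ^ 2 * (1 / (b - a) * Y) + 100 * (1 + C) ^ 2 * (1 / ε * Y) := by ring
    rw [e11]
    obtain ⟨c1, c2, c3⟩ := cc1 hC
    have d1 := mul_le_mul_of_nonneg_right c1 A3
    have d2 := mul_le_mul_of_nonneg_right c2 A1
    have d3 := mul_le_mul_of_nonneg_right c3 A2
    linarith
  linarith

end Pool.Agent.U507.GM
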