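import Pool.Agent.U507.GM.ZLb

/-!
# The zero side, integrated
-/

set_option autoImplicit false

open Complex Filter Topology Set MeasureTheory Metric
open scoped ComplexConjugate FourierTransform Real

namespace Pool.Agent.U507.GM

/-- the variance integral -/
noncomputable def Iv (η δ : ℝ) : ℝ := ∫ y, Ef η δ y ^ 2

lemma zre_even (η t : ℝ) : (ZF ⟨1 / 2 + η, -t⟩).re = (ZF ⟨1 / 2 + η, t⟩).re := by
  rw [zf_mk_neg, Complex.conj_re]

lemma int_even {f : ℝ → ℝ} (hf : ∀ t, f (-t) = f t) (hi : Integrable f) :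
    ∫ t, f t = 2 * ∫ t in Ioi 0, f t := by
  have h1 := integral_add_compl (μ := volume) (s := Ioi (0 : ℝ)) measurableSet_Ioi hi
  rw [compl_Ioi] at h1
  have h2 : ∫ t in Iic 0, f t = ∫ t in Ioi 0, f t := by
    rw [← neg_zero, ← integral_comp_neg_Ioi, neg_zero]
    exact integral_congr_ae (Filter.Eventually.of_forall fun t => hf t)
  rw [← h1, h2]
  ring

/-- a bounded piece near `0` -/
lemma near_zero (hRH : RiemannHypothesis) (V0 : ℝ) (hV0 : 0 < V0) : ∃ C : ℝ, 0 < C ∧ ∀ η δ : ℝ, 0 < η → η ≤ 1 / 16 →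
    0 < δ → |∫ v in Ioc 0 V0, gh δ v ^ 2 * (ZF ⟨1 / 2 + η, v⟩).re| ≤ C * δ ^ 2 / η ∧
      ∫ v in Ioc 0 V0, gh δ v ^ 2 * (ZF ⟨1 / 2 + η, v⟩).re ^ 2 ≤ C * δ ^ 2 / η ^ 2 := by
  obtain ⟨C, hC, h⟩ := zf_bdd hRH V0
  refine ⟨(1 + C) ^ 2 * (1 + V0), by positivity, fun η δ hη hη1 hδ => ?_⟩
  have hz : ∀ v ∈ Ioc (0 : ℝ) V0, |(ZF ⟨1 / 2 + η, v⟩).re| ≤ C / η := fun v hv =>
    (Complex.abs_re_le_norm _).trans (h v (by rw [abs_of_pos hv.1]; exact hv.2) η hη hη1)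
  have hg : ∀ v, gh δ v ^ 2 ≤ δ ^ 2 := fun v => by
    rw [← sq_abs]
    exact pow_le_pow_left₀ (abs_nonneg _) (gh_abs hδ v) 2
  have hvol : volume.real (Ioc 0 V0) = V0 := by
    rw [Real.volume_real_Ioc, sub_zero, max_eq_left hV0.le]
  constructor
  · have h1 := norm_setIntegral_le_of_norm_le_const (μ := volume) (s := Ioc 0 V0) (C := δ ^ 2 * (C / η))
      (f := fun v => gh δ v ^ 2 * (ZF ⟨1 / 2 + η, v⟩).re) (by simp) (fun v hv => by
        rw [norm_mul, Real.norm_eq_abs, Real.norm_eq_abs, abs_of_nonneg (sq_nonneg _)]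
        exact mul_le_mul (hg v) (hz v hv) (abs_nonneg _) (sq_nonneg _))
    rw [hvol, Real.norm_eq_abs] at h1
    refine h1.trans ?_
    have e1 : δ ^ 2 * (C / η) * V0 = C * V0 * (δ ^ 2 / η) := by ring
    have e2 : (1 + C) ^ 2 * (1 + V0) * δ ^ 2 / η = (1 + C) ^ 2 * (1 + V0) * (δ ^ 2 / η) := by ring
    rw [e1, e2]
    apply mul_le_mul_of_nonneg_right _ (by positivity)
    have : C * V0 ≤ (1 + C) ^ 2 * V0 := by
      apply mul_le_mul_of_nonneg_right _ hV0.le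
      nlinarith
    nlinarith [sq_nonneg (1 + C)]
  · have h1 := norm_setIntegral_le_of_norm_le_const (μ := volume) (s := Ioc 0 V0) (C := δ ^ 2 * (C / η) ^ 2)
      (f := fun v => gh δ v ^ 2 * (ZF ⟨1 / 2 + η, v⟩).re ^ 2) (by simp) (fun v hv => by
        rw [norm_mul, Real.norm_eq_abs, Real.norm_eq_abs, abs_of_nonneg (sq_nonneg _),
          abs_of_nonneg (sq_nonneg _)]
        refine mul_le_mul (hg v) ?_ (sq_nonneg _) (sq_nonneg _)
        rw [← sq_abs]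
        exact pow_le_pow_left₀ (abs_nonneg _) (hz v hv) 2)
    rw [hvol, Real.norm_eq_abs] at h1
    refine (le_abs_self _).trans (h1.trans ?_)
    have e1 : δ ^ 2 * (C / η) ^ 2 * V0 = C ^ 2 * V0 * (δ ^ 2 / η ^ 2) := by
      field_simp
    have e2 : (1 + C) ^ 2 * (1 + V0) * δ ^ 2 / η ^ 2 = (1 + C) ^ 2 * (1 + V0) * (δ ^ 2 / η ^ 2) := by ring
    rw [e1, e2]
    apply mul_le_mul_of_nonneg_right _ (by positivity)
    have : C ^ 2 * V0 ≤ (1 + C) ^ 2 * V0 := by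
      apply mul_le_mul_of_nonneg_right _ hV0.le
      nlinarith
    nlinarith [sq_nonneg (1 + C)]

/-- **the integrated lower bound** -/
theorem lb_int (hRH : RiemannHypothesis) : ∃ C : ℝ, 0 < C ∧ ∀ δ L a b ε : ℝ, 0 < δ → δ ≤ 1 / 2 →
    |L + Real.log δ| ≤ 2 → 0 < a → a < b → b ≤ 1 / 16 → 1 ≤ L → b * L ≤ 1 → 0 < ε → ε ≤ 1 →
    2 * π * ((1 - ε) / (1 + ε) * (L / (a + b)) - (1 - ε) / 2 * L ^ 2) * δ -
      C * δ * (|(1 - ε) / (1 + ε) * (L / (a + b)) - (1 - ε) / 2 * L ^ 2| * δ +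
        (L + 1 / (b - a) + 1 / ε) * (1 + √δ / a ^ 2)) ≤ (1 + ε) * π * (Iv a δ + Iv b δ) := by
  obtain ⟨C1, hC1, hpl⟩ := pl hRH
  obtain ⟨C2, V0, hC2, hV0, hz⟩ := zpt hRH
  obtain ⟨C3, hC3, hn⟩ := near_zero hRH V0 (by linarith)
  obtain ⟨K, hK, hw⟩ := wb
  refine ⟨100 * (1 + V0) * (1 + C1 + C3 + C2 * K), by positivity,
    fun δ L a b ε hδ hδ1 hL ha hab hb hL1 hbL hε hε1 => ?_⟩
  have hb0 : 0 < b := ha.trans hab
  have ha1 : a ≤ 1 / 16 := by linarith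
  obtain ⟨pa1, pa2, pa3, -, pa5⟩ := hpl a δ ha ha1 hδ hδ1
  obtain ⟨pb1, pb2, pb3, -, pb5⟩ := hpl b δ hb0 hb hδ hδ1
  obtain ⟨na, -⟩ := hn a δ ha ha1 hδ
  obtain ⟨nb, -⟩ := hn b δ hb0 hb hδ
  obtain ⟨w1, w2⟩ := hw δ L hδ hL
  obtain ⟨g1, g2⟩ := gh_sq_int hδ
  have pa3' := pa3 ε hε hε1
  have pb3' := pb3 ε hε hε1
  obtain ⟨A0, hA0⟩ : ∃ A0 : ℝ, A0 = (1 - ε) / (1 + ε) * (L / (a + b)) - (1 - ε) / 2 * L ^ 2 := ⟨_, rfl⟩
  obtain ⟨E, hE⟩ : ∃ E : ℝ, E = C2 * (L + 1 / (b - a) + 1 / ε) := ⟨_, rfl⟩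
  obtain ⟨G, hG⟩ : ∃ G : ℝ, G = 2 * ((1 - ε) / (1 + ε)) / (b ^ 2 - a ^ 2) := ⟨_, rfl⟩
  obtain ⟨x, hx⟩ : ∃ x : ℝ → ℝ, x = fun v => (ZF ⟨1 / 2 + a, v⟩).re := ⟨_, rfl⟩
  obtain ⟨y, hy⟩ : ∃ y : ℝ → ℝ, y = fun v => (ZF ⟨1 / 2 + b, v⟩).re := ⟨_, rfl⟩
  obtain ⟨g, hg⟩ : ∃ g : ℝ → ℝ, g = fun v => gh δ v ^ 2 := ⟨_, rfl⟩
  have hxv : ∀ v, (ZF ⟨1 / 2 + a, v⟩).re = x v := fun v => by rw [hx]
  have hyv : ∀ v, (ZF ⟨1 / 2 + b, v⟩).re = y v := fun v => by rw [hy]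
  have hgv : ∀ v, gh δ v ^ 2 = g v := fun v => by rw [hg]
  have hxe : ∀ v, x (-v) = x v := fun v => by rw [hx]; exact zre_even a v
  have hye : ∀ v, y (-v) = y v := fun v => by rw [hy]; exact zre_even b v
  have hge : ∀ v, g (-v) = g v := fun v => by rw [hg]; simp only; rw [gh_neg]
  have hg0 : ∀ v, 0 ≤ g v := fun v => by rw [hg]; positivity
  simp_rw [hxv, hgv] at pa1 pa2 pa3' pa5 na
  simp_rw [hyv, hgv] at pb1 pb2 pb3' pb5 nb
  simp_rw [hgv] at w1 w2 g1 g2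
  change ∫ t, g t * x t ^ 2 ≤ (1 + ε) * π * Iv a δ + _ at pa3'
  change ∫ t, g t * y t ^ 2 ≤ (1 + ε) * π * Iv b δ + _ at pb3'
  rw [← hA0]
  have hE0 : 0 ≤ E := by
    rw [hE]
    have : 0 < b - a := by linarith
    positivity
  -- pass to the half line
  rw [int_even (fun t => by rw [hge, hxe]) pa1] at pa3'
  rw [int_even (fun t => by rw [hge, hye]) pb1] at pb3'
  rw [int_even (fun t => by rw [hge, hxe]) pa2] at pa5
  rw [int_even (fun t => by rw [hge, hye]) pb2] at pb5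
  rw [int_even hge g1] at g2
  have hsub : Ioi V0 ⊆ Ioi (0 : ℝ) := Ioi_subset_Ioi (by linarith)
  have hsplit : ∀ f : ℝ → ℝ, Integrable f → ∫ v in Ioi 0, f v = (∫ v in Ioc 0 V0, f v) + ∫ v in Ioi V0, f v := by
    intro f hf
    rw [← setIntegral_union Ioc_disjoint_Ioi_same measurableSet_Ioi hf.integrableOn hf.integrableOn,
      Ioc_union_Ioi_eq_Ioi (by linarith)]
  have hxx : ∫ v in Ioi V0, g v * x v ^ 2 ≤ ∫ v in Ioi 0, g v * x v ^ 2 :=
    setIntegral_mono_set pa1.integrableOn (Filter.Eventually.of_forall fun v => mul_nonneg (hg0 v) (sq_nonneg _))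
      hsub.eventuallyLE
  have hyy : ∫ v in Ioi V0, g v * y v ^ 2 ≤ ∫ v in Ioi 0, g v * y v ^ 2 :=
    setIntegral_mono_set pb1.integrableOn (Filter.Eventually.of_forall fun v => mul_nonneg (hg0 v) (sq_nonneg _))
      hsub.eventuallyLE
  have sx := hsplit _ pa2
  have sy := hsplit _ pb2
  have sg := hsplit _ g1
  rw [sx] at pa5
  rw [sy] at pb5
  rw [sg] at g2
  obtain ⟨X, hX⟩ : ∃ X : ℝ, X = ∫ v in Ioi V0, g v * x v := ⟨_, rfl⟩
  obtain ⟨Y, hY⟩ : ∃ Y : ℝ, Y = ∫ v in Ioi V0, g v * y v := ⟨_, rfl⟩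
  obtain ⟨M, hM⟩ : ∃ M : ℝ, M = ∫ v in Ioi V0, g v := ⟨_, rfl⟩
  obtain ⟨S, hS⟩ : ∃ S : ℝ, S = ∫ v in Ioi V0, g v * (1 + (Real.log v - L) ^ 2) := ⟨_, rfl⟩
  rw [← hX] at pa5
  rw [← hY] at pb5
  rw [← hM] at g2
  have hSle : S ≤ K * δ := by
    rw [hS]
    refine le_trans ?_ w2
    exact setIntegral_mono_set w1 (Filter.Eventually.of_forall fun v => mul_nonneg (hg0 v) (by positivity))
      hsub.eventuallyLE
  have hS0 : 0 ≤ S := by
    rw [hS]
    exact integral_nonneg fun v => mul_nonneg (hg0 v) (by positivity)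
  have hw1 : IntegrableOn (fun v => g v * (1 + (Real.log v - L) ^ 2)) (Ioi V0) := w1.mono_set hsub
  -- the integrated inequality
  have main : A0 * M - E * S + (1 - ε) * L * (X + Y) - G * (b * X - a * Y) ≤
      (∫ v in Ioi V0, g v * x v ^ 2) + ∫ v in Ioi V0, g v * y v ^ 2 := by
    have i1 := g1.integrableOn (s := Ioi V0)
    have i2 := pa2.integrableOn (s := Ioi V0)
    have i3 := pb2.integrableOn (s := Ioi V0)
    have i4 := pa1.integrableOn (s := Ioi V0)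
    have i5 := pb1.integrableOn (s := Ioi V0)
    have j1 : IntegrableOn (fun v => A0 * g v) (Ioi V0) := i1.const_mul _
    have j2 : IntegrableOn (fun v => E * (g v * (1 + (Real.log v - L) ^ 2))) (Ioi V0) := hw1.const_mul _
    have j3 : IntegrableOn (fun v => ((1 - ε) * L - G * b) * (g v * x v)) (Ioi V0) := i2.const_mul _
    have j4 : IntegrableOn (fun v => ((1 - ε) * L + G * a) * (g v * y v)) (Ioi V0) := i3.const_mul _
    have e1 : A0 * M - E * S + (1 - ε) * L * (X + Y) - G * (b * X - a * Y) =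
        ∫ v in Ioi V0, ((A0 * g v - E * (g v * (1 + (Real.log v - L) ^ 2))) +
          (((1 - ε) * L - G * b) * (g v * x v) + ((1 - ε) * L + G * a) * (g v * y v))) := by
      have k1 : IntegrableOn (fun v => A0 * g v - E * (g v * (1 + (Real.log v - L) ^ 2))) (Ioi V0) := j1.sub j2
      have k2 : IntegrableOn (fun v => ((1 - ε) * L - G * b) * (g v * x v) +
        ((1 - ε) * L + G * a) * (g v * y v)) (Ioi V0) := j3.add j4
      rw [integral_add k1 k2, integral_sub j1 j2, integral_add j3 j4, integral_const_mul, integral_const_mul,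
        integral_const_mul, integral_const_mul, ← hM, ← hS, ← hX, ← hY]
      ring
    rw [e1, ← integral_add i4 i5]
    refine setIntegral_mono_on ((j1.sub j2).add (j3.add j4)) (i4.add i5) measurableSet_Ioi fun v hv => ?_
    have h1 := hz v (le_of_lt hv) a b ε L ha hab hb hε hε1 hL1 hbL
    rw [hxv, hyv, ← hA0, ← hE, ← hG] at h1
    have h2 := mul_le_mul_of_nonneg_left h1 (hg0 v)
    calc (A0 * g v - E * (g v * (1 + (Real.log v - L) ^ 2))) +
          (((1 - ε) * L - G * b) * (g v * x v) + ((1 - ε) * L + G * a) * (g v * y v)) =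
        g v * (A0 - E * (1 + (Real.log v - L) ^ 2) + (1 - ε) * L * (x v + y v) - G * (b * x v - a * y v)) := by ring
      _ ≤ g v * (x v ^ 2 + y v ^ 2) := h2
      _ = g v * x v ^ 2 + g v * y v ^ 2 := by ring
  -- final estimates
  have hm0 : 0 ≤ ∫ v in Ioc 0 V0, g v := integral_nonneg hg0
  have hm1 : ∫ v in Ioc 0 V0, g v ≤ V0 * δ ^ 2 := by
    have h1 := norm_setIntegral_le_of_norm_le_const (μ := volume) (s := Ioc 0 V0) (C := δ ^ 2)
      (f := g) (by simp) (fun v hv => by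
        rw [Real.norm_eq_abs, abs_of_nonneg (hg0 v), hg]
        simp only
        rw [← sq_abs]
        exact pow_le_pow_left₀ (abs_nonneg _) (gh_abs hδ v) 2)
    have hvol : volume.real (Ioc 0 V0) = V0 := by
      rw [Real.volume_real_Ioc, sub_zero, max_eq_left (by linarith)]
    rw [hvol] at h1
    have := le_abs_self (∫ v in Ioc 0 V0, g v)
    rw [Real.norm_eq_abs] at h1
    linarith
  have hM1 : |M - π * δ| ≤ V0 * δ ^ 2 := by
    rw [abs_le]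
    constructor <;> linarith
  obtain ⟨F, hF⟩ : ∃ F : ℝ, F = L + 1 / (b - a) + 1 / ε := ⟨_, rfl⟩
  obtain ⟨r, hr⟩ : ∃ r : ℝ, r = √δ / a ^ 2 := ⟨_, rfl⟩
  rw [← hF, ← hr]
  rw [← hF] at hE
  have hba : 0 < b - a := by linarith
  have hs0 : 0 < √δ := Real.sqrt_pos.2 hδ
  have hs2 : √δ * √δ = δ := Real.mul_self_sqrt hδ.le
  have hs1 : √δ ≤ 1 := Real.sqrt_le_one.2 (by linarith)
  have hds : δ ≤ √δ := by
    calc δ = √δ * √δ := hs2.symm
      _ ≤ √δ * 1 := by gcongr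
      _ = √δ := mul_one _
  have hr0 : 0 < r := by rw [hr]; positivity
  have hρ1 : δ * √δ / a ^ 2 = δ * r := by rw [hr]; ring
  have hρ2 : δ * √δ / b ^ 2 ≤ δ * r := by
    rw [← hρ1]
    gcongr
  have hρ3 : δ ^ 2 / a ^ 2 ≤ δ * r := by
    rw [← hρ1, pow_two]
    gcongr
  have hρ4 : δ ^ 2 / b ^ 2 ≤ δ * r := by
    refine le_trans ?_ hρ3
    gcongr
  have hρ5 : δ ^ 2 / a ≤ δ * r := by
    refine le_trans ?_ hρ3
    apply div_le_div_of_nonneg_left (sq_nonneg δ) (by positivity)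
    have : a ^ 2 ≤ a * 1 := by rw [pow_two]; gcongr; linarith
    linarith
  have hρ6 : δ ^ 2 / b ≤ δ * r := by
    refine le_trans ?_ hρ5
    gcongr
  have hXb : |X| ≤ (C1 + C3) * (δ * r) := by
    have h1 := abs_le.1 pa5
    have h2 := abs_le.1 na
    have e1 : C1 * (δ * √δ) / a ^ 2 = C1 * (δ * r) := by rw [hr]; ring
    have e2 : C3 * δ ^ 2 / a ≤ C3 * (δ * r) := by
      rw [mul_div_assoc]
      gcongr
    rw [e1] at h1
    have e3 : 0 ≤ C1 * (δ * r) := by positivity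
    rw [abs_le]
    constructor <;> linarith [h1.1, h1.2, h2.1, h2.2]
  have hYb : |Y| ≤ (C1 + C3) * (δ * r) := by
    have h1 := abs_le.1 pb5
    have h2 := abs_le.1 nb
    have e1 : C1 * (δ * √δ) / b ^ 2 ≤ C1 * (δ * r) := by
      rw [mul_div_assoc]
      gcongr
    have e2 : C3 * δ ^ 2 / b ≤ C3 * (δ * r) := by
      rw [mul_div_assoc]
      gcongr
    have e3 : 0 ≤ C1 * (δ * r) := by positivity
    rw [abs_le]
    constructor <;> linarith [h1.1, h1.2, h2.1, h2.2]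
  have hX1 := abs_le.1 hXb
  have hY1 := abs_le.1 hYb
  obtain ⟨Z, hZ⟩ : ∃ Z : ℝ, Z = (C1 + C3) * (δ * r) := ⟨_, rfl⟩
  rw [← hZ] at hX1 hY1
  have hZ0 : 0 ≤ Z := by rw [hZ]; positivity
  have hF1 : L ≤ F := by
    have : 0 < 1 / (b - a) := by positivity
    have : 0 < 1 / ε := by positivity
    rw [hF]
    linarith
  have hF2 : 1 / (b - a) ≤ F := by
    have : 0 < 1 / ε := by positivity
    rw [hF]
    linarith
  have hF3 : 1 / ε ≤ F := by
    have : 0 < 1 / (b - a) := by positivity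
    rw [hF]
    linarith
  have hF0 : 0 < F := by linarith
  -- the four error terms
  have t1 : A0 * (π * δ) - |A0| * (V0 * δ ^ 2) ≤ A0 * M := by
    have h1 : |A0 * (M - π * δ)| ≤ |A0| * (V0 * δ ^ 2) := by
      rw [abs_mul]
      exact mul_le_mul_of_nonneg_left hM1 (abs_nonneg _)
    have h2 := neg_abs_le (A0 * (M - π * δ))
    have h3 : A0 * M = A0 * (π * δ) + A0 * (M - π * δ) := by ring
    linarith
  have t2 : E * S ≤ C2 * K * (F * δ) := by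
    calc E * S ≤ E * (K * δ) := by gcongr
      _ = _ := by rw [hE]; ring
  have t3 : -(2 * (F * Z)) ≤ (1 - ε) * L * (X + Y) := by
    have h1 : 0 ≤ (1 - ε) * L := mul_nonneg (by linarith) (by linarith)
    have h2 : (1 - ε) * L ≤ F := by
      have : (1 - ε) * L ≤ 1 * L := by gcongr; linarith
      linarith
    have h3 : -(2 * Z) ≤ X + Y := by linarith [hX1.1, hY1.1]
    calc -(2 * (F * Z)) = F * (-(2 * Z)) := by ring
      _ ≤ ((1 - ε) * L) * (-(2 * Z)) := by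
          have := mul_le_mul_of_nonneg_right h2 (by linarith : 0 ≤ 2 * Z)
          linarith
      _ ≤ _ := mul_le_mul_of_nonneg_left h3 h1
  have hGa : G * (b + a) ≤ 2 * F := by
    have h1 : b ^ 2 - a ^ 2 = (b - a) * (b + a) := by ring
    have h2 : 0 < b + a := by linarith
    have h3 : G * (b + a) = 2 * ((1 - ε) / (1 + ε)) * (1 / (b - a)) := by
      rw [hG, h1]
      field_simp
    rw [h3]
    have h4 : (1 - ε) / (1 + ε) ≤ 1 := by
      rw [div_le_one (by linarith)]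
      linarith
    have h5 : 0 ≤ (1 - ε) / (1 + ε) := div_nonneg (by linarith) (by linarith)
    calc 2 * ((1 - ε) / (1 + ε)) * (1 / (b - a)) ≤ 2 * 1 * F := by gcongr
      _ = 2 * F := by ring
  have hG0 : 0 ≤ G := by
    rw [hG]
    have h5 : 0 ≤ (1 - ε) / (1 + ε) := div_nonneg (by linarith) (by linarith)
    have h6 : 0 < b ^ 2 - a ^ 2 := by nlinarith
    positivity
  have t4 : G * (b * X - a * Y) ≤ 2 * (F * Z) := by
    have h1 : b * X - a * Y ≤ (b + a) * Z := by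
      have h2 := mul_le_mul_of_nonneg_left hX1.2 hb0.le
      have h3 := mul_le_mul_of_nonneg_left hY1.1 ha.le
      linarith
    calc G * (b * X - a * Y) ≤ G * ((b + a) * Z) := mul_le_mul_of_nonneg_left h1 hG0
      _ = (G * (b + a)) * Z := by ring
      _ ≤ (2 * F) * Z := by gcongr
      _ = _ := by ring
  have t5 : C1 / ε * δ ^ 2 / a ^ 2 ≤ C1 * (F * (δ * r)) := by
    calc C1 / ε * δ ^ 2 / a ^ 2 = C1 * (1 / ε * (δ ^ 2 / a ^ 2)) := by ring
      _ ≤ C1 * (F * (δ * r)) := by gcongr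
  have t6 : C1 / ε * δ ^ 2 / b ^ 2 ≤ C1 * (F * (δ * r)) := by
    calc C1 / ε * δ ^ 2 / b ^ 2 = C1 * (1 / ε * (δ ^ 2 / b ^ 2)) := by ring
      _ ≤ C1 * (F * (δ * r)) := by gcongr
  have total : 2 * π * A0 * δ - 2 * (|A0| * (V0 * δ ^ 2)) - 2 * (C2 * K * (F * δ)) - 8 * (F * Z) -
      2 * (C1 * (F * (δ * r))) ≤ (1 + ε) * π * (Iv a δ + Iv b δ) := by
    have e1 : (1 + ε) * π * (Iv a δ + Iv b δ) = (1 + ε) * π * Iv a δ + (1 + ε) * π * Iv b δ := by ring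
    have e2 : 2 * π * A0 * δ = 2 * (A0 * (π * δ)) := by ring
    rw [e1, e2]
    linarith
  refine le_trans ?_ total
  have e3 : F * Z = (C1 + C3) * (F * (δ * r)) := by rw [hZ]; ring
  rw [e3]
  obtain ⟨P1, hP1⟩ : ∃ P1 : ℝ, P1 = |A0| * δ ^ 2 := ⟨_, rfl⟩
  obtain ⟨P2, hP2⟩ : ∃ P2 : ℝ, P2 = F * δ := ⟨_, rfl⟩
  obtain ⟨P3, hP3⟩ : ∃ P3 : ℝ, P3 = F * (δ * r) := ⟨_, rfl⟩
  have q1 : 0 ≤ P1 := by rw [hP1]; positivity
  have q2 : 0 ≤ P2 := by rw [hP2]; positivity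
  have q3 : 0 ≤ P3 := by rw [hP3]; positivity
  have e4 : |A0| * (V0 * δ ^ 2) = V0 * P1 := by rw [hP1]; ring
  have e5 : ∀ c : ℝ, c * δ * (|A0| * δ + F * (1 + r)) = c * (P1 + P2 + P3) := by
    intro c
    rw [hP1, hP2, hP3]
    ring
  rw [e4, e5, ← hP2, ← hP3]
  obtain ⟨B, hB⟩ : ∃ B : ℝ, B = 100 * (1 + V0) * (1 + C1 + C3 + C2 * K) := ⟨_, rfl⟩
  rw [← hB]
  have hCK : 0 ≤ C2 * K := by positivity
  have b0 : 100 * (1 + C1 + C3 + C2 * K) ≤ B := by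
    rw [hB]
    have : 0 ≤ 100 * V0 * (1 + C1 + C3 + C2 * K) := by positivity
    linarith
  have b1 : 2 * V0 ≤ B := by
    have h1 : 100 * (1 + V0) * 1 ≤ B := by
      rw [hB]
      gcongr
      linarith
    linarith
  have b2 : 2 * (C2 * K) ≤ B := by linarith
  have b3 : 8 * (C1 + C3) + 2 * C1 ≤ B := by linarith
  have c1 := mul_le_mul_of_nonneg_right b1 q1
  have c2 := mul_le_mul_of_nonneg_right b2 q2
  have c3 := mul_le_mul_of_nonneg_right b3 q3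
  have e6 : B * (P1 + P2 + P3) = B * P1 + B * P2 + B * P3 := by ring
  have e7 : 2 * π * A0 * δ = 2 * π * A0 * δ := rfl
  rw [e6]
  linarith

end Pool.Agent.U507.GM
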