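import Pool.Agent.U507.GM.ZLc

/-!
# The lower bound for the variance integral
-/

set_option autoImplicit false

open Complex Filter Topology Set MeasureTheory Metric
open scoped ComplexConjugate FourierTransform Real

namespace Pool.Agent.U507.GM

lemma shift_Ioi (f : ℝ → ℝ) (a d : ℝ) : ∫ y in Ioi a, f (y + d) = ∫ y in Ioi (a + d), f y := by
  rw [← integral_indicator measurableSet_Ioi, ← integral_indicator measurableSet_Ioi,
    ← integral_add_right_eq_self ((Ioi (a + d)).indicator fun y => f y) d]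
  congr 1
  funext y
  by_cases h : a < y
  · rw [indicator_of_mem (mem_Ioi.2 h), indicator_of_mem (mem_Ioi.2 (by linarith))]
  · rw [indicator_of_notMem (by simpa using h), indicator_of_notMem (by simpa using h)]

/-- the variance integral over `y > 0` -/
noncomputable def Wv (η δ : ℝ) : ℝ :=
  ∫ y in Ioi 0, Real.exp (-(1 + 2 * η) * y) * (Rf (Real.exp (y + δ)) - Rf (Real.exp y)) ^ 2

lemma Wv_eq (η δ y : ℝ) : Real.exp (-(1 + 2 * η) * y) * (Rf (Real.exp (y + δ)) - Rf (Real.exp y)) ^ 2 =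
    Real.exp ((1 / 2 + η) * δ) * Ef η δ (y + δ / 2) ^ 2 := by
  unfold Ef
  rw [mul_pow, ← Real.exp_nat_mul, ← mul_assoc, ← Real.exp_add]
  congr 1
  · congr 1
    push_cast
    ring
  · rw [show y + δ / 2 + δ / 2 = y + δ by ring, show y + δ / 2 - δ / 2 = y by ring]

lemma Wv_int (hRH : RiemannHypothesis) {η : ℝ} (hη : 0 < η) (hη1 : η ≤ 1 / 2) (δ : ℝ) :
    Integrable fun y => Real.exp (-(1 + 2 * η) * y) * (Rf (Real.exp (y + δ)) - Rf (Real.exp y)) ^ 2 := by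
  simp_rw [Wv_eq]
  exact ((Ef_sq hRH hη hη1 δ).comp_add_right (δ / 2)).const_mul _

lemma Iv_split (hRH : RiemannHypothesis) {η δ : ℝ} (hη : 0 < η) (hη1 : η ≤ 1 / 2) (hδ : 0 < δ) (hδ1 : δ ≤ 1 / 2) :
    Iv η δ ≤ 16 * δ ^ 3 + Wv η δ ∧ Wv η δ ≤ 2 * Iv η δ := by
  have hi := Ef_sq hRH hη hη1 δ
  have h1 := integral_add_compl (μ := volume) (s := Ioi (δ / 2)) measurableSet_Ioi hi
  rw [compl_Ioi] at h1
  have h2 : Wv η δ = Real.exp ((1 / 2 + η) * δ) * ∫ y in Ioi (δ / 2), Ef η δ y ^ 2 := by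
    unfold Wv
    simp_rw [Wv_eq]
    rw [integral_const_mul]
    congr 1
    have h3 := shift_Ioi (fun y => Ef η δ y ^ 2) 0 (δ / 2)
    rw [zero_add] at h3
    exact h3
  have h4 : ∫ y in Iic (δ / 2), Ef η δ y ^ 2 ≤ 16 * δ ^ 3 := by
    have e : ∀ y ∈ Iic (δ / 2), Ef η δ y ^ 2 ≤ 16 * δ ^ 2 * chi δ y := by
      intro y hy
      rw [chi_eq]
      split_ifs with h
      · have h2 := Ef_small hη hη1 hδ hδ1 h.1 h.2
        rw [← sq_abs]
        calc |Ef η δ y| ^ 2 ≤ (4 * δ) ^ 2 := pow_le_pow_left₀ (abs_nonneg _) h2 2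
          _ = _ := by ring
      · have hy' : y ≤ δ / 2 := hy
        rw [Ef_zero η hδ (by
          by_contra hc
          exact h ⟨by linarith, hy'⟩)]
        norm_num
    have hc := (chi_int δ).const_mul (16 * δ ^ 2)
    calc ∫ y in Iic (δ / 2), Ef η δ y ^ 2 ≤ ∫ y in Iic (δ / 2), 16 * δ ^ 2 * chi δ y :=
          setIntegral_mono_on hi.integrableOn hc.integrableOn measurableSet_Iic e
      _ ≤ ∫ y, 16 * δ ^ 2 * chi δ y := by
          refine setIntegral_le_integral hc (Filter.Eventually.of_forall fun y => ?_)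
          simp only [Pi.zero_apply]
          rw [chi_eq]
          split_ifs <;> positivity
      _ = 16 * δ ^ 3 := by
          rw [integral_const_mul, chi_int1 hδ]
          ring
  have h5 : 0 ≤ ∫ y in Ioi (δ / 2), Ef η δ y ^ 2 := integral_nonneg fun y => sq_nonneg _
  have h6 : 0 ≤ ∫ y in Iic (δ / 2), Ef η δ y ^ 2 := integral_nonneg fun y => sq_nonneg _
  have h7 : 1 ≤ Real.exp ((1 / 2 + η) * δ) := Real.one_le_exp (by positivity)
  have h8 : Real.exp ((1 / 2 + η) * δ) ≤ 2 := by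
    have h5 : (1 / 2 + η) * δ ≤ 1 / 2 := by nlinarith
    have h6 := Real.exp_bound_div_one_sub_of_interval (x := 1 / 2) (by norm_num) (by norm_num)
    have h7 := Real.exp_le_exp.2 h5
    norm_num at h6
    linarith
  unfold Iv
  rw [h2]
  constructor <;> nlinarith

lemma Wv_anti (hRH : RiemannHypothesis) {a b : ℝ} (ha : 0 < a) (hab : a ≤ b) (hb : b ≤ 1 / 2) (δ : ℝ) :
    Wv b δ ≤ Wv a δ := by
  unfold Wv
  refine setIntegral_mono_on (Wv_int hRH (ha.trans_le hab) hb δ).integrableOn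
    (Wv_int hRH ha (hab.trans hb) δ).integrableOn measurableSet_Ioi fun y hy => ?_
  have hy0 : (0 : ℝ) < y := hy
  have : Real.exp (-(1 + 2 * b) * y) ≤ Real.exp (-(1 + 2 * a) * y) := by
    apply Real.exp_le_exp.2
    nlinarith
  gcongr

lemma exp_facts {L δ : ℝ} (hL : 1 ≤ L) (hδ : 0 < δ) (h : |L + Real.log δ| ≤ 2) :
    L ^ 2 * δ ≤ 80 ∧ L ^ 2 * √δ ≤ 80 ∧ (16 ≤ L → δ ≤ 1 / 2) := by
  have h1 := (abs_le.1 h).2
  have h2 : δ ≤ Real.exp (2 - L) := by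
    rw [← Real.log_le_iff_le_exp hδ]
    linarith
  have h3 : √δ ≤ Real.exp (1 - L / 2) := by
    rw [Real.sqrt_le_left (Real.exp_pos _).le, ← Real.exp_nat_mul]
    refine h2.trans (le_of_eq ?_)
    congr 1
    push_cast
    ring
  have h4 : L ^ 2 ≤ 8 * Real.exp (L / 2) := by
    have := Real.quadratic_le_exp_of_nonneg (x := L / 2) (by linarith)
    nlinarith
  have he : Real.exp 1 < 2.7182818286 := Real.exp_one_lt_d9
  have h5 : L ^ 2 * √δ ≤ 8 * Real.exp 1 := by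
    calc L ^ 2 * √δ ≤ (8 * Real.exp (L / 2)) * Real.exp (1 - L / 2) := by gcongr
      _ = 8 * (Real.exp (L / 2) * Real.exp (1 - L / 2)) := by ring
      _ = 8 * Real.exp 1 := by
          rw [← Real.exp_add]
          congr 2
          ring
  have h6 : √δ ≤ Real.exp 1 := by
    refine h3.trans (Real.exp_le_exp.2 ?_)
    linarith
  have h7 : L ^ 2 * δ = (L ^ 2 * √δ) * √δ := by
    rw [mul_assoc, Real.mul_self_sqrt hδ.le]
  have hs : 0 ≤ √δ := Real.sqrt_nonneg _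
  have hp := Real.exp_pos 1
  refine ⟨?_, by linarith, fun h16 => ?_⟩
  · rw [h7]
    calc (L ^ 2 * √δ) * √δ ≤ (8 * Real.exp 1) * Real.exp 1 := by gcongr
      _ ≤ (8 * 2.72) * 2.72 := by
          have : Real.exp 1 ≤ 2.72 := by linarith
          gcongr
      _ ≤ 80 := by norm_num
  · have h8 : Real.exp (2 - L) ≤ Real.exp (-1) := Real.exp_le_exp.2 (by linarith)
    have h9 : Real.exp (-1) ≤ 1 / 2 := by
      rw [Real.exp_neg, inv_eq_one_div]
      apply one_div_le_one_div_of_le (by norm_num)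
      have := Real.add_one_le_exp 1
      linarith
    linarith

/-- **the lower bound for the variance integral** -/
theorem lb_fin (hRH : RiemannHypothesis) {c ε : ℝ} (hc : 0 < c) (hc1 : c ≤ 1) (hε : 0 < ε) :
    ∃ L0 : ℝ, 16 ≤ L0 ∧ ∀ L δ : ℝ, L0 ≤ L → 0 < δ → |L + Real.log δ| ≤ 2 →
      δ * L ^ 2 * (1 / c - 1 / 2 - ε) ≤ Wv (c / (2 * L)) δ := by
  -- choice of `κ`
  obtain ⟨κ, hκ0, hκ1, hκ⟩ : ∃ κ : ℝ, 0 < κ ∧ κ < 1 ∧
      1 / c - 1 / 2 - ε / 2 < ((1 - κ) / (1 + κ) * (2 / ((2 + κ) * c)) - (1 - κ) / 2) / (1 + κ) := by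
    have hcont : ContinuousAt (fun κ : ℝ => ((1 - κ) / (1 + κ) * (2 / ((2 + κ) * c)) - (1 - κ) / 2) / (1 + κ)) 0 := by
      have h1 : (1 + (0 : ℝ)) ≠ 0 := by norm_num
      have h2 : ((2 + (0 : ℝ)) * c) ≠ 0 := by positivity
      fun_prop (disch := assumption)
    have h0 : 1 / c - 1 / 2 - ε / 2 < (fun κ : ℝ => ((1 - κ) / (1 + κ) * (2 / ((2 + κ) * c)) - (1 - κ) / 2) / (1 + κ)) 0 := by
      simp only
      have : ((1 - (0 : ℝ)) / (1 + 0) * (2 / ((2 + 0) * c)) - (1 - 0) / 2) / (1 + 0) = 1 / c - 1 / 2 := by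
        field_simp
        ring
      rw [this]
      linarith
    have h1 := hcont.eventually (lt_mem_nhds h0)
    have h2 : ∀ᶠ κ : ℝ in 𝓝[>] 0, 1 / c - 1 / 2 - ε / 2 <
        ((1 - κ) / (1 + κ) * (2 / ((2 + κ) * c)) - (1 - κ) / 2) / (1 + κ) := nhdsWithin_le_nhds h1
    have h3 : ∀ᶠ κ : ℝ in 𝓝[>] 0, κ < 1 := nhdsWithin_le_nhds (gt_mem_nhds one_pos)
    obtain ⟨κ, h4, h5, h6⟩ := (h2.and (h3.and self_mem_nhdsWithin)).exists
    exact ⟨κ, h6, h5, h4⟩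
  obtain ⟨C, hC, hlb⟩ := lb_int hRH
  obtain ⟨A1, hA1⟩ : ∃ A1 : ℝ, A1 = (1 - κ) / (1 + κ) * (2 / ((2 + κ) * c)) - (1 - κ) / 2 := ⟨_, rfl⟩
  rw [← hA1] at hκ
  obtain ⟨K1, hK1⟩ : ∃ K1 : ℝ, K1 = C * (80 * |A1| + (1 + 2 / (κ * c) + 1 / κ) * (1 + 320 / c ^ 2)) + 32 * 80 := ⟨_, rfl⟩
  have hK10 : 0 < K1 := by rw [hK1]; positivity
  refine ⟨max 16 (K1 / ε), le_max_left _ _, fun L δ hL hδ hLδ => ?_⟩
  have hL16 : 16 ≤ L := (le_max_left _ _).trans hL
  have hLK : K1 / ε ≤ L := (le_max_right _ _).trans hL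
  rw [div_le_iff₀ hε] at hLK
  have hL0 : 0 < L := by linarith
  obtain ⟨x1, x2, x3⟩ := exp_facts (by linarith) hδ hLδ
  have hδ1 := x3 hL16
  obtain ⟨a, ha⟩ : ∃ a : ℝ, a = c / (2 * L) := ⟨_, rfl⟩
  obtain ⟨b, hb⟩ : ∃ b : ℝ, b = (1 + κ) * a := ⟨_, rfl⟩
  have ha0 : 0 < a := by rw [ha]; positivity
  have hab : a < b := by rw [hb]; nlinarith
  have haL : a * L = c / 2 := by rw [ha]; field_simp
  have hbL : b * L ≤ 1 := by
    rw [hb, mul_assoc, haL]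
    nlinarith
  have hb16 : b ≤ 1 / 16 := by
    by_contra hcon
    push Not at hcon
    nlinarith
  have hmain := hlb δ L a b κ hδ hδ1 hLδ ha0 hab hb16 (by linarith) hbL hκ0 hκ1.le
  have e1 : (1 - κ) / (1 + κ) * (L / (a + b)) - (1 - κ) / 2 * L ^ 2 = A1 * L ^ 2 := by
    have h1 : a + b = (2 + κ) * c / (2 * L) := by
      rw [hb, ha]
      ring
    rw [h1, hA1]
    field_simp
  rw [e1] at hmain
  have e2 : 1 / (b - a) = 2 * L / (κ * c) := by
    rw [hb, ha]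
    have : (1 + κ) * (c / (2 * L)) - c / (2 * L) = κ * c / (2 * L) := by ring
    rw [this]
    field_simp
  have e3 : √δ / a ^ 2 = 4 / c ^ 2 * (L ^ 2 * √δ) := by
    rw [ha]
    field_simp
    ring
  have herr : C * δ * (|A1 * L ^ 2| * δ + (L + 1 / (b - a) + 1 / κ) * (1 + √δ / a ^ 2)) ≤
      (K1 - 32 * 80) * δ * L := by
    rw [hK1, e2, e3, abs_mul, abs_of_nonneg (sq_nonneg L)]
    have h1 : |A1| * L ^ 2 * δ ≤ 80 * |A1| * L := by
      calc |A1| * L ^ 2 * δ = |A1| * (L ^ 2 * δ) := by ring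
        _ ≤ |A1| * 80 := by gcongr
        _ ≤ |A1| * 80 * L := le_mul_of_one_le_right (by positivity) (by linarith)
        _ = _ := by ring
    have h2 : L + 2 * L / (κ * c) + 1 / κ ≤ (1 + 2 / (κ * c) + 1 / κ) * L := by
      have : 1 / κ ≤ 1 / κ * L := le_mul_of_one_le_right (by positivity) (by linarith)
      have e : (1 + 2 / (κ * c) + 1 / κ) * L = L + 2 * L / (κ * c) + 1 / κ * L := by ring
      rw [e]
      linarith
    have h3 : 4 / c ^ 2 * (L ^ 2 * √δ) ≤ 320 / c ^ 2 := by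
      calc 4 / c ^ 2 * (L ^ 2 * √δ) ≤ 4 / c ^ 2 * 80 := by gcongr
        _ = _ := by ring
    calc C * δ * (|A1| * L ^ 2 * δ + (L + 2 * L / (κ * c) + 1 / κ) * (1 + 4 / c ^ 2 * (L ^ 2 * √δ))) ≤
          C * δ * (80 * |A1| * L + ((1 + 2 / (κ * c) + 1 / κ) * L) * (1 + 320 / c ^ 2)) := by gcongr
      _ = _ := by ring
  obtain ⟨s1, -⟩ := Iv_split hRH ha0 (by linarith) hδ hδ1
  obtain ⟨s2, -⟩ := Iv_split hRH (ha0.trans hab) (by linarith) hδ hδ1
  have s3 := Wv_anti hRH ha0 hab.le (by linarith) δ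
  have h32 : 32 * δ ^ 3 ≤ 32 * 80 * δ * L := by
    have h1 : δ ^ 2 ≤ 80 * L := by
      have : δ ^ 2 ≤ 1 := by nlinarith
      linarith
    calc 32 * δ ^ 3 = 32 * δ * δ ^ 2 := by ring
      _ ≤ 32 * δ * (80 * L) := by gcongr
      _ = _ := by ring
  rw [← ha]
  have hπ := Real.pi_gt_three
  obtain ⟨I, hI⟩ : ∃ I : ℝ, I = Iv a δ + Iv b δ := ⟨_, rfl⟩
  rw [← hI] at hmain
  have hIle : I ≤ 32 * δ ^ 3 + 2 * Wv a δ := by rw [hI]; linarith
  -- `I ≥ 2 (A1/(1+κ)) L² δ - (K1 - 2560) δ L`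
  have hI2 : 2 * (A1 / (1 + κ)) * L ^ 2 * δ - (K1 - 32 * 80) * δ * L ≤ I := by
    have h1 : 2 * π * (A1 * L ^ 2) * δ - (K1 - 32 * 80) * δ * L ≤ (1 + κ) * π * I := by linarith
    have hpk : 1 ≤ (1 + κ) * π := by nlinarith
    have h2 : 0 ≤ (K1 - 32 * 80) * δ * L := by
      rw [hK1]
      have : 0 ≤ C * (80 * |A1| + (1 + 2 / (κ * c) + 1 / κ) * (1 + 320 / c ^ 2)) := by positivity
      have : 0 ≤ C * (80 * |A1| + (1 + 2 / (κ * c) + 1 / κ) * (1 + 320 / c ^ 2)) + 32 * 80 - 32 * 80 := by linarith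
      positivity
    have h3 : (1 + κ) * π * (2 * (A1 / (1 + κ)) * L ^ 2 * δ - (K1 - 32 * 80) * δ * L) ≤ (1 + κ) * π * I := by
      have e : (1 + κ) * π * (2 * (A1 / (1 + κ)) * L ^ 2 * δ - (K1 - 32 * 80) * δ * L) =
          2 * π * (A1 * L ^ 2) * δ - (1 + κ) * π * ((K1 - 32 * 80) * δ * L) := by
        field_simp
      rw [e]
      have : (K1 - 32 * 80) * δ * L ≤ (1 + κ) * π * ((K1 - 32 * 80) * δ * L) := le_mul_of_one_le_left h2 hpk
      linarith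
    exact le_of_mul_le_mul_left h3 (by linarith)
  have h4 : (1 / c - 1 / 2 - ε / 2) * (L ^ 2 * δ) ≤ (A1 / (1 + κ)) * (L ^ 2 * δ) := by
    gcongr
  have h5 : K1 * (δ * L) ≤ ε * L ^ 2 * δ := by
    calc K1 * (δ * L) ≤ (L * ε) * (δ * L) := by gcongr
      _ = _ := by ring
  linarith

end Pool.Agent.U507.GM
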