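import Pool.Agent.U507.GM.ZLd
import Pool.Agent.Y749.Rig.Sec
import Pool.Agent.Y749.Rig.Est

/-!
# Mean square of sums of Poisson kernels over the zeros
-/

set_option autoImplicit false

open Complex Filter Topology Set MeasureTheory Metric
open scoped ComplexConjugate FourierTransform Real

namespace Pool.Agent.U507.GM

open Pool.Agent.Y749.Rig (ZZ mm mm_nonneg sm_all est_all W0 W0_nonneg mem_ZZ)

lemma phi_int {η : ℝ} (hη : 0 < η) (γ : ℝ) : Integrable (fun v : ℝ => η / (η ^ 2 + (v - γ) ^ 2)) ∧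
    ∫ v : ℝ, η / (η ^ 2 + (v - γ) ^ 2) = π := by
  have e : (fun v : ℝ => η / (η ^ 2 + (v - γ) ^ 2)) = fun v => (fun u : ℝ => 1 / η * (1 + (u / η) ^ 2)⁻¹) (v - γ) := by
    funext v
    have : 0 < η ^ 2 + (v - γ) ^ 2 := by positivity
    field_simp
  have h1 : Integrable (fun u : ℝ => 1 / η * (1 + (u / η) ^ 2)⁻¹) :=
    (integrable_inv_one_add_sq.comp_div hη.ne').const_mul _
  constructor
  · rw [e]
    exact h1.comp_sub_right γ
  · rw [e, integral_sub_right_eq_self (fun u : ℝ => 1 / η * (1 + (u / η) ^ 2)⁻¹) γ, integral_const_mul,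
      MeasureTheory.Measure.integral_comp_div (fun u : ℝ => (1 + u ^ 2)⁻¹) η, integral_univ_inv_one_add_sq,
      abs_of_pos hη, smul_eq_mul]
    field_simp

lemma phi_pt {η : ℝ} (hη : 0 < η) (v γ γ' : ℝ) :
    (η / (η ^ 2 + (v - γ) ^ 2)) * (η / (η ^ 2 + (v - γ') ^ 2)) ≤
      (η / (η ^ 2 + (v - γ) ^ 2) + η / (η ^ 2 + (v - γ') ^ 2)) * (4 * η / (4 * η ^ 2 + (γ - γ') ^ 2)) := by
  have h1 : 0 < η ^ 2 + (v - γ) ^ 2 := by positivity
  have h2 : 0 < η ^ 2 + (v - γ') ^ 2 := by positivity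
  have h3 : 0 < 4 * η ^ 2 + (γ - γ') ^ 2 := by positivity
  have e : (η / (η ^ 2 + (v - γ) ^ 2) + η / (η ^ 2 + (v - γ') ^ 2)) * (4 * η / (4 * η ^ 2 + (γ - γ') ^ 2)) =
      (η / (η ^ 2 + (v - γ) ^ 2)) * (η / (η ^ 2 + (v - γ') ^ 2)) *
        (4 * ((η ^ 2 + (v - γ) ^ 2) + (η ^ 2 + (v - γ') ^ 2)) / (4 * η ^ 2 + (γ - γ') ^ 2)) := by
    field_simp
    ring
  rw [e]
  apply le_mul_of_one_le_right (by positivity)
  rw [le_div_iff₀ h3]
  nlinarith [sq_nonneg ((v - γ) + (v - γ'))]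

lemma phi_prod {η : ℝ} (hη : 0 < η) (γ γ' : ℝ) :
    Integrable (fun v : ℝ => (η / (η ^ 2 + (v - γ) ^ 2)) * (η / (η ^ 2 + (v - γ') ^ 2))) ∧
    ∫ v : ℝ, (η / (η ^ 2 + (v - γ) ^ 2)) * (η / (η ^ 2 + (v - γ') ^ 2)) ≤
      2 * π * (4 * η / (4 * η ^ 2 + (γ - γ') ^ 2)) := by
  obtain ⟨a1, a2⟩ := phi_int hη γ
  obtain ⟨b1, b2⟩ := phi_int hη γ'
  have hs : Integrable (fun v : ℝ => (η / (η ^ 2 + (v - γ) ^ 2) + η / (η ^ 2 + (v - γ') ^ 2)) *
      (4 * η / (4 * η ^ 2 + (γ - γ') ^ 2))) := (a1.add b1).mul_const _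
  have hi : Integrable (fun v : ℝ => (η / (η ^ 2 + (v - γ) ^ 2)) * (η / (η ^ 2 + (v - γ') ^ 2))) := by
    refine Integrable.mono' hs (a1.1.mul b1.1) (Filter.Eventually.of_forall fun v => ?_)
    rw [Real.norm_eq_abs, abs_of_nonneg (by positivity)]
    exact phi_pt hη v γ γ'
  refine ⟨hi, ?_⟩
  calc ∫ v : ℝ, (η / (η ^ 2 + (v - γ) ^ 2)) * (η / (η ^ 2 + (v - γ') ^ 2)) ≤
        ∫ v : ℝ, (η / (η ^ 2 + (v - γ) ^ 2) + η / (η ^ 2 + (v - γ') ^ 2)) *
          (4 * η / (4 * η ^ 2 + (γ - γ') ^ 2)) := integral_mono hi hs fun v => phi_pt hη v γ γ'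
    _ = _ := by
        rw [integral_mul_const, integral_add a1 b1, a2, b2]
        ring

/-- the sum of Poisson kernels over the zeros up to `T` -/
noncomputable def PU (T η v : ℝ) : ℝ := ∑ s ∈ ZZ T, mm s * (η / (η ^ 2 + (v - s.im) ^ 2))

lemma PU_sq (T : ℝ) {η : ℝ} (hη : 0 < η) : Integrable (fun v => PU T η v ^ 2) ∧
    ∫ v, PU T η v ^ 2 ≤ ∑ s ∈ ZZ T, ∑ s' ∈ ZZ T, mm s * mm s' *
      (2 * π * (4 * η / (4 * η ^ 2 + (s.im - s'.im) ^ 2))) := by
  have e : (fun v => PU T η v ^ 2) = fun v => ∑ s ∈ ZZ T, ∑ s' ∈ ZZ T,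
      (mm s * mm s') * ((η / (η ^ 2 + (v - s.im) ^ 2)) * (η / (η ^ 2 + (v - s'.im) ^ 2))) := by
    funext v
    unfold PU
    rw [pow_two, Finset.sum_mul_sum]
    refine Finset.sum_congr rfl fun s _ => Finset.sum_congr rfl fun s' _ => ?_
    ring
  have hi : ∀ s s' : ℂ, Integrable fun v : ℝ =>
      (mm s * mm s') * ((η / (η ^ 2 + (v - s.im) ^ 2)) * (η / (η ^ 2 + (v - s'.im) ^ 2))) := fun s s' =>
    ((phi_prod hη s.im s'.im).1).const_mul _
  rw [e]
  constructor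
  · exact integrable_finsetSum _ fun s _ => integrable_finsetSum _ fun s' _ => hi s s'
  · rw [integral_finsetSum _ fun s _ => integrable_finsetSum _ fun s' _ => hi s s']
    refine Finset.sum_le_sum fun s _ => ?_
    rw [integral_finsetSum _ fun s' _ => hi s s']
    refine Finset.sum_le_sum fun s' _ => ?_
    rw [integral_const_mul]
    exact mul_le_mul_of_nonneg_left (phi_prod hη s.im s'.im).2 (mul_nonneg (mm_nonneg _) (mm_nonneg _))

/-- **mean square of the sums of Poisson kernels** -/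
theorem PU_bound : ∃ C T0 : ℝ, 0 < C ∧ 10 ≤ T0 ∧ ∀ T η : ℝ, T0 ≤ T → 0 < η → η * Real.log T ≤ π →
    ∫ v, PU T η v ^ 2 ≤ C * (T * Real.log T) / η := by
  obtain ⟨C, T0, hC, hT0, h⟩ := sm_all
  refine ⟨2 * π * (W0 + 1) * C, T0, ?_, hT0, fun T η hT hη hηT => ?_⟩
  · have := W0_nonneg
    have := Real.pi_pos
    positivity
  have hlog : 0 < Real.log T := Real.log_pos (by linarith)
  have hCT : 0 ≤ C * T := by
    have : 0 ≤ T := by linarith
    positivity
  have h1 := est_all (A := ZZ T) (B := ZZ T) hlog hCT hCT mm_nonneg mm_nonneg (h T hT) (h T hT)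
  have e1 : Real.log T * Real.sqrt (C * T) * Real.sqrt (C * T) = Real.log T * (C * T) := by
    rw [mul_assoc, Real.mul_self_sqrt hCT]
  rw [e1] at h1
  refine (PU_sq T hη).2.trans ?_
  have hπ := Real.pi_pos
  calc ∑ s ∈ ZZ T, ∑ s' ∈ ZZ T, mm s * mm s' * (2 * π * (4 * η / (4 * η ^ 2 + (s.im - s'.im) ^ 2))) ≤
        ∑ s ∈ ZZ T, ∑ s' ∈ ZZ T, (2 * π / η) * (mm s * mm s' *
          (1 / (1 + ((s.im - s'.im) * Real.log T / (2 * π)) ^ 2))) := by
        refine Finset.sum_le_sum fun s _ => Finset.sum_le_sum fun s' _ => ?_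
        have hm : 0 ≤ mm s * mm s' := mul_nonneg (mm_nonneg _) (mm_nonneg _)
        have key : 4 * η / (4 * η ^ 2 + (s.im - s'.im) ^ 2) ≤
            1 / η * (1 / (1 + ((s.im - s'.im) * Real.log T / (2 * π)) ^ 2)) := by
          have e2 : 4 * η / (4 * η ^ 2 + (s.im - s'.im) ^ 2) =
              1 / η * (1 / (1 + ((s.im - s'.im) / (2 * η)) ^ 2)) := by
            have : 0 < 4 * η ^ 2 + (s.im - s'.im) ^ 2 := by positivity
            field_simp
            ring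
          rw [e2]
          gcongr 1 / η * (1 / (1 + ?_))
          have e3 : ((s.im - s'.im) * Real.log T / (2 * π)) ^ 2 = ((s.im - s'.im) / (2 * η)) ^ 2 *
              (η * Real.log T / π) ^ 2 := by
            field_simp
          rw [e3]
          apply mul_le_of_le_one_right (sq_nonneg _)
          apply pow_le_one₀ (by positivity)
          rw [div_le_one hπ]
          exact hηT
        calc mm s * mm s' * (2 * π * (4 * η / (4 * η ^ 2 + (s.im - s'.im) ^ 2))) ≤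
              mm s * mm s' * (2 * π * (1 / η * (1 / (1 + ((s.im - s'.im) * Real.log T / (2 * π)) ^ 2)))) := by
              gcongr
          _ = _ := by ring
    _ = (2 * π / η) * ∑ s ∈ ZZ T, ∑ s' ∈ ZZ T, mm s * mm s' *
          (1 / (1 + ((s.im - s'.im) * Real.log T / (2 * π)) ^ 2)) := by
        rw [Finset.mul_sum]
        refine Finset.sum_congr rfl fun s _ => ?_
        rw [Finset.mul_sum]
    _ ≤ (2 * π / η) * (W0 * (Real.log T * (C * T))) := by gcongr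
    _ ≤ (2 * π / η) * ((W0 + 1) * (Real.log T * (C * T))) := by
        have : 0 ≤ Real.log T * (C * T) := by positivity
        gcongr
        linarith
    _ = _ := by ring

end Pool.Agent.U507.GM
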