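import Pool.Agent.U507.GM.ZUa

/-!
# The upper bound for the variance integral
-/

set_option autoImplicit false

open Complex Filter Topology Set MeasureTheory Metric
open scoped ComplexConjugate FourierTransform Real

namespace Pool.Agent.U507.GM

open H370 SP SP.LocAux H370.Loc
open Pool.Agent.Y749.Rig (ZZ mm mm_nonneg mem_ZZ)

lemma z_pt (hRH : RiemannHypothesis) : ∃ C V0 : ℝ, 0 < C ∧ 10 ≤ V0 ∧ ∀ v U η : ℝ, V0 ≤ v → v ≤ U →
    0 < η → η ≤ 1 / 16 → |(ZF ⟨1 / 2 + η, v⟩).re| ≤ PU (U + 1) η v + C * (1 + Real.log v) := by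
  obtain ⟨C, V0, hC, hV0, h⟩ := za hRH
  refine ⟨C + 1, V0, by linarith, hV0, fun v U η hv hU hη hη1 => ?_⟩
  obtain ⟨A, hA, hA2⟩ := h v hv
  have h1 := abs_le.1 (hA2 η hη hη1).1
  have hlog : 0 ≤ Real.log v := Real.log_nonneg (by linarith)
  have hP0 : 0 ≤ ∑ ρ ∈ A, (mult riemannZeta ρ : ℝ) * (η / (η ^ 2 + (v - ρ.im) ^ 2)) :=
    Finset.sum_nonneg fun ρ _ => by positivity
  have hP : ∑ ρ ∈ A, (mult riemannZeta ρ : ℝ) * (η / (η ^ 2 + (v - ρ.im) ^ 2)) ≤ PU (U + 1) η v := by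
    unfold PU
    refine Finset.sum_le_sum_of_subset_of_nonneg ?_ fun s _ _ => ?_
    · intro ρ hρ
      obtain ⟨h2, h3, h4, h5⟩ := hA ρ hρ
      have h6 := abs_le.1 h5
      rw [mem_ZZ]
      exact ⟨h2, h3, h4, by linarith, by linarith⟩
    · have := mm_nonneg s
      positivity
  have h7 : C * (1 + η * Real.log v) ≤ C * (1 + Real.log v) := by
    have : η * Real.log v ≤ 1 * Real.log v := by gcongr; linarith
    gcongr
    linarith
  have h8 : (C + 1) * (1 + Real.log v) = C * (1 + Real.log v) + (1 + Real.log v) := by ring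
  rw [h8, abs_le]
  constructor <;> linarith [h1.1, h1.2]

/-- mean square on a bounded range -/
lemma M_bound (hRH : RiemannHypothesis) : ∃ C V1 : ℝ, 0 < C ∧ 10 ≤ V1 ∧ ∀ U η : ℝ, V1 ≤ U →
    0 < η → η ≤ 1 / 16 → η * Real.log (U + 1) ≤ π →
    ∫ v in V1..U, (ZF ⟨1 / 2 + η, v⟩).re ^ 2 ≤ C * U * (Real.log (U + 1) / η + Real.log (U + 1) ^ 2) := by
  obtain ⟨C1, V0, hC1, hV0, hz⟩ := z_pt hRH
  obtain ⟨C2, T0, hC2, hT0, hP⟩ := PU_bound
  refine ⟨4 * C2 + 8 * C1 ^ 2, max V0 T0, by positivity, hV0.trans (le_max_left _ _), fun U η hU hη hη1 hηU => ?_⟩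
  have hUV : V0 ≤ U := (le_max_left _ _).trans hU
  have hUT : T0 ≤ U := (le_max_right _ _).trans hU
  have hU10 : 10 ≤ U := by linarith
  have hp := hP (U + 1) η (by linarith) hη hηU
  obtain ⟨hpi, -⟩ := PU_sq (U + 1) hη
  have hzc : Continuous fun v : ℝ => (ZF ⟨1 / 2 + η, v⟩).re ^ 2 :=
    (Complex.continuous_re.comp (zf_cont hRH hη)).pow 2
  have hlogU : 1 ≤ Real.log (U + 1) := by
    rw [Real.le_log_iff_exp_le (by linarith)]
    linarith [Real.exp_one_lt_d9]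
  obtain ⟨l, hl⟩ : ∃ l : ℝ, l = Real.log (U + 1) := ⟨_, rfl⟩
  rw [← hl] at hp hηU hlogU ⊢
  have h1 : ∀ v ∈ Icc (max V0 T0) U, (ZF ⟨1 / 2 + η, v⟩).re ^ 2 ≤ 2 * PU (U + 1) η v ^ 2 + 8 * C1 ^ 2 * l ^ 2 := by
    intro v hv
    have hv0 : V0 ≤ v := (le_max_left _ _).trans hv.1
    have h2 := hz v U η hv0 hv.2 hη hη1
    have h3 : Real.log v ≤ l := by
      rw [hl]
      exact Real.log_le_log (by linarith) (by linarith [hv.2])
    have h4 : C1 * (1 + Real.log v) ≤ 2 * C1 * l := by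
      have : 1 + Real.log v ≤ 2 * l := by linarith
      calc C1 * (1 + Real.log v) ≤ C1 * (2 * l) := by gcongr
        _ = _ := by ring
    have h5 : |(ZF ⟨1 / 2 + η, v⟩).re| ≤ PU (U + 1) η v + 2 * C1 * l := h2.trans (by linarith)
    rw [← sq_abs]
    calc |(ZF ⟨1 / 2 + η, v⟩).re| ^ 2 ≤ (PU (U + 1) η v + 2 * C1 * l) ^ 2 := pow_le_pow_left₀ (abs_nonneg _) h5 2
      _ ≤ 2 * PU (U + 1) η v ^ 2 + 8 * C1 ^ 2 * l ^ 2 := by
          nlinarith [sq_nonneg (PU (U + 1) η v - 2 * C1 * l)]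
  have h2 : ∫ v in (max V0 T0)..U, (ZF ⟨1 / 2 + η, v⟩).re ^ 2 ≤
      ∫ v in (max V0 T0)..U, (2 * PU (U + 1) η v ^ 2 + 8 * C1 ^ 2 * l ^ 2) := by
    refine intervalIntegral.integral_mono_on hU (hzc.intervalIntegrable _ _) ?_ h1
    exact ((hpi.const_mul 2).intervalIntegrable).add (by simp)
  have h3 : ∫ v in (max V0 T0)..U, (2 * PU (U + 1) η v ^ 2 + 8 * C1 ^ 2 * l ^ 2) ≤
      2 * (C2 * ((U + 1) * l) / η) + 8 * C1 ^ 2 * l ^ 2 * U := by
    rw [intervalIntegral.integral_add (hpi.const_mul 2).intervalIntegrable (by simp),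
      intervalIntegral.integral_const_mul, intervalIntegral.integral_const, smul_eq_mul]
    have h4 : ∫ v in (max V0 T0)..U, PU (U + 1) η v ^ 2 ≤ ∫ v, PU (U + 1) η v ^ 2 := by
      rw [intervalIntegral.integral_of_le hU]
      exact setIntegral_le_integral hpi (Filter.Eventually.of_forall fun v => sq_nonneg _)
    have h5 : (U - max V0 T0) * (8 * C1 ^ 2 * l ^ 2) ≤ 8 * C1 ^ 2 * l ^ 2 * U := by
      have h6 : 0 ≤ 8 * C1 ^ 2 * l ^ 2 := by positivity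
      have h7 : 0 ≤ max V0 T0 := le_max_of_le_left (by linarith)
      nlinarith
    linarith
  refine h2.trans (h3.trans ?_)
  have e1 : 2 * (C2 * ((U + 1) * l) / η) ≤ 4 * C2 * U * (l / η) := by
    have e2 : 2 * (C2 * ((U + 1) * l) / η) = 2 * C2 * (U + 1) * (l / η) := by ring
    rw [e2]
    have : 0 ≤ l / η := by positivity
    have : 2 * C2 * (U + 1) ≤ 4 * C2 * U := by nlinarith
    gcongr
  have e3 : (4 * C2 + 8 * C1 ^ 2) * U * (l / η + l ^ 2) = 4 * C2 * U * (l / η) + 8 * C1 ^ 2 * l ^ 2 * U +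
      (8 * C1 ^ 2 * U * (l / η) + 4 * C2 * U * l ^ 2) := by ring
  rw [e3]
  have : 0 ≤ 8 * C1 ^ 2 * U * (l / η) + 4 * C2 * U * l ^ 2 := by positivity
  linarith

lemma gh_sq_le {δ : ℝ} (hδ : 0 < δ) (v : ℝ) : gh δ v ^ 2 ≤ 8 * δ ^ 2 / (1 + δ ^ 2 * v ^ 2) := by
  have h0 : 0 < 1 + δ ^ 2 * v ^ 2 := by positivity
  rw [le_div_iff₀ h0]
  have h1 : gh δ v ^ 2 ≤ δ ^ 2 := by
    rw [← sq_abs]
    exact pow_le_pow_left₀ (abs_nonneg _) (gh_abs hδ v) 2
  have h2 : v ^ 2 * gh δ v ^ 2 ≤ 4 := by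
    have h3 := gh_mul δ v
    have h4 : v ^ 2 * gh δ v ^ 2 = (v * gh δ v) ^ 2 := by ring
    rw [h4, h3, mul_pow]
    have := Real.sin_sq_le_one (v * δ / 2)
    linarith
  have h3 : 0 ≤ δ ^ 2 := sq_nonneg δ
  nlinarith

/-- the partial summation -/
lemma parts_bound {z : ℝ → ℝ} (hz : Continuous z) {δ V U K : ℝ} (hδ : 0 < δ) (hV : 0 < V) (hVU : V ≤ U)
    (hK : 0 ≤ K) (hM : ∀ u ∈ Icc V U, ∫ v in V..u, z v ^ 2 ≤ K * u) :
    ∫ v in V..U, gh δ v ^ 2 * z v ^ 2 ≤ 8 * K / U + 16 * π * K * δ := by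
  have hU : 0 < U := hV.trans_le hVU
  obtain ⟨g, hg⟩ : ∃ g : ℝ → ℝ, g = fun v => 8 * δ ^ 2 / (1 + δ ^ 2 * v ^ 2) := ⟨_, rfl⟩
  have hpos : ∀ v : ℝ, 0 < 1 + δ ^ 2 * v ^ 2 := fun v => by positivity
  have hgc : Continuous g := by
    rw [hg]
    exact continuous_const.div (by fun_prop) fun v => (hpos v).ne'
  have hg' : ∀ v : ℝ, HasDerivAt g (-(16 * δ ^ 4 * v / (1 + δ ^ 2 * v ^ 2) ^ 2)) v := by
    intro v
    have h1 : HasDerivAt (fun v : ℝ => 1 + δ ^ 2 * v ^ 2) (δ ^ 2 * (2 * v)) v := by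
      have := ((hasDerivAt_pow 2 v).const_mul (δ ^ 2)).const_add 1
      simpa using this
    have h2 := h1.inv (hpos v).ne'
    have h3 := h2.const_mul (8 * δ ^ 2)
    rw [hg]
    have e : (fun v : ℝ => 8 * δ ^ 2 / (1 + δ ^ 2 * v ^ 2)) = fun v => 8 * δ ^ 2 * (1 + δ ^ 2 * v ^ 2)⁻¹ := by
      funext v
      rw [div_eq_mul_inv]
    rw [e]
    refine h3.congr_deriv ?_
    have := (hpos v).ne'
    field_simp
    ring
  obtain ⟨M, hMd⟩ : ∃ M : ℝ → ℝ, M = fun u => ∫ v in V..u, z v ^ 2 := ⟨_, rfl⟩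
  have hzc : Continuous fun v => z v ^ 2 := hz.pow 2
  have hM' : ∀ v : ℝ, HasDerivAt M (z v ^ 2) v := fun v => by
    rw [hMd]
    exact intervalIntegral.integral_hasDerivAt_right (hzc.intervalIntegrable _ _)
      (hzc.stronglyMeasurableAtFilter _ _) hzc.continuousAt
  have hMc : Continuous M := continuous_iff_continuousAt.2 fun v => (hM' v).continuousAt
  have hg'c : Continuous fun v : ℝ => -(16 * δ ^ 4 * v / (1 + δ ^ 2 * v ^ 2) ^ 2) := by
    refine Continuous.neg (Continuous.div (by fun_prop) (by fun_prop) fun v => ?_)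
    exact (pow_pos (hpos v) 2).ne'
  have hparts := intervalIntegral.integral_mul_deriv_eq_deriv_mul (a := V) (b := U)
    (fun v _ => hg' v) (fun v _ => hM' v) (hg'c.intervalIntegrable _ _) (hzc.intervalIntegrable _ _)
  have hMV : M V = 0 := by rw [hMd]; simp
  rw [hMV, mul_zero, sub_zero] at hparts
  have hle : ∫ v in V..U, gh δ v ^ 2 * z v ^ 2 ≤ ∫ v in V..U, g v * z v ^ 2 := by
    refine intervalIntegral.integral_mono_on hVU ?_ ((hgc.mul hzc).intervalIntegrable _ _) fun v _ => ?_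
    · exact (((gh_cont δ).pow 2).mul hzc).intervalIntegrable _ _
    · rw [hg]
      exact mul_le_mul_of_nonneg_right (gh_sq_le hδ v) (sq_nonneg _)
  refine hle.trans ?_
  rw [hparts]
  have b1 : g U * M U ≤ 8 * K / U := by
    have h1 : M U ≤ K * U := by rw [hMd]; exact hM U ⟨hVU, le_rfl⟩
    have h2 : g U ≤ 8 / U ^ 2 := by
      rw [hg]
      simp only
      rw [div_le_div_iff₀ (hpos U) (by positivity)]
      nlinarith [sq_nonneg U]
    have h3 : 0 ≤ g U := by rw [hg]; simp only; positivity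
    calc g U * M U ≤ g U * (K * U) := by gcongr
      _ ≤ 8 / U ^ 2 * (K * U) := by gcongr
      _ = 8 * K / U := by field_simp
  have b2 : -∫ v in V..U, -(16 * δ ^ 4 * v / (1 + δ ^ 2 * v ^ 2) ^ 2) * M v ≤ 16 * π * K * δ := by
    rw [← intervalIntegral.integral_neg]
    have hI : Integrable fun v : ℝ => 16 * K * δ ^ 2 * (1 + (v * δ) ^ 2)⁻¹ :=
      ((integrable_comp_mul_right_iff (fun u : ℝ => (1 + u ^ 2)⁻¹) hδ.ne').2 integrable_inv_one_add_sq).const_mul _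
    calc ∫ v in V..U, -(-(16 * δ ^ 4 * v / (1 + δ ^ 2 * v ^ 2) ^ 2) * M v) ≤
          ∫ v in V..U, 16 * K * δ ^ 2 * (1 + (v * δ) ^ 2)⁻¹ := by
          refine intervalIntegral.integral_mono_on hVU ((hg'c.mul hMc).neg.intervalIntegrable _ _)
            hI.intervalIntegrable fun v hv => ?_
          have h1 : M v ≤ K * v := by rw [hMd]; exact hM v hv
          have hv0 : 0 < v := hV.trans_le hv.1
          have h2 : 0 ≤ 16 * δ ^ 4 * v / (1 + δ ^ 2 * v ^ 2) ^ 2 := by positivity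
          calc -(-(16 * δ ^ 4 * v / (1 + δ ^ 2 * v ^ 2) ^ 2) * M v) =
                16 * δ ^ 4 * v / (1 + δ ^ 2 * v ^ 2) ^ 2 * M v := by ring
            _ ≤ 16 * δ ^ 4 * v / (1 + δ ^ 2 * v ^ 2) ^ 2 * (K * v) := by gcongr
            _ = 16 * K * δ ^ 2 * ((δ ^ 2 * v ^ 2) / (1 + δ ^ 2 * v ^ 2) ^ 2) := by ring
            _ ≤ 16 * K * δ ^ 2 * (1 + (v * δ) ^ 2)⁻¹ := by
                apply mul_le_mul_of_nonneg_left _ (by positivity)
                rw [inv_eq_one_div, div_le_div_iff₀ (by positivity) (by positivity)]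
                have : (v * δ) ^ 2 = δ ^ 2 * v ^ 2 := by ring
                rw [this]
                have h5 := hpos v
                nlinarith
      _ ≤ ∫ v, 16 * K * δ ^ 2 * (1 + (v * δ) ^ 2)⁻¹ := by
          rw [intervalIntegral.integral_of_le hVU]
          exact setIntegral_le_integral hI (Filter.Eventually.of_forall fun v => by
            simp only [Pi.zero_apply]
            positivity)
      _ = 16 * π * K * δ := by
          rw [integral_const_mul, MeasureTheory.Measure.integral_comp_mul_right (fun u : ℝ => (1 + u ^ 2)⁻¹) δ,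
            integral_univ_inv_one_add_sq, smul_eq_mul, abs_of_pos (by positivity)]
          field_simp
  linarith

/-- the tail -/
lemma tail_bound (hRH : RiemannHypothesis) : ∃ C : ℝ, 0 < C ∧ ∀ η δ : ℝ, 0 < η → η ≤ 1 / 16 → 0 < δ → δ ≤ 1 →
    ∫ v in Ioi (δ ^ 3)⁻¹, gh δ v ^ 2 * (ZF ⟨1 / 2 + η, v⟩).re ^ 2 ≤ C * (δ * √δ) / η ^ 2 := by
  obtain ⟨C, hC, h⟩ := zf_crude hRH
  refine ⟨256 * C ^ 2, by positivity, fun η δ hη hη1 hδ hδ1 => ?_⟩
  have hU1 : 1 ≤ (δ ^ 3)⁻¹ := by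
    rw [one_le_inv₀ (by positivity)]
    exact pow_le_one₀ hδ.le hδ1
  have hU0 : 0 < (δ ^ 3)⁻¹ := by positivity
  have hpt : ∀ v ∈ Ioi (δ ^ 3)⁻¹, gh δ v ^ 2 * (ZF ⟨1 / 2 + η, v⟩).re ^ 2 ≤
      128 * C ^ 2 / η ^ 2 * v ^ (-(3 : ℝ) / 2) := by
    intro v hv
    have hv1 : 1 ≤ v := hU1.trans (le_of_lt hv)
    have hv0 : 0 < v := by linarith
    have h1 := h v η hη hη1
    have h2 : |(ZF ⟨1 / 2 + η, v⟩).re| ≤ C * Real.log (|v| + 3) / η := (Complex.abs_re_le_norm _).trans h1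
    have h3 : gh δ v ^ 2 ≤ 4 / v ^ 2 := by
      have := gh_abs' δ hv0.ne'
      rw [abs_of_pos hv0] at this
      rw [← sq_abs]
      calc |gh δ v| ^ 2 ≤ (2 / v) ^ 2 := pow_le_pow_left₀ (abs_nonneg _) this 2
        _ = 4 / v ^ 2 := by rw [div_pow]; norm_num
    have h4 : Real.log (|v| + 3) ^ 2 ≤ 32 * v ^ ((1 : ℝ) / 2) := by
      rw [abs_of_pos hv0]
      have h5 := log_sq_large (u := v + 3) (by linarith)
      have h6 : (v + 3) ^ ((1 : ℝ) / 2) ≤ 2 * v ^ ((1 : ℝ) / 2) := by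
        calc (v + 3) ^ ((1 : ℝ) / 2) ≤ (4 * v) ^ ((1 : ℝ) / 2) := by
              apply Real.rpow_le_rpow (by linarith) (by linarith) (by norm_num)
          _ = 2 * v ^ ((1 : ℝ) / 2) := by
              rw [Real.mul_rpow (by norm_num) hv0.le]
              congr 1
              rw [show (4 : ℝ) = 2 ^ (2 : ℝ) by norm_num, ← Real.rpow_mul (by norm_num)]
              norm_num
      linarith
    calc gh δ v ^ 2 * (ZF ⟨1 / 2 + η, v⟩).re ^ 2 ≤ (4 / v ^ 2) * (C ^ 2 * (32 * v ^ ((1 : ℝ) / 2)) / η ^ 2) := by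
          gcongr
          rw [← sq_abs]
          calc |(ZF ⟨1 / 2 + η, v⟩).re| ^ 2 ≤ (C * Real.log (|v| + 3) / η) ^ 2 :=
                pow_le_pow_left₀ (abs_nonneg _) h2 2
            _ = C ^ 2 * Real.log (|v| + 3) ^ 2 / η ^ 2 := by rw [div_pow, mul_pow]
            _ ≤ _ := by gcongr
      _ = 128 * C ^ 2 / η ^ 2 * (v ^ ((1 : ℝ) / 2) / v ^ 2) := by ring
      _ = _ := by
          congr 1
          rw [← Real.rpow_natCast, ← Real.rpow_sub hv0]
          norm_num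
  have hi : IntegrableOn (fun v : ℝ => 128 * C ^ 2 / η ^ 2 * v ^ (-(3 : ℝ) / 2)) (Ioi (δ ^ 3)⁻¹) :=
    (integrableOn_Ioi_rpow_of_lt (by norm_num) hU0).const_mul _
  have hc : Continuous fun v => gh δ v ^ 2 * (ZF ⟨1 / 2 + η, v⟩).re ^ 2 :=
    ((gh_cont δ).pow 2).mul ((Complex.continuous_re.comp (zf_cont hRH hη)).pow 2)
  have hi2 : IntegrableOn (fun v => gh δ v ^ 2 * (ZF ⟨1 / 2 + η, v⟩).re ^ 2) (Ioi (δ ^ 3)⁻¹) := by
    refine Integrable.mono' hi hc.aestronglyMeasurable ?_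
    refine (ae_restrict_iff' measurableSet_Ioi).2 (Filter.Eventually.of_forall fun v hv => ?_)
    rw [Real.norm_eq_abs, abs_of_nonneg (by positivity)]
    exact hpt v hv
  calc ∫ v in Ioi (δ ^ 3)⁻¹, gh δ v ^ 2 * (ZF ⟨1 / 2 + η, v⟩).re ^ 2 ≤
        ∫ v in Ioi (δ ^ 3)⁻¹, 128 * C ^ 2 / η ^ 2 * v ^ (-(3 : ℝ) / 2) :=
        setIntegral_mono_on hi2 hi measurableSet_Ioi hpt
    _ = 128 * C ^ 2 / η ^ 2 * (2 * (δ * √δ)) := by
        rw [integral_const_mul, integral_Ioi_rpow_of_lt (by norm_num) hU0]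
        congr 1
        have e1 : (δ ^ 3)⁻¹ ^ (-(3 : ℝ) / 2 + 1) = δ * √δ := by
          rw [Real.inv_rpow (by positivity), ← Real.rpow_neg (by positivity), Real.sqrt_eq_rpow,
            ← Real.rpow_natCast, ← Real.rpow_mul hδ.le]
          nth_rewrite 2 [← Real.rpow_one δ]
          rw [← Real.rpow_add hδ]
          norm_num
        rw [e1]
        ring
    _ = _ := by ring

end Pool.Agent.U507.GM
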