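import Pool.Agent.H382P.LocExp
import Pool.Agent.W190.A17

/-!
# The real part of the logarithmic derivative of zeta near the critical line
-/

set_option autoImplicit false

open Complex Filter Topology Set MeasureTheory Metric

namespace Pool.Agent.U507.GM

open H370 SP SP.LocAux
open Pool.Agent.H295R2 (Zs Zs_differentiable Zs_eq)

/-- `-(d/ds) log ((s - 1) ζ(s))`, that is `-ζ'/ζ(s) - 1/(s-1)` -/
noncomputable def ZF (s : ℂ) : ℂ := -logDeriv Zs s

lemma rhs_of (hRH : RiemannHypothesis) : RHs := by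
  intro s h1 h2 h3
  refine hRH s h3 ?_ ?_
  · rintro ⟨n, rfl⟩
    simp at h1
    have : (0 : ℝ) ≤ n := Nat.cast_nonneg n
    linarith
  · rintro rfl
    simp at h2

lemma zs_ne (hRH : RiemannHypothesis) {s : ℂ} (hs : 1 / 2 < s.re) : Zs s ≠ 0 := by
  by_cases h : s = 1
  · rw [h]
    exact Pool.Agent.H295R2.Zs_ne_zero_of_one_le (by simp)
  · rw [← Zs_eq h]
    refine mul_ne_zero (sub_ne_zero.2 h) fun h0 => ?_
    rcases lt_or_ge s.re 1 with h1 | h1
    · have := rhs_of hRH s (by linarith) h1 h0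
      linarith
    · exact riemannZeta_ne_zero_of_one_le_re h1 h0

lemma zf_eq {s : ℂ} (h : s ≠ 1) (hz : riemannZeta s ≠ 0) :
    ZF s = -logDeriv riemannZeta s - 1 / (s - 1) := by
  have h1 : Zs =ᶠ[𝓝 s] fun z => (z - 1) * riemannZeta z := by
    filter_upwards [isOpen_ne.mem_nhds h] with z hz
    exact (Zs_eq hz).symm
  have h2 : logDeriv Zs s = logDeriv (fun z => (z - 1) * riemannZeta z) s := by
    rw [logDeriv_apply, logDeriv_apply, h1.deriv_eq, h1.eq_of_nhds]
  have h3 : logDeriv (fun z => (z - 1) * riemannZeta z) s =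
      logDeriv (fun z => z - 1) s + logDeriv riemannZeta s :=
    logDeriv_mul s (sub_ne_zero.2 h) hz (differentiableAt_id.sub_const 1) (differentiableAt_riemannZeta h)
  have h4 : logDeriv (fun z : ℂ => z - 1) s = 1 / (s - 1) := by
    rw [logDeriv_apply]
    congr 1
    simp
  unfold ZF
  rw [h2, h3, h4]
  ring

/-- **the logarithmic derivative on the right of the critical line**, Riemann hypothesis -/
theorem za (hRH : RiemannHypothesis) : ∃ C V0 : ℝ, 0 < C ∧ 10 ≤ V0 ∧ ∀ v : ℝ, V0 ≤ v →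
    ∃ A : Finset ℂ, (∀ ρ ∈ A, riemannZeta ρ = 0 ∧ 0 < ρ.re ∧ ρ.re < 1 ∧ |ρ.im - v| ≤ 1) ∧
    ∀ x : ℝ, 0 < x → x ≤ 1 / 16 →
      |(ZF ⟨1 / 2 + x, v⟩).re - (1 / 2 * Real.log v -
        ∑ ρ ∈ A, (mult riemannZeta ρ : ℝ) * (x / (x ^ 2 + (v - ρ.im) ^ 2)))| ≤ C * (1 + x * Real.log v) ∧
      ‖ZF ⟨1 / 2 + x, v⟩‖ ≤ C * Real.log v / x := by
  obtain ⟨C1, T1, hC1, hT1, hloc⟩ := loc_exp (rhs_of hRH)
  obtain ⟨C2, hC2, hcount⟩ := AS_count
  obtain ⟨C3, hC3, hGam⟩ := H370.DL.logDeriv_Gammaℝ_bound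
  obtain ⟨K, hK⟩ : ∃ K : ℝ, K = C1 + C2 + C3 + 4 := ⟨_, rfl⟩
  have hK0 : 0 < K := by rw [hK]; positivity
  refine ⟨K, 2 * T1, hK0, by linarith, fun v hv => ?_⟩
  obtain ⟨T, hT⟩ : ∃ T : ℝ, T = 3 / 4 * v := ⟨_, rfl⟩
  have hv20 : 20 ≤ v := by linarith
  have hTT : T1 ≤ T := by rw [hT]; linarith
  have h1T : 1 ≤ T := by linarith
  have hlv : 1 ≤ Real.log v := by
    rw [Real.le_log_iff_exp_le (by linarith)]
    have := Real.exp_one_lt_d9
    linarith
  have hlT : Real.log T ≤ Real.log v := Real.log_le_log (by linarith) (by rw [hT]; linarith)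
  have hlT0 : 0 ≤ Real.log T := Real.log_nonneg h1T
  refine ⟨AS T v h1T, fun ρ hρ => ?_, fun x hx hx1 => ?_⟩
  · rw [mem_AS] at hρ
    obtain ⟨⟨a1, a2, a3, a4, a5⟩, h6⟩ := hρ
    exact ⟨a5, a1, a2, h6⟩
  obtain ⟨hne, hn, hr⟩ := hloc T hTT v (by rw [hT]; linarith) (by rw [hT]; linarith) x v hx hx1
    (by simp)
  rw [finsum_AS h1T] at hn hr
  set s : ℂ := ⟨1 / 2 + x, v⟩ with hs
  have hsre : s.re = 1 / 2 + x := rfl
  have hsim : s.im = v := rfl
  have hs1 : s ≠ 1 := fun h => by
    have := congrArg Complex.im h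
    rw [hsim] at this
    simp at this
    linarith
  have hs0 : s ≠ 0 := fun h => by
    have := congrArg Complex.im h
    rw [hsim] at this
    simp at this
    linarith
  have hzne : riemannZeta s ≠ 0 := fun h => by
    have := rhs_of hRH s (by rw [hsre]; linarith) (by rw [hsre]; linarith) h
    rw [hsre] at this
    linarith
  have hG0 : Gammaℝ s ≠ 0 := Gammaℝ_ne_zero_of_re_pos (by rw [hsre]; linarith)
  have hGd : DifferentiableAt ℂ Gammaℝ s := by
    have h0 : DifferentiableAt ℂ completedRiemannZeta s := differentiableAt_completedZeta hs0 hs1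
    have e : Gammaℝ =ᶠ[𝓝 s] fun z => completedRiemannZeta z / riemannZeta z := by
      have o1 : ∀ᶠ z in 𝓝 s, riemannZeta z ≠ 0 :=
        (differentiableAt_riemannZeta hs1).continuousAt.eventually_ne hzne
      have o2 : ∀ᶠ z in 𝓝 s, z ≠ 0 := isOpen_ne.mem_nhds hs0
      have o3 : ∀ᶠ z : ℂ in 𝓝 s, 0 < z.re :=
        (isOpen_lt continuous_const Complex.continuous_re).mem_nhds (by
          show (0 : ℝ) < s.re
          rw [hsre]; linarith)
      filter_upwards [o1, o2, o3] with z p1 p2 p3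
      rw [riemannZeta_def_of_ne_zero p2]
      have p4 : Gammaℝ z ≠ 0 := Gammaℝ_ne_zero_of_re_pos p3
      have p5 : completedRiemannZeta z ≠ 0 := by
        intro h
        rw [riemannZeta_def_of_ne_zero p2, h, zero_div] at p1
        exact p1 rfl
      field_simp
    exact (h0.div (differentiableAt_riemannZeta hs1) hzne).congr_of_eventuallyEq e
  -- the completed function
  have hL : logDeriv completedRiemannZeta s = logDeriv Gammaℝ s + logDeriv riemannZeta s := by
    have e : completedRiemannZeta =ᶠ[𝓝 s] fun z => Gammaℝ z * riemannZeta z := by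
      have o2 : ∀ᶠ z in 𝓝 s, z ≠ 0 := isOpen_ne.mem_nhds hs0
      have o3 : ∀ᶠ z : ℂ in 𝓝 s, 0 < z.re :=
        (isOpen_lt continuous_const Complex.continuous_re).mem_nhds (by
          show (0 : ℝ) < s.re
          rw [hsre]; linarith)
      filter_upwards [o2, o3] with z p2 p3
      rw [riemannZeta_def_of_ne_zero p2]
      have p4 : Gammaℝ z ≠ 0 := Gammaℝ_ne_zero_of_re_pos p3
      field_simp
    rw [logDeriv_apply, e.deriv_eq, e.eq_of_nhds, ← logDeriv_apply]
    exact logDeriv_mul s hG0 hzne hGd (differentiableAt_riemannZeta hs1)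
  have hZ : ZF s = logDeriv Gammaℝ s - logDeriv completedRiemannZeta s - 1 / (s - 1) := by
    rw [zf_eq hs1 hzne, hL]
    ring
  have hg := hGam s (by rw [hsre]; linarith) (by rw [hsre]; linarith) (by
    rw [hsim, abs_of_nonneg (by linarith)]; linarith)
  rw [hsim, abs_of_nonneg (show (0:ℝ) ≤ v by linarith)] at hg
  have hp : ‖1 / (s - 1)‖ ≤ 1 := by
    rw [norm_div, norm_one]
    have h1 : (1 : ℝ) ≤ ‖s - 1‖ := by
      refine le_trans ?_ (Complex.abs_im_le_norm _)
      rw [Complex.sub_im, hsim, Complex.one_im, sub_zero, abs_of_nonneg (by linarith)]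
      linarith
    rw [div_le_one (by linarith)]
    exact h1
  have hgr : |(logDeriv Gammaℝ s).re - 1 / 2 * Real.log v| ≤ C3 := by
    refine le_trans ?_ hg
    have := Complex.abs_re_le_norm (logDeriv Gammaℝ s - 1 / 2 * Real.log v)
    refine le_trans (le_of_eq ?_) this
    congr 1
    simp [Complex.sub_re]
  have hpr : |(1 / (s - 1)).re| ≤ 1 := (Complex.abs_re_le_norm _).trans hp
  have hsum : ∑ ρ ∈ AS T v h1T, (mu ρ : ℝ) * x / (x ^ 2 + (v - ρ.im) ^ 2) =
      ∑ ρ ∈ AS T v h1T, (mult riemannZeta ρ : ℝ) * (x / (x ^ 2 + (v - ρ.im) ^ 2)) := by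
    refine Finset.sum_congr rfl fun ρ _ => ?_
    rw [mul_div_assoc]
    rfl
  rw [hsum] at hr
  constructor
  · rw [hZ, Complex.sub_re, Complex.sub_re]
    set P := ∑ ρ ∈ AS T v h1T, (mult riemannZeta ρ : ℝ) * (x / (x ^ 2 + (v - ρ.im) ^ 2)) with hP
    have e : (logDeriv Gammaℝ s).re - (logDeriv completedRiemannZeta s).re - (1 / (s - 1)).re -
        (1 / 2 * Real.log v - P) = ((logDeriv Gammaℝ s).re - 1 / 2 * Real.log v) -
          ((logDeriv completedRiemannZeta s).re - P) - (1 / (s - 1)).re := by ring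
    rw [e]
    have h5 : C1 * x * Real.log T ≤ C1 * (x * Real.log v) := by
      rw [mul_assoc]
      exact mul_le_mul_of_nonneg_left (mul_le_mul_of_nonneg_left hlT hx.le) hC1.le
    have h6 : 0 ≤ x * Real.log v := by positivity
    calc _ ≤ |(logDeriv Gammaℝ s).re - 1 / 2 * Real.log v| +
          |(logDeriv completedRiemannZeta s).re - P| + |(1 / (s - 1)).re| := by
          refine (abs_sub _ _).trans ?_
          gcongr
          exact abs_sub _ _
      _ ≤ C3 + C1 * (x * Real.log v) + 1 := by linarith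
      _ ≤ K * (1 + x * Real.log v) := by
          rw [hK]
          nlinarith
  · rw [hZ]
    have h7 : ‖∑ ρ ∈ AS T v h1T, (mu ρ : ℂ) / ((x : ℂ) + I * (v - ρ.im : ℝ))‖ ≤
        C2 * Real.log v / x := by
      refine (norm_sum_le _ _).trans ?_
      calc ∑ ρ ∈ AS T v h1T, ‖(mu ρ : ℂ) / ((x : ℂ) + I * (v - ρ.im : ℝ))‖ ≤
            ∑ ρ ∈ AS T v h1T, (mu ρ : ℝ) / x := by
            refine Finset.sum_le_sum fun ρ _ => ?_
            rw [norm_div, Complex.norm_natCast]
            have h8 : x ≤ ‖(x : ℂ) + I * (v - ρ.im : ℝ)‖ := by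
              have := Complex.abs_re_le_norm ((x : ℂ) + I * (v - ρ.im : ℝ))
              refine le_trans (le_of_eq ?_) this
              simp [abs_of_pos hx]
            gcongr
        _ = (∑ ρ ∈ AS T v h1T, (mu ρ : ℝ)) / x := by rw [Finset.sum_div]
        _ ≤ _ := by
            gcongr
            exact hcount T v h1T (by linarith)
    have hxl : Real.log v ≤ Real.log v / x := by
      rw [le_div_iff₀ hx]
      nlinarith
    have h9 : ‖logDeriv completedRiemannZeta s‖ ≤ C1 * Real.log v + C2 * Real.log v / x := by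
      have := norm_sub_norm_le (logDeriv completedRiemannZeta s)
        (∑ ρ ∈ AS T v h1T, (mu ρ : ℂ) / ((x : ℂ) + I * (v - ρ.im : ℝ)))
      have h10 : C1 * Real.log T ≤ C1 * Real.log v := mul_le_mul_of_nonneg_left hlT hC1.le
      linarith
    have h11 : ‖logDeriv Gammaℝ s‖ ≤ C3 + 1 / 2 * Real.log v := by
      have := norm_sub_norm_le (logDeriv Gammaℝ s) (1 / 2 * Real.log v : ℂ)
      have h12 : ‖(1 / 2 * Real.log v : ℂ)‖ = 1 / 2 * Real.log v := by
        rw [norm_mul, Complex.norm_real, Real.norm_of_nonneg (by linarith)]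
        norm_num
      linarith
    calc ‖logDeriv Gammaℝ s - logDeriv completedRiemannZeta s - 1 / (s - 1)‖ ≤
          ‖logDeriv Gammaℝ s‖ + ‖logDeriv completedRiemannZeta s‖ + ‖1 / (s - 1)‖ := by
          refine (norm_sub_le _ _).trans ?_
          gcongr
          exact norm_sub_le _ _
      _ ≤ (C3 + 1 / 2 * Real.log v) + (C1 * Real.log v + C2 * Real.log v / x) + 1 := by linarith
      _ ≤ (C3 + 1 + 1 + C1) * (Real.log v / x) + C2 * (Real.log v / x) := by
          have q1 : C3 ≤ C3 * (Real.log v / x) := by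
            have : 1 ≤ Real.log v / x := hlv.trans hxl
            nlinarith
          have q2 : 1 / 2 * Real.log v ≤ 1 * (Real.log v / x) := by linarith
          have q3 : C1 * Real.log v ≤ C1 * (Real.log v / x) := mul_le_mul_of_nonneg_left hxl hC1.le
          have q4 : (1 : ℝ) ≤ Real.log v / x := hlv.trans hxl
          have q5 : C2 * Real.log v / x = C2 * (Real.log v / x) := by ring
          rw [q5]
          linarith
      _ ≤ K * Real.log v / x := by
          rw [hK, mul_div_assoc]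
          have : 0 ≤ Real.log v / x := by positivity
          nlinarith

end Pool.Agent.U507.GM
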