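import Pool.Agent.U507.GM.Za

/-!
# Crude bounds for the logarithmic derivative of zeta on the right of the critical line
-/

set_option autoImplicit false

open Complex Filter Topology Set MeasureTheory Metric
open scoped ComplexConjugate

namespace Pool.Agent.U507.GM

open H370 SP SP.LocAux H370.Loc
open Pool.Agent.H295R2 (Zs Zs_differentiable Zs_eq)

lemma zs_conj (s : ℂ) : Zs (conj s) = conj (Zs s) := by
  by_cases h : s = 1
  · have : Zs 1 = 1 := by
      unfold Zs
      exact riemannZeta₁_one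
    rw [h, map_one, this, map_one]
  · have h' : conj s ≠ 1 := fun h0 => h (by
      have := congrArg conj h0
      rwa [Complex.conj_conj, map_one] at this)
    rw [← Zs_eq h, ← Zs_eq h', riemannZeta_conj, map_mul, map_sub, map_one]

lemma zf_conj (s : ℂ) : ZF (conj s) = conj (ZF s) := by
  unfold ZF
  rw [logDeriv_apply, logDeriv_apply, map_neg, map_div₀, zs_conj]
  have h1 := deriv_conj_conj (f := Zs)
  have h2 : (⇑(starRingEnd ℂ) ∘ Zs ∘ ⇑(starRingEnd ℂ)) = Zs := by
    funext z
    show conj (Zs (conj z)) = Zs z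
    rw [zs_conj, Complex.conj_conj]
  have h3 : deriv Zs s = conj (deriv Zs (conj s)) := by
    have h4 := congrFun h1 s
    rw [h2] at h4
    exact h4
  rw [h3, Complex.conj_conj]

lemma zf_mk_neg (a v : ℝ) : ZF ⟨a, -v⟩ = conj (ZF ⟨a, v⟩) := by
  rw [← zf_conj]
  rfl

/-- the logarithmic derivative on a bounded region -/
lemma zf_bdd (hRH : RiemannHypothesis) (V : ℝ) : ∃ C : ℝ, 0 < C ∧ ∀ v : ℝ, |v| ≤ V →
    ∀ x : ℝ, 0 < x → x ≤ 1 / 16 → ‖ZF ⟨1 / 2 + x, v⟩‖ ≤ C / x := by
  classical
  obtain ⟨r, hr⟩ : ∃ r : ℝ, r = |V| + 3 := ⟨_, rfl⟩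
  have hV0 := abs_nonneg V
  have hr0 : 0 < r := by rw [hr]; positivity
  have han : AnalyticOnNhd ℂ Zs (closedBall 2 (r + 1)) := fun z _ => Zs_differentiable.analyticAt z
  obtain ⟨M0, hM0⟩ := (isCompact_closedBall (2 : ℂ) (r + 1)).exists_bound_of_continuousOn
    Zs_differentiable.continuous.continuousOn
  have hc : Zs 2 ≠ 0 := Pool.Agent.H295R2.Zs_ne_zero_of_one_le (by simp)
  obtain ⟨s, g, hs, hg, hfg, hg0, -⟩ := extract hr0 (by linarith : r < r + 1)
    (le_max_right M0 1) han hc (fun z hz => (hM0 z hz).trans (le_max_left _ _))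
  have hgl : ContinuousOn (logDeriv g) (closedBall 2 r) := by
    have e : logDeriv g = fun z => deriv g z / g z := by
      funext z
      rw [logDeriv_apply]
    rw [e]
    refine ContinuousOn.div ?_ ?_ hg0
    · intro z hz
      exact (hg z (closedBall_subset_closedBall (by linarith) hz)).deriv.continuousAt.continuousWithinAt
    · intro z hz
      exact (hg z (closedBall_subset_closedBall (by linarith) hz)).continuousAt.continuousWithinAt
  obtain ⟨B, hB⟩ := (isCompact_closedBall (2 : ℂ) r).exists_bound_of_continuousOn hgl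
  refine ⟨Multiset.card s + |B| + 1, by positivity, fun v hv x hx hx1 => ?_⟩
  set z : ℂ := ⟨1 / 2 + x, v⟩ with hz
  have hzb : z ∈ closedBall (2 : ℂ) r := by
    rw [mem_closedBall, dist_eq_norm]
    refine (Complex.norm_le_abs_re_add_abs_im _).trans ?_
    rw [Complex.sub_re, Complex.sub_im, hz]
    simp only [Complex.re_ofNat, Complex.im_ofNat, sub_zero]
    have h1 : |1 / 2 + x - 2| ≤ 3 / 2 := by
      rw [abs_le]
      constructor <;> linarith
    have h2 := le_abs_self V
    rw [hr]
    linarith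
  have hzr : 1 / 2 < z.re := by
    show 1 / 2 < 1 / 2 + x
    linarith
  have hne := zs_ne hRH hzr
  have hdist : ∀ ρ ∈ s, x ≤ ‖z - ρ‖ := by
    intro ρ hρ
    have h1 : ρ.re ≤ 1 / 2 := by
      by_contra h
      exact zs_ne hRH (not_le.1 h) (hs ρ hρ).2
    refine le_trans ?_ (Complex.re_le_norm _)
    rw [Complex.sub_re]
    show x ≤ 1 / 2 + x - ρ.re
    linarith
  have hP : Pf s z ≠ 0 := by
    intro h
    apply hne
    rw [hfg, h, zero_mul]
  have hlog : logDeriv Zs z = logDeriv (Pf s) z + logDeriv g z := by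
    have e : Zs = fun w => Pf s w * g w := funext hfg
    rw [e]
    exact logDeriv_mul z hP (hg0 z hzb) (Pf_diff s z)
      (hg z (closedBall_subset_closedBall (by linarith) hzb)).differentiableAt
  unfold ZF
  rw [norm_neg, hlog]
  have h1 := Pf_logDeriv hx hdist
  have h2 := hB z hzb
  have h3 : |B| ≤ |B| / x := by
    rw [le_div_iff₀ hx]
    nlinarith [abs_nonneg B]
  calc _ ≤ ‖logDeriv (Pf s) z‖ + ‖logDeriv g z‖ := norm_add_le _ _
    _ ≤ (Multiset.card s : ℝ) / x + |B| / x := by
        have := le_abs_self B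
        linarith
    _ ≤ (Multiset.card s + |B| + 1) / x := by
        rw [← add_div]
        apply div_le_div_of_nonneg_right _ hx.le
        linarith

lemma log3_pos (v : ℝ) : 1 ≤ Real.log (|v| + 3) := by
  rw [Real.le_log_iff_exp_le (by positivity)]
  have := Real.exp_one_lt_d9
  have := abs_nonneg v
  linarith

/-- **crude bound** -/
theorem zf_crude (hRH : RiemannHypothesis) : ∃ C : ℝ, 0 < C ∧ ∀ v x : ℝ, 0 < x → x ≤ 1 / 16 →
    ‖ZF ⟨1 / 2 + x, v⟩‖ ≤ C * Real.log (|v| + 3) / x := by
  obtain ⟨C1, V0, hC1, hV0, h1⟩ := za hRH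
  obtain ⟨C2, hC2, h2⟩ := zf_bdd hRH V0
  refine ⟨C1 + C2, by positivity, fun v x hx hx1 => ?_⟩
  have hl := log3_pos v
  have key : ∀ w : ℝ, 0 ≤ w → ‖ZF ⟨1 / 2 + x, w⟩‖ ≤ (C1 + C2) * Real.log (|w| + 3) / x := by
    intro w hw
    have hl := log3_pos w
    rcases le_total V0 w with h | h
    · obtain ⟨A, -, hA⟩ := h1 w h
      refine (hA x hx hx1).2.trans ?_
      apply div_le_div_of_nonneg_right _ hx.le
      have h3 : Real.log w ≤ Real.log (|w| + 3) := by
        apply Real.log_le_log (by linarith)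
        rw [abs_of_nonneg hw]
        linarith
      have h4 : 0 ≤ Real.log w := Real.log_nonneg (by linarith)
      nlinarith
    · refine (h2 w (by rwa [abs_of_nonneg hw]) x hx hx1).trans ?_
      apply div_le_div_of_nonneg_right _ hx.le
      nlinarith
  rcases le_total 0 v with h | h
  · exact key v h
  · have h3 := key (-v) (by linarith)
    rw [zf_mk_neg, Complex.norm_conj, abs_neg] at h3
    exact h3

/-- continuity in both variables -/
lemma zf_contOn (hRH : RiemannHypothesis) :
    ContinuousOn (fun p : ℝ × ℝ => ZF ⟨1 / 2 + p.1, p.2⟩) {p | 0 < p.1} := by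
  have e : (fun p : ℝ × ℝ => ZF ⟨1 / 2 + p.1, p.2⟩) =
      (fun p : ℝ × ℝ => ZF (((1 / 2 + p.1 : ℝ) : ℂ) + ((p.2 : ℝ) : ℂ) * I)) := by
    funext p
    congr 1
    apply Complex.ext <;> simp
  rw [e]
  have h1 : ContinuousOn ZF {s : ℂ | 1 / 2 < s.re} := by
    have e2 : ZF = fun s => -(deriv Zs s / Zs s) := by
      funext s
      unfold ZF
      rw [logDeriv_apply]
    rw [e2]
    refine ContinuousOn.neg (ContinuousOn.div ?_ Zs_differentiable.continuous.continuousOn
      fun s hs => zs_ne hRH hs)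
    have : ContDiff ℂ 1 Zs := Zs_differentiable.contDiff
    exact (this.continuous_deriv le_rfl).continuousOn
  refine h1.comp (by fun_prop) fun p hp => ?_
  simp only [Set.mem_setOf_eq] at hp ⊢
  simp
  exact hp

lemma zf_cont (hRH : RiemannHypothesis) {x : ℝ} (hx : 0 < x) : Continuous fun v : ℝ => ZF ⟨1 / 2 + x, v⟩ := by
  have h := (zf_contOn hRH).comp_continuous (f := fun v : ℝ => (x, v)) (by fun_prop) fun v => hx
  exact h

end Pool.Agent.U507.GM
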